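import Mathlib

/-! # KAL (MP_e2be99_lc): hitting sets of size (nD)^O(sqrt s + t) for all arithmetic circuits

architect: helper7.  Definitions.
-/

set_option autoImplicit false

namespace Pool.Agent.KAL

open MvPolynomial

/-- Formulas over `K` in the variables `x_0 .. x_(n-1)`: fan-in two sums and products of constants and
of leaves. Leaves are determinants `det (A + sum_(a < r) p_a(x_(idx a)) u_a w_a^T)` with `r` rank one
terms (`u_a` the columns of `U`, `w_a` the rows of `W`, `p_a` univariate polynomials; `N = r = 1`, `A = 0`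
is a leaf `p(x_i)`), and oblivious programs `u^T M_1(x_(idx 1)) ... M_L(x_(idx L)) v` of width `w`
(`M_t` a `w × w` matrix of univariate polynomials). -/
inductive Circ (K : Type*) [Field K] (n : ℕ) : Type _
  | const (c : K) : Circ K n
  | det {N r : ℕ} (A : Matrix (Fin N) (Fin N) K) (U : Matrix (Fin N) (Fin r) K)
      (W : Matrix (Fin r) (Fin N) K) (idx : Fin r → Fin n) (p : Fin r → Polynomial K) : Circ K n
  | prog {w L : ℕ} (u v : Fin w → K) (M : Fin L → Matrix (Fin w) (Fin w) (Polynomial K))
      (idx : Fin L → Fin n) : Circ K n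
  | add (f g : Circ K n) : Circ K n
  | mul (f g : Circ K n) : Circ K n

namespace Circ

variable {K : Type*} [Field K] {n : ℕ}

/-- value at a point of a `K`-algebra -/
noncomputable def ev {B : Type*} [CommRing B] [Algebra K B] (x : Fin n → B) : Circ K n → B
  | const c => algebraMap K B c
  | det A U W idx p =>
      (A.map (algebraMap K B) + U.map (algebraMap K B) *
        Matrix.diagonal (fun a => Polynomial.aeval (x (idx a)) (p a)) *
        W.map (algebraMap K B)).det
  | prog u v M idx =>
      (fun i => algebraMap K B (u i)) ⬝ᵥ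
        (List.ofFn fun t => (M t).map (Polynomial.aeval (x (idx t)))).prod.mulVec
          (fun i => algebraMap K B (v i))
  | add f g => ev x f + ev x g
  | mul f g => ev x f * ev x g

/-- the polynomial computed -/
noncomputable def val (Φ : Circ K n) : MvPolynomial (Fin n) K := Φ.ev X

/-- number of rank one terms and layers with a variable in `Y` -/
def occ (Y : Finset (Fin n)) : Circ K n → ℕ
  | const _ => 0
  | det _ _ _ idx _ => (Finset.univ.filter fun a => idx a ∈ Y).card
  | prog _ _ _ idx => (Finset.univ.filter fun a => idx a ∈ Y).card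
  | add f g => occ Y f + occ Y g
  | mul f g => occ Y f + occ Y g

/-- every determinant has at most `b` rank one terms, every program has width at most `w` -/
def Wd (b w : ℕ) : Circ K n → Prop
  | const _ => True
  | @det _ _ _ _ r _ _ _ _ _ => r ≤ b
  | @prog _ _ _ w' _ _ _ _ _ => w' ≤ w
  | add f g => Wd b w f ∧ Wd b w g
  | mul f g => Wd b w f ∧ Wd b w g

end Circ

/-- `κ` for `l` occurrences -/
def kap (b w l : ℕ) : ℕ := l * (max (min b l) (2 * w ^ 2) + 5) + 1

/-- number of cuts `c_a ≤ i` (the block of `i`) -/
def blk {m : ℕ} (c : Fin m → ℕ) (i : ℕ) : Fin (m + 1) :=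
  ⟨(Finset.univ.filter fun a => c a ≤ i).card, by
    have := Finset.card_filter_le (Finset.univ : Finset (Fin m)) (fun a => c a ≤ i)
    simp only [Finset.card_univ, Fintype.card_fin] at this
    omega⟩

/-! ## circuits: formulas which use the values of earlier formulas -/

section

variable {K : Type*} [Field K] {n k : ℕ}

/-- A circuit with `k` reused gates: `Φ_0, .., Φ_k` are formulas in `x_0 .. x_(n-1)` and `y_0 .. y_(k-1)`;
`y_j` is the value of `Φ_j`. `vals Φ x j`: the values `y_0 .. y_(j-1)` at `x` (the other `y` are `0`). -/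
noncomputable def vals {B : Type*} [CommRing B] [Algebra K B] (Φ : Fin (k + 1) → Circ K (n + k))
    (x : Fin n → B) : ℕ → Fin k → B
  | 0 => 0
  | j + 1 => fun i => if (i : ℕ) = j then (Φ i.castSucc).ev (Fin.append x (vals Φ x j)) else
      vals Φ x j i

/-- the value of the circuit: that of the last formula -/
noncomputable def run {B : Type*} [CommRing B] [Algebra K B] (Φ : Fin (k + 1) → Circ K (n + k))
    (x : Fin n → B) : B :=
  (Φ (Fin.last k)).ev (Fin.append x (vals Φ x k))

/-- number of leaves (rank one terms, layers) with one of the variables `x_i`, `i ∈ Y` -/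
def nx (Φ : Fin (k + 1) → Circ K (n + k)) (Y : Finset (Fin n)) : ℕ :=
  ∑ j, (Φ j).occ (Y.map (Fin.castAddEmb k))

/-- number of leaves (rank one terms, layers) with one of the `y_j` (wires which leave reused gates) -/
def ny (Φ : Fin (k + 1) → Circ K (n + k)) : ℕ :=
  ∑ j, (Φ j).occ (Finset.univ.map (Fin.natAddEmb n))

end

/-! ## internal notions -/

/-- `g` is admissible for `κ`: up to a nonzero factor `b`, all coefficients of `g` lie in the
`K`-algebra generated by `κ` elements of `B`, and so does `b`. -/
def Adm (K : Type*) [Field K] {B : Type*} [CommRing B] [Algebra K B] {ι : Type*} (κ : ℕ)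
    (g : MvPolynomial ι B) : Prop :=
  ∃ (θ : Fin κ → B) (b : B), b ≠ 0 ∧ b ∈ Algebra.adjoin K (Set.range θ) ∧
    ∀ μ, coeff μ (C b * g) ∈ Algebra.adjoin K (Set.range θ)

/-- the substitution which keeps the variables in `Y` and replaces the others by `v` -/
noncomputable def pv {n : ℕ} (Y : Finset (Fin n)) {B : Type*} [CommRing B] (v : Fin n → B) (i : Fin n) :
    MvPolynomial {i // i ∈ Y} B :=
  if h : i ∈ Y then X ⟨i, h⟩ else C (v i)

end Pool.Agent.KAL
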