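import Mathlib

/-! # KAL-DetId.  Two facts about `det (M + U diag(q) W)`.

PLAN. (1) `[[M, -U],[diag q W, 1]] * [[1, adj M U],[0, δ 1]] = [[M, 0],[diag q W, δ 1 + diag q W adj M U]]`
(`Matrix.fromBlocks_multiply`, `M * adjugate M = δ • 1`). Take determinants:
`Matrix.det_fromBlocks_one₂₂ : det (fromBlocks A B C 1) = det (A - B * C)`,
`det_fromBlocks_zero₂₁`, `det_fromBlocks_zero₁₂`, `det (δ • 1) = δ^L`.
(2) `det (M + U diag(q) W) = det [[M, -U],[diag q W, 1]]` (same lemma); by `Matrix.det_apply` it is a sum over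
permutations of products of entries; the entries of the rows of `M` and `U` have total degree 0 and the entries of
the row `a` of the lower half have total degree `≤ (q a).totalDegree`
(`MvPolynomial.totalDegree_finset_sum`/`totalDegree_finset_prod`, `totalDegree_mul`, `totalDegree_C`;
apply `det_transpose` first if the rows should become the free index of the product). -/

set_option autoImplicit false

namespace Pool.Agent.KAL

open Matrix

private theorem DetId_one {R : Type*} [CommRing R] {N L : ℕ} (M : Matrix (Fin N) (Fin N) R)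
    (U : Matrix (Fin N) (Fin L) R) (V : Matrix (Fin L) (Fin N) R) :
    (fromBlocks M (-U) V (1 : Matrix (Fin L) (Fin L) R)).det = (M + U * V).det := by
  rw [det_fromBlocks_one₂₂, Matrix.neg_mul, sub_neg_eq_add]

theorem det_block {R : Type*} [CommRing R] {N L : ℕ} (M : Matrix (Fin N) (Fin N) R)
    (U : Matrix (Fin N) (Fin L) R) (q : Fin L → R) (W : Matrix (Fin L) (Fin N) R) :
    (M + U * diagonal q * W).det * M.det ^ L =
      M.det * (M.det • (1 : Matrix (Fin L) (Fin L) R) + diagonal q * (W * M.adjugate * U)).det := by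
  have h1 : fromBlocks M (-U) (diagonal q * W) (1 : Matrix (Fin L) (Fin L) R) *
      fromBlocks (1 : Matrix (Fin N) (Fin N) R) (M.adjugate * U) 0 (M.det • (1 : Matrix (Fin L) (Fin L) R)) =
      fromBlocks M 0 (diagonal q * W)
        (M.det • (1 : Matrix (Fin L) (Fin L) R) + diagonal q * (W * M.adjugate * U)) := by
    rw [fromBlocks_multiply]
    congr 1
    · rw [Matrix.mul_one, Matrix.mul_zero, add_zero]
    · rw [← Matrix.mul_assoc, mul_adjugate, Matrix.smul_mul, Matrix.one_mul, Matrix.mul_smul, Matrix.mul_one,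
        smul_neg, add_neg_cancel]
    · rw [Matrix.mul_one, Matrix.mul_zero, add_zero]
    · rw [Matrix.one_mul, add_comm]
      simp only [Matrix.mul_assoc]
  have h2 := congrArg Matrix.det h1
  rw [det_mul, DetId_one, det_fromBlocks_zero₂₁, det_fromBlocks_zero₁₂, det_one, one_mul, det_smul, det_one,
    mul_one, Fintype.card_fin, ← Matrix.mul_assoc] at h2
  exact h2

theorem totalDegree_det_le {R τ : Type*} [CommRing R] {N L : ℕ} (M : Matrix (Fin N) (Fin N) R)
    (U : Matrix (Fin N) (Fin L) R) (q : Fin L → MvPolynomial τ R) (W : Matrix (Fin L) (Fin N) R) :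
    (M.map (MvPolynomial.C (σ := τ)) + U.map (MvPolynomial.C (σ := τ)) * diagonal q *
      W.map (MvPolynomial.C (σ := τ))).det.totalDegree ≤ ∑ a, (q a).totalDegree := by
  classical
  rw [Matrix.mul_assoc, ← DetId_one]
  set S := fromBlocks (M.map (MvPolynomial.C (σ := τ))) (-(U.map (MvPolynomial.C (σ := τ))))
    (diagonal q * W.map (MvPolynomial.C (σ := τ))) (1 : Matrix (Fin L) (Fin L) (MvPolynomial τ R)) with hS
  obtain ⟨w, hw⟩ : ∃ w : Fin N ⊕ Fin L → ℕ, w = Sum.elim (fun _ => 0) (fun a => (q a).totalDegree) := ⟨_, rfl⟩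
  have hent : ∀ i j, (S i j).totalDegree ≤ w i := by
    rintro (i | i) (j | j)
    · rw [hS, hw, fromBlocks_apply₁₁, Matrix.map_apply, MvPolynomial.totalDegree_C]
      exact Nat.zero_le _
    · rw [hS, hw, fromBlocks_apply₁₂, Matrix.neg_apply, Matrix.map_apply, MvPolynomial.totalDegree_neg,
        MvPolynomial.totalDegree_C]
      exact Nat.zero_le _
    · rw [hS, hw, fromBlocks_apply₂₁, diagonal_mul, Matrix.map_apply]
      refine (MvPolynomial.totalDegree_mul _ _).trans ?_
      rw [MvPolynomial.totalDegree_C, add_zero]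
      exact le_refl _
    · rw [hS, hw, fromBlocks_apply₂₂]
      by_cases h : i = j
      · rw [h, one_apply_eq, MvPolynomial.totalDegree_one]
        exact Nat.zero_le _
      · rw [one_apply_ne h, MvPolynomial.totalDegree_zero]
        exact Nat.zero_le _
  have hsum : ∑ i, w i = ∑ a, (q a).totalDegree := by
    rw [hw, Fintype.sum_sum_type]
    simp
  rw [det_apply]
  refine MvPolynomial.totalDegree_finsetSum_le fun σ _ => ?_
  refine (MvPolynomial.totalDegree_smul_le _ _).trans ?_
  refine (MvPolynomial.totalDegree_finsetProd _ _).trans ?_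
  rw [← hsum, ← Equiv.sum_comp σ w]
  exact Finset.sum_le_sum fun i _ => hent (σ i) i

end Pool.Agent.KAL
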