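import Mathlib
import Pool.Agent.KAL.Defs
import Pool.Agent.KAL.DetId

/-! # KAL-AdmDet.  A determinant with `L` rank one terms in the variables of `ι` is admissible for `L^2 + 1`.

PLAN. `g = det (C M + C U * diagonal (fun a => (q a) over B) * C W)`, `M` over `B`, `U`, `W` over `K`,
`q a ∈ MvPolynomial ι K` mapped to `B`.
If `g = 0`: take `θ = 0`, `b = 1` (all coefficients are `0`).
Otherwise some `η : Fin L → ℕ` has `δ := det (M + U diag(η) W) ≠ 0` in `B`: otherwise the polynomial
`det (C M + C U diag(T_a) C W) ∈ MvPolynomial (Fin L) B` vanishes at all points of `ℕ^L`, hence is `0`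
(`MvPolynomial.funext`-like; `B` is a domain of characteristic 0: `MvPolynomial.eq_zero_of_eval_zero_at_prod_finset`
or induction), and `g` is its image under `T_a ↦ q a`.
Let `M' = M + U diag(η) W`, `S = W adj(M') U` (`L x L` over `B`), `θ = (δ, entries of S)`
(index `Fin (L*L+1)` via `finProdFinEquiv`/`Fin.cons`), `b = δ^L` (`∈ adjoin`, `≠ 0`).
`det_block` over `MvPolynomial ι B` with `M := C M'`, `q := q a - η a`:
`C b * g = C δ * det (C δ • 1 + diagonal (q a - η a) * C S)`: every entry is a polynomial in `ι` over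
`MvPolynomial ι` with coefficients in `adjoin K (range θ)`.  The polynomials with all coefficients in a subalgebra
`𝒜` of `B` form a subring of `MvPolynomial ι B` (for example the range of
`MvPolynomial.map (algebraMap 𝒜 B)`, or `MvPolynomial.coeffsIn`); it contains the determinant. -/

set_option autoImplicit false

namespace Pool.Agent.KAL

open MvPolynomial

/-- membership of all coefficients in a subalgebra, as a subring -/
noncomputable def cf {K B : Type*} [Field K] [CommRing B] [Algebra K B] (ι : Type*)
    (S : Subalgebra K B) : Subring (MvPolynomial ι B) :=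
  (MvPolynomial.map (σ := ι) (algebraMap S B)).range

theorem mem_cf {K B : Type*} [Field K] [CommRing B] [Algebra K B] {ι : Type*}
    (S : Subalgebra K B) (g : MvPolynomial ι B) : g ∈ cf ι S ↔ ∀ μ, coeff μ g ∈ S := by
  classical
  constructor
  · rintro ⟨p, rfl⟩ μ
    rw [coeff_map]
    exact (coeff μ p).2
  · intro h
    have h1 : g ∈ Set.range (MvPolynomial.map (σ := ι) (algebraMap S B)) := by
      rw [mem_range_map_iff_coeffs_subset]
      intro b hb
      rw [Finset.mem_coe, MvPolynomial.mem_coeffs_iff] at hb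
      obtain ⟨n, -, rfl⟩ := hb
      exact ⟨⟨coeff n g, h n⟩, rfl⟩
    exact h1

private theorem AdmDet_C {K B : Type*} [Field K] [CommRing B] [Algebra K B] {ι : Type*}
    (S : Subalgebra K B) {b : B} (hb : b ∈ S) : (C b : MvPolynomial ι B) ∈ cf ι S := by
  classical
  rw [mem_cf]
  intro μ
  rw [coeff_C]
  split_ifs
  · exact hb
  · exact S.zero_mem

private theorem AdmDet_map {K B : Type*} [Field K] [CommRing B] [Algebra K B] {ι : Type*}
    (S : Subalgebra K B) (q : MvPolynomial ι K) :
    MvPolynomial.map (algebraMap K B) q ∈ cf ι S := by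
  rw [mem_cf]
  intro μ
  rw [coeff_map]
  exact S.algebraMap_mem _

private theorem AdmDet_det {R : Type*} [CommRing R] (T : Subring R) {L : ℕ}
    (A : Matrix (Fin L) (Fin L) R) (hA : ∀ i j, A i j ∈ T) : A.det ∈ T := by
  rw [Matrix.det_apply]
  refine T.sum_mem fun σ _ => ?_
  rw [Units.smul_def]
  exact T.zsmul_mem (T.prod_mem fun i _ => hA _ _) _

private theorem AdmDet_map3 {R S : Type*} [CommRing R] [CommRing S] (φ : R →+* S) {N L : ℕ}
    (M : Matrix (Fin N) (Fin N) R) (U : Matrix (Fin N) (Fin L) R) (q : Fin L → R)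
    (W : Matrix (Fin L) (Fin N) R) :
    φ (M + U * Matrix.diagonal q * W).det =
      (M.map φ + U.map φ * Matrix.diagonal (fun a => φ (q a)) * W.map φ).det := by
  rw [RingHom.map_det]
  congr 1
  rw [RingHom.mapMatrix_apply, Matrix.map_add φ (fun a b => map_add φ a b), Matrix.map_mul,
    Matrix.map_mul]
  rw [Matrix.diagonal_map (map_zero φ)]

private theorem AdmDet_eta {B : Type*} [CommRing B] [IsDomain B] [CharZero B] {ι : Type*}
    {N L : ℕ} (M : Matrix (Fin N) (Fin N) B) (U : Matrix (Fin N) (Fin L) B)
    (W : Matrix (Fin L) (Fin N) B) (q : Fin L → MvPolynomial ι B)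
    (h : (M.map (C (σ := ι)) + U.map (C (σ := ι)) * Matrix.diagonal q * W.map (C (σ := ι))).det ≠ 0) :
    ∃ η : Fin L → ℕ, (M + U * Matrix.diagonal (fun a => (η a : B)) * W).det ≠ 0 := by
  by_contra hcon
  push Not at hcon
  have hP : (M.map (C (σ := Fin L)) + U.map (C (σ := Fin L)) *
      Matrix.diagonal (fun a => (X a : MvPolynomial (Fin L) B)) *
      W.map (C (σ := Fin L))).det = 0 := by
    refine MvPolynomial.funext_set (fun _ => Set.range (Nat.cast : ℕ → B))
      (fun _ => Set.infinite_range_of_injective Nat.cast_injective) ?_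
    intro x hx
    have hx' : ∀ a, ∃ n : ℕ, (n : B) = x a := fun a => hx a (Set.mem_univ a)
    choose n hn using hx'
    rw [AdmDet_map3, map_zero]
    have h1 := hcon n
    convert h1 using 3
    · ext i j
      simp
    · congr 1
      · congr 1
        · ext i j
          simp
        · congr 1
          funext a
          rw [eval_X, hn]
      · ext i j
        simp
  apply h
  have h2 := congrArg (MvPolynomial.eval₂Hom (C (σ := ι)) q) hP
  rw [AdmDet_map3, map_zero] at h2
  convert h2 using 3
  · ext i j
    simp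
  · congr 1
    · congr 1
      · ext i j
        simp
      · congr 1
        funext a
        simp
    · ext i j
      simp

theorem adm_det {K B : Type*} [Field K] [CharZero K] [CommRing B] [IsDomain B] [Algebra K B]
    {ι : Type*} {N L : ℕ} (M : Matrix (Fin N) (Fin N) B)
    (U : Matrix (Fin N) (Fin L) K) (W : Matrix (Fin L) (Fin N) K) (q : Fin L → MvPolynomial ι K) :
    Adm K (L * L + 1) ((M.map (C (σ := ι)) + U.map (algebraMap K (MvPolynomial ι B)) *
      Matrix.diagonal (fun a => MvPolynomial.map (algebraMap K B) (q a)) *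
      W.map (algebraMap K (MvPolynomial ι B))).det) := by
  classical
  have hchar : CharZero B := charZero_of_injective_algebraMap (algebraMap K B).injective
  set U' : Matrix (Fin N) (Fin L) B := U.map (algebraMap K B) with hU'
  set W' : Matrix (Fin L) (Fin N) B := W.map (algebraMap K B) with hW'
  have hU : U.map (algebraMap K (MvPolynomial ι B)) = U'.map (C (σ := ι)) := by
    ext1 i j
    rfl
  have hW : W.map (algebraMap K (MvPolynomial ι B)) = W'.map (C (σ := ι)) := by
    ext1 i j
    rfl
  rw [hU, hW]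
  set q' : Fin L → MvPolynomial ι B := fun a => MvPolynomial.map (algebraMap K B) (q a) with hq'
  by_cases hg : (M.map (C (σ := ι)) + U'.map (C (σ := ι)) * Matrix.diagonal q' *
      W'.map (C (σ := ι))).det = 0
  · refine ⟨fun _ => 0, 1, one_ne_zero, Subalgebra.one_mem _, fun μ => ?_⟩
    rw [hg, mul_zero, coeff_zero]
    exact Subalgebra.zero_mem _
  obtain ⟨η, hη⟩ := AdmDet_eta M U' W' q' hg
  set M' : Matrix (Fin N) (Fin N) B :=
    M + U' * Matrix.diagonal (fun a => (η a : B)) * W' with hM'
  set S : Matrix (Fin L) (Fin L) B := W' * M'.adjugate * U' with hS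
  set θ : Fin (L * L + 1) → B :=
    Fin.cons M'.det fun k => S (finProdFinEquiv.symm k).1 (finProdFinEquiv.symm k).2 with hθ
  set A : Subalgebra K B := Algebra.adjoin K (Set.range θ) with hA
  have hδ : M'.det ∈ A := Algebra.subset_adjoin ⟨0, by rw [hθ, Fin.cons_zero]⟩
  have hSA : ∀ i j, S i j ∈ A := by
    intro i j
    refine Algebra.subset_adjoin ⟨Fin.succ (finProdFinEquiv (i, j)), ?_⟩
    rw [hθ, Fin.cons_succ, Equiv.symm_apply_apply]
  refine ⟨θ, M'.det ^ L, pow_ne_zero _ hη, A.pow_mem hδ L, ?_⟩
  have hdb := det_block (M'.map (C (σ := ι))) (U'.map (C (σ := ι)))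
    (fun a => q' a - C ((η a : B))) (W'.map (C (σ := ι)))
  have hMC : (M'.map (C (σ := ι))).det = C M'.det := by
    rw [RingHom.map_det, RingHom.mapMatrix_apply]
  have hadj : (M'.map (C (σ := ι))).adjugate = M'.adjugate.map (C (σ := ι)) := by
    have := RingHom.map_adjugate (C (σ := ι)) M'
    rw [RingHom.mapMatrix_apply, RingHom.mapMatrix_apply] at this
    exact this.symm
  have hSm : W'.map (C (σ := ι)) * M'.adjugate.map (C (σ := ι)) * U'.map (C (σ := ι)) =
      S.map (C (σ := ι)) := by
    rw [hS, Matrix.map_mul, Matrix.map_mul]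
  have hsum : M'.map (C (σ := ι)) + U'.map (C (σ := ι)) *
      Matrix.diagonal (fun a => q' a - C ((η a : B))) * W'.map (C (σ := ι)) =
      M.map (C (σ := ι)) + U'.map (C (σ := ι)) * Matrix.diagonal q' * W'.map (C (σ := ι)) := by
    have h1 : Matrix.diagonal (fun a => q' a - C ((η a : B))) =
        Matrix.diagonal q' - Matrix.diagonal (fun a => (C ((η a : B)) : MvPolynomial ι B)) := by
      rw [Matrix.diagonal_sub]
    have h2 : M'.map (C (σ := ι)) = M.map (C (σ := ι)) + U'.map (C (σ := ι)) *
        Matrix.diagonal (fun a => (C ((η a : B)) : MvPolynomial ι B)) * W'.map (C (σ := ι)) := by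
      rw [hM', Matrix.map_add (C (σ := ι)) (fun a b => map_add (C (σ := ι)) a b), Matrix.map_mul,
        Matrix.map_mul, Matrix.diagonal_map (map_zero (C (σ := ι)))]
    rw [h1, h2, Matrix.mul_sub, Matrix.sub_mul]
    abel
  rw [hsum, hMC, hadj, hSm] at hdb
  have hfin : C (M'.det ^ L) * (M.map (C (σ := ι)) + U'.map (C (σ := ι)) *
      Matrix.diagonal q' * W'.map (C (σ := ι))).det ∈ cf ι A := by
    rw [C_pow, mul_comm, hdb]
    refine Subring.mul_mem _ (AdmDet_C A hδ) (AdmDet_det _ _ fun i j => ?_)
    rw [Matrix.add_apply, Matrix.smul_apply, Matrix.diagonal_mul, Matrix.map_apply]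
    refine Subring.add_mem _ ?_ (Subring.mul_mem _ (Subring.sub_mem _ (AdmDet_map A _)
      (AdmDet_C A (natCast_mem A _))) (AdmDet_C A (hSA i j)))
    rw [smul_eq_mul]
    refine Subring.mul_mem _ (AdmDet_C A hδ) ?_
    rw [Matrix.one_apply]
    split_ifs
    · exact Subring.one_mem _
    · exact Subring.zero_mem _
  exact (mem_cf A _).1 hfin

end Pool.Agent.KAL
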