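import Mathlib
import Pool.Agent.KAL.Defs

/-! # KAL-AdmProg.  An oblivious program of width `w` with `l` layers in the variables of `Y` is admissible
for `(l + 1) w^2`.

PLAN. Over `B[ι]` (`R = MvPolynomial ι B`): a list of `w × w` matrices, each of them either constant (entries
`C _`) or with entries in `K[ι]` mapped to `B` (the layers with a variable in `Y`). By induction on the list:
`prod = P * A.map C` (`A` over `B`) where the entries of `P` have all their coefficients in
`adjoin K (entries of the ≤ l matrices A_1 .. A_l)`. A constant matrix changes `A` only, a layer `T` in `Y` gives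
`P' = P * A.map C * T`, `A' = 1`, and the `w^2` entries of `A` become new elements `θ`. At the end
`u^T P A v`: `θ` = the entries of `A_1, .., A_l, A`, `b = 1`. -/

set_option autoImplicit false

namespace Pool.Agent.KAL

open MvPolynomial

/-- all coefficients of `p` lie in `S` -/
private def CI49 {K B : Type*} [Field K] [CommRing B] [Algebra K B] {ι : Type*}
    (S : Subalgebra K B) (p : MvPolynomial ι B) : Prop := ∀ μ, coeff μ p ∈ S

section

variable {K B : Type*} [Field K] [CommRing B] [Algebra K B] {ι : Type*}

private theorem ci49_mul {S : Subalgebra K B} {p q : MvPolynomial ι B} (hp : CI49 S p)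
    (hq : CI49 S q) : CI49 S (p * q) := by
  classical
  intro μ
  rw [coeff_mul]
  exact sum_mem fun x _ => mul_mem (hp _) (hq _)

private theorem ci49_sum {S : Subalgebra K B} {α : Type*} (s : Finset α)
    {f : α → MvPolynomial ι B} (hf : ∀ a ∈ s, CI49 S (f a)) : CI49 S (∑ a ∈ s, f a) := by
  intro μ
  rw [coeff_sum]
  exact sum_mem fun a ha => hf a ha μ

private theorem ci49_mono {S S' : Subalgebra K B} (h : S ≤ S') {p : MvPolynomial ι B}
    (hp : CI49 S p) : CI49 S' p := fun μ => h (hp μ)

private theorem ci49_C {S : Subalgebra K B} {c : B} (hc : c ∈ S) :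
    CI49 S (MvPolynomial.C c : MvPolynomial ι B) := by
  classical
  intro μ
  rw [coeff_C]
  split_ifs
  · exact hc
  · exact zero_mem S

private theorem ci49_map (S : Subalgebra K B) (q : MvPolynomial ι K) :
    CI49 S (MvPolynomial.map (algebraMap K B) q) := by
  intro μ
  rw [coeff_map]
  exact S.algebraMap_mem _

private theorem ci49_alg (S : Subalgebra K B) (c : K) :
    CI49 S (algebraMap K (MvPolynomial ι B) c) := by
  have h : algebraMap K (MvPolynomial ι B) c = MvPolynomial.C (algebraMap K B c) := rfl
  rw [h]
  exact ci49_C (S.algebraMap_mem _)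

/-- the entries of a matrix -/
private noncomputable def ent49 {w : ℕ} [DecidableEq B] (A : Matrix (Fin w) (Fin w) B) : Finset B :=
  Finset.univ.image fun p : Fin w × Fin w => A p.1 p.2

private theorem ent49_card {w : ℕ} [DecidableEq B] (A : Matrix (Fin w) (Fin w) B) :
    (ent49 A).card ≤ w ^ 2 := by
  unfold ent49
  refine Finset.card_image_le.trans ?_
  rw [Finset.card_univ, Fintype.card_prod, Fintype.card_fin, sq]

private theorem ent49_mem {w : ℕ} [DecidableEq B] (A : Matrix (Fin w) (Fin w) B) (i j : Fin w) :
    A i j ∈ ent49 A := by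
  unfold ent49
  exact Finset.mem_image.2 ⟨(i, j), Finset.mem_univ _, rfl⟩

private theorem prog49_core {w L : ℕ} (T : Fin L → Matrix (Fin w) (Fin w) (MvPolynomial ι B))
    (J : Finset (Fin L))
    (hJ : ∀ t ∈ J, ∃ Q : Matrix (Fin w) (Fin w) (MvPolynomial ι K),
      T t = Q.map (MvPolynomial.map (algebraMap K B)))
    (hJ' : ∀ t ∉ J, ∃ Q : Matrix (Fin w) (Fin w) B, T t = Q.map (MvPolynomial.C (σ := ι)))
    (l : List (Fin L)) :
    ∃ (S : Finset B) (A : Matrix (Fin w) (Fin w) B)
      (P : Matrix (Fin w) (Fin w) (MvPolynomial ι B)),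
      S.card ≤ (l.filter (fun t => t ∈ J)).length * w ^ 2 ∧
      (l.map T).prod = A.map (MvPolynomial.C (σ := ι)) * P ∧
      ∀ i j, CI49 (Algebra.adjoin K (S : Set B)) (P i j) := by
  classical
  induction l with
  | nil =>
    refine ⟨∅, 1, 1, by simp, ?_, ?_⟩
    · rw [List.map_nil, List.prod_nil, mul_one]
      ext1 i j
      rw [Matrix.map_apply, Matrix.one_apply, Matrix.one_apply]
      split_ifs
      · simp
      · simp
    · intro i j
      rw [Matrix.one_apply]
      split_ifs
      · have : (1 : MvPolynomial ι B) = MvPolynomial.C 1 := by simp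
        rw [this]
        exact ci49_C (one_mem _)
      · have : (0 : MvPolynomial ι B) = MvPolynomial.C 0 := by simp
        rw [this]
        exact ci49_C (zero_mem _)
  | cons t l ih =>
    obtain ⟨S, A, P, hS, hP, hc⟩ := ih
    by_cases ht : t ∈ J
    · obtain ⟨Q, hQ⟩ := hJ t ht
      refine ⟨S ∪ ent49 A, 1, T t * (A.map (MvPolynomial.C (σ := ι)) * P), ?_, ?_, ?_⟩
      · have h1 : ((t :: l).filter (fun t => t ∈ J)).length =
            (l.filter (fun t => t ∈ J)).length + 1 := by
          rw [List.filter_cons_of_pos (by simpa using ht), List.length_cons]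
        rw [h1, add_mul, one_mul]
        exact (Finset.card_union_le _ _).trans (add_le_add hS (ent49_card A))
      · rw [List.map_cons, List.prod_cons, hP]
        have h1 : (1 : Matrix (Fin w) (Fin w) B).map (MvPolynomial.C (σ := ι)) = 1 := by
          ext1 i j
          rw [Matrix.map_apply, Matrix.one_apply, Matrix.one_apply]
          split_ifs
          · simp
          · simp
        rw [h1, one_mul]
      · intro i j
        have hle : Algebra.adjoin K (S : Set B) ≤
            Algebra.adjoin K ((S ∪ ent49 A : Finset B) : Set B) := by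
          apply Algebra.adjoin_mono
          intro x hx
          simp only [Finset.coe_union, Set.mem_union]
          exact Or.inl hx
        have hA : ∀ a b, A a b ∈ Algebra.adjoin K ((S ∪ ent49 A : Finset B) : Set B) := by
          intro a b
          apply Algebra.subset_adjoin
          simp only [Finset.coe_union, Set.mem_union]
          exact Or.inr (ent49_mem A a b)
        rw [Matrix.mul_apply]
        refine ci49_sum _ fun a _ => ci49_mul ?_ ?_
        · rw [hQ, Matrix.map_apply]
          exact ci49_map _ _
        · rw [Matrix.mul_apply]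
          refine ci49_sum _ fun b _ => ci49_mul ?_ ?_
          · rw [Matrix.map_apply]
            exact ci49_C (hA a b)
          · exact ci49_mono hle (hc b j)
    · obtain ⟨Q, hQ⟩ := hJ' t ht
      refine ⟨S, Q * A, P, ?_, ?_, hc⟩
      · have h1 : ((t :: l).filter (fun t => t ∈ J)).length =
            (l.filter (fun t => t ∈ J)).length := by
          rw [List.filter_cons_of_neg (by simpa using ht)]
        rw [h1]
        exact hS
      · rw [List.map_cons, List.prod_cons, hP, hQ, Matrix.map_mul, Matrix.mul_assoc]

private theorem enum49 (S : Finset B) (N : ℕ) (h : S.card ≤ N) :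
    ∃ θ : Fin N → B, (S : Set B) ⊆ Set.range θ := by
  classical
  refine ⟨fun k => if hk : (k : ℕ) < S.card then (S.equivFin.symm ⟨k, hk⟩ : S).1 else 0, ?_⟩
  intro x hx
  have hx' : x ∈ S := hx
  refine ⟨⟨(S.equivFin ⟨x, hx'⟩ : Fin S.card).1, (S.equivFin ⟨x, hx'⟩).2.trans_le h⟩, ?_⟩
  simp

end

theorem adm_prog {K B : Type*} [Field K] [CommRing B] [IsDomain B] [Algebra K B]
    {ι : Type*} {w L : ℕ} (u v : Fin w → K) (T : Fin L → Matrix (Fin w) (Fin w) (MvPolynomial ι B))
    (J : Finset (Fin L))
    (hJ : ∀ t ∈ J, ∃ Q : Matrix (Fin w) (Fin w) (MvPolynomial ι K),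
      T t = Q.map (MvPolynomial.map (algebraMap K B)))
    (hJ' : ∀ t ∉ J, ∃ Q : Matrix (Fin w) (Fin w) B, T t = Q.map (C (σ := ι))) :
    Adm K ((J.card + 1) * w ^ 2) ((fun i => algebraMap K (MvPolynomial ι B) (u i)) ⬝ᵥ
      (List.ofFn T).prod.mulVec (fun i => algebraMap K (MvPolynomial ι B) (v i))) := by
  classical
  obtain ⟨S, A, P, hS, hP, hc⟩ := prog49_core T J hJ hJ' (List.finRange L)
  have hlen : ((List.finRange L).filter (fun t => t ∈ J)).length = J.card := by
    have hnd : ((List.finRange L).filter (fun t => t ∈ J)).Nodup :=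
      (List.nodup_finRange L).filter _
    rw [← List.toFinset_card_of_nodup hnd]
    congr 1
    ext t
    simp
  rw [hlen] at hS
  have hcard : (S ∪ ent49 A).card ≤ (J.card + 1) * w ^ 2 := by
    rw [add_mul, one_mul]
    exact (Finset.card_union_le _ _).trans (add_le_add hS (ent49_card A))
  obtain ⟨θ, hθ⟩ := enum49 (S ∪ ent49 A) _ hcard
  have hle : Algebra.adjoin K (S : Set B) ≤ Algebra.adjoin K (Set.range θ) := by
    apply Algebra.adjoin_mono
    intro x hx
    apply hθ
    simp only [Finset.coe_union, Set.mem_union]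
    exact Or.inl hx
  have hA : ∀ a b, A a b ∈ Algebra.adjoin K (Set.range θ) := by
    intro a b
    apply Algebra.subset_adjoin
    apply hθ
    simp only [Finset.coe_union, Set.mem_union]
    exact Or.inr (ent49_mem A a b)
  refine ⟨θ, 1, one_ne_zero, one_mem _, ?_⟩
  rw [map_one, one_mul, List.ofFn_eq_map, hP]
  have key : CI49 (Algebra.adjoin K (Set.range θ))
      ((fun i => algebraMap K (MvPolynomial ι B) (u i)) ⬝ᵥ
        (A.map (C (σ := ι)) * P).mulVec (fun i => algebraMap K (MvPolynomial ι B) (v i))) := by
    unfold dotProduct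
    refine ci49_sum _ fun i _ => ci49_mul (ci49_alg _ _) ?_
    unfold Matrix.mulVec dotProduct
    refine ci49_sum _ fun j _ => ci49_mul ?_ (ci49_alg _ _)
    beta_reduce
    rw [Matrix.mul_apply]
    refine ci49_sum _ fun a _ => ci49_mul ?_ (ci49_mono hle (hc a j))
    rw [Matrix.map_apply]
    exact ci49_C (hA i a)
  exact key

end Pool.Agent.KAL
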