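import Mathlib
import Pool.Agent.KAL.Defs
import Pool.Agent.KAL.DetId

/-! # KAL-Deg.  Functoriality of `ev`, the variables which occur. -/

set_option autoImplicit false

namespace Pool.Agent.KAL

open MvPolynomial

variable {K : Type*} [Field K] {n : ℕ}

theorem ev_hom {B B' : Type*} [CommRing B] [Algebra K B] [CommRing B'] [Algebra K B'] (φ : B →ₐ[K] B')
    (x : Fin n → B) (Φ : Circ K n) : φ (Φ.ev x) = Φ.ev (fun i => φ (x i)) := by
  induction Φ with
  | const c => exact φ.commutes c
  | det A U W idx p =>
    have h1 : ∀ c, φ (algebraMap K B c) = algebraMap K B' c := fun c => φ.commutes c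
    have h2 : ∀ {l m : ℕ} (M : Matrix (Fin l) (Fin m) K), (M.map (algebraMap K B)).map (φ : B →+* B') =
        M.map (algebraMap K B') := by
      intro l m M
      ext i j
      exact h1 _
    have h3 : (Matrix.diagonal (fun a => Polynomial.aeval (x (idx a)) (p a))).map (φ : B →+* B') =
        Matrix.diagonal (fun a => Polynomial.aeval (φ (x (idx a))) (p a)) := by
      rw [Matrix.diagonal_map (map_zero _)]
      congr 1
      funext a
      exact (Polynomial.aeval_algHom_apply φ (x (idx a)) (p a)).symm
    have h4 : (φ : B →+* B') (A.map (algebraMap K B) + U.map (algebraMap K B) *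
        Matrix.diagonal (fun a => Polynomial.aeval (x (idx a)) (p a)) * W.map (algebraMap K B)).det =
        (A.map (algebraMap K B') + U.map (algebraMap K B') *
        Matrix.diagonal (fun a => Polynomial.aeval (φ (x (idx a))) (p a)) * W.map (algebraMap K B')).det := by
      rw [RingHom.map_det, RingHom.mapMatrix_apply, Matrix.map_add _ (map_add _), Matrix.map_mul, Matrix.map_mul,
        h2, h2, h2, h3]
    exact h4
  | @prog w L u v M idx =>
    have h1 : ∀ c, φ (algebraMap K B c) = algebraMap K B' c := fun c => φ.commutes c
    have h3 : ((List.ofFn fun t => (M t).map (Polynomial.aeval (x (idx t)))).prod).map (φ : B →+* B') =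
        (List.ofFn fun t => (M t).map (Polynomial.aeval (φ (x (idx t))))).prod := by
      have h5 := map_list_prod ((φ : B →+* B').mapMatrix (m := Fin w))
        (List.ofFn fun t => (M t).map (Polynomial.aeval (x (idx t))))
      rw [RingHom.mapMatrix_apply] at h5
      rw [h5, List.map_ofFn]
      congr 2
      funext t
      ext i j
      exact (Polynomial.aeval_algHom_apply φ (x (idx t)) (M t i j)).symm
    have h4 : φ ((fun i => algebraMap K B (u i)) ⬝ᵥ
        (List.ofFn fun t => (M t).map (Polynomial.aeval (x (idx t)))).prod.mulVec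
          (fun i => algebraMap K B (v i))) =
        (fun i => algebraMap K B' (u i)) ⬝ᵥ
        (List.ofFn fun t => (M t).map (Polynomial.aeval (φ (x (idx t))))).prod.mulVec
          (fun i => algebraMap K B' (v i)) := by
      rw [← h3]
      simp only [dotProduct, Matrix.mulVec, map_sum, map_mul, h1, Matrix.map_apply, RingHom.coe_coe]
    exact h4
  | add f g hf hg =>
    have h1 : φ (f.ev x + g.ev x) = f.ev (fun i => φ (x i)) + g.ev (fun i => φ (x i)) := by
      rw [map_add, hf, hg]
    exact h1
  | mul f g hf hg =>
    have h1 : φ (f.ev x * g.ev x) = f.ev (fun i => φ (x i)) * g.ev (fun i => φ (x i)) := by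
      rw [map_mul, hf, hg]
    exact h1

theorem ev_congr {B : Type*} [CommRing B] [Algebra K B] (x y : Fin n → B) (Φ : Circ K n)
    (h : ∀ i, Φ.occ {i} ≠ 0 → x i = y i) : Φ.ev x = Φ.ev y := by
  induction Φ with
  | const c => rfl
  | det A U W idx p =>
    have h1 : ∀ a, x (idx a) = y (idx a) := by
      intro a
      refine h (idx a) ?_
      have h2 : a ∈ Finset.univ.filter fun a' => idx a' ∈ ({idx a} : Finset (Fin n)) := by simp
      exact Finset.card_ne_zero_of_mem h2
    have h3 : (fun a => Polynomial.aeval (x (idx a)) (p a)) = fun a => Polynomial.aeval (y (idx a)) (p a) := by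
      funext a
      rw [h1 a]
    have h4 : (A.map (algebraMap K B) + U.map (algebraMap K B) *
        Matrix.diagonal (fun a => Polynomial.aeval (x (idx a)) (p a)) * W.map (algebraMap K B)).det =
        (A.map (algebraMap K B) + U.map (algebraMap K B) *
        Matrix.diagonal (fun a => Polynomial.aeval (y (idx a)) (p a)) * W.map (algebraMap K B)).det := by
      rw [h3]
    exact h4
  | prog u v M idx =>
    have h1 : ∀ a, x (idx a) = y (idx a) := by
      intro a
      refine h (idx a) ?_
      have h2 : a ∈ Finset.univ.filter fun a' => idx a' ∈ ({idx a} : Finset (Fin n)) := by simp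
      exact Finset.card_ne_zero_of_mem h2
    have h3 : (fun t => (M t).map (Polynomial.aeval (x (idx t)))) =
        fun t => (M t).map (Polynomial.aeval (y (idx t))) := by
      funext t
      rw [h1 t]
    have h4 : (fun i => algebraMap K B (u i)) ⬝ᵥ
        (List.ofFn fun t => (M t).map (Polynomial.aeval (x (idx t)))).prod.mulVec
          (fun i => algebraMap K B (v i)) =
        (fun i => algebraMap K B (u i)) ⬝ᵥ
        (List.ofFn fun t => (M t).map (Polynomial.aeval (y (idx t)))).prod.mulVec
          (fun i => algebraMap K B (v i)) := by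
      rw [h3]
    exact h4
  | add f g hf hg =>
    have h1 : f.ev x + g.ev x = f.ev y + g.ev y := by
      rw [hf fun i hi => h i fun h0 => hi (Nat.eq_zero_of_add_eq_zero_right h0),
        hg fun i hi => h i fun h0 => hi (Nat.eq_zero_of_add_eq_zero_left h0)]
    exact h1
  | mul f g hf hg =>
    have h1 : f.ev x * g.ev x = f.ev y * g.ev y := by
      rw [hf fun i hi => h i fun h0 => hi (Nat.eq_zero_of_add_eq_zero_right h0),
        hg fun i hi => h i fun h0 => hi (Nat.eq_zero_of_add_eq_zero_left h0)]
    exact h1

theorem occ_eq_sum (Φ : Circ K n) (Y : Finset (Fin n)) : Φ.occ Y = ∑ i ∈ Y, Φ.occ {i} := by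
  induction Φ with
  | const c => simp [Circ.occ]
  | det A U W idx p =>
    simp only [Circ.occ, Finset.card_filter, Finset.mem_singleton]
    rw [Finset.sum_comm]
    refine Finset.sum_congr rfl fun a _ => ?_
    rw [Finset.sum_ite_eq]
  | prog u v M idx =>
    simp only [Circ.occ, Finset.card_filter, Finset.mem_singleton]
    rw [Finset.sum_comm]
    refine Finset.sum_congr rfl fun a _ => ?_
    rw [Finset.sum_ite_eq]
  | add f g hf hg =>
    simp only [Circ.occ]
    rw [hf, hg, Finset.sum_add_distrib]
  | mul f g hf hg =>
    simp only [Circ.occ]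
    rw [hf, hg, Finset.sum_add_distrib]

end Pool.Agent.KAL
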