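import Mathlib
import Pool.Agent.KAL.Defs
import Pool.Agent.KAL.Deg
import Pool.Agent.KAL.AdmDet
import Pool.Agent.KAL.AdmProg

/-! # KAL-AdmF.  Kalorkoti's path compression: for `ℓ = Φ.occ Y` the polynomial `Φ.ev (pv Y v)` (variables of
`Y` kept, the others replaced by elements of `B`) is admissible for
`kap b w ℓ = ℓ (max (min b ℓ) (2 w^2) + 5) + 1`.

PLAN. Structural induction for the statement
`P(Φ)`: if `Φ.occ Y = 0` then `∃ c : B, Φ.ev (pv Y v) = C c`; if `Φ.occ Y > 0` then there are `κ₀`,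
`a a' : B`, `g₀` with `κ₀ + 4 ≤ ℓ (max (min b ℓ) (2 w^2) + 5)`, `Adm K κ₀ g₀` and `Φ.ev (pv Y v) = C a * g₀ + C a'`.
* `const`: `C (algebraMap K B c)`.
* `det`, `L = occ Y = 0`: no `idx a` lies in `Y`, all entries of the matrix are constants `C _`
  (`RingHom.map_det` for `C`). `L ≥ 1`: split `Fin r` into `{a | idx a ∈ Y}` (equivalent to `Fin L`) and the
  rest: `U diag W = U_Y diag W_Y + U' diag W'` and put the second summand into `M` (over `B`):
  `adm_det` gives `κ₀ = L*L + 1`, and `L*L + 5 ≤ L (min b L + 5)` as `L ≤ r ≤ b`.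
* `prog`, `L = occ Y = 0`: constant. `L ≥ 1`: `adm_prog` with `J = {t | idx t ∈ Y}`: `κ₀ = (L+1) w'^2`,
  `κ₀ + 4 ≤ L (2 w^2 + 5)`.
* `add`/`mul` with one side constant: change `a`, `a'`.
* `add`/`mul` with both sides non-constant: `Φ.ev = g₀' := (C a₁ g₁ + C a₁') ∘ (C a₂ g₂ + C a₂')`,
  `κ₀ = κ₁ + κ₂ + 4`, `θ = θ₁, θ₂, a₁, a₁', a₂, a₂'`, factor `b₁ b₂`:
  `C (b₁ b₂) * (..)` has its coefficients in `adjoin` (use `cf`, `mem_cf`, `Algebra.adjoin_mono`);
  `a = 1`, `a' = 0`; and `ℓ₁ (μ ℓ₁ + 5) + ℓ₂ (μ ℓ₂ + 5) ≤ ℓ (μ ℓ + 5)` (`μ ℓ = max (min b ℓ) (2 w^2)`).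
Finally `P(Φ)` gives `Adm K (κ₀ + 2)` (`θ, a, a'`), padded with zeros to the bound; for `ℓ = 0` the bound is `0`
and `C c` needs one element: this is why the final bound has `+ 1`. -/

set_option autoImplicit false

namespace Pool.Agent.KAL

open MvPolynomial

def AdmF_S {K B : Type*} [Field K] [CommRing B] [Algebra K B] {ι : Type*} (S : Subalgebra K B)
    (g : MvPolynomial ι B) : Prop :=
  ∃ b : B, b ≠ 0 ∧ b ∈ S ∧ C b * g ∈ cf ι S

theorem AdmF_cf_C {K B : Type*} [Field K] [CommRing B] [Algebra K B] {ι : Type*}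
    (S : Subalgebra K B) (c : B) (hc : c ∈ S) : (C c : MvPolynomial ι B) ∈ cf ι S :=
  ⟨C ⟨c, hc⟩, by rw [MvPolynomial.map_C]; rfl⟩

theorem AdmF_cf_mono {K B : Type*} [Field K] [CommRing B] [Algebra K B] {ι : Type*}
    {S S' : Subalgebra K B} (h : S ≤ S') {g : MvPolynomial ι B} (hg : g ∈ cf ι S) : g ∈ cf ι S' := by
  rw [mem_cf] at hg ⊢
  exact fun μ => h (hg μ)

section

variable {K B : Type*} [Field K] [CommRing B] [IsDomain B] [Algebra K B] {ι : Type*}

theorem AdmF_S_C (S : Subalgebra K B) (c : B) (hc : c ∈ S) :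
    AdmF_S S (C c : MvPolynomial ι B) :=
  ⟨1, one_ne_zero, S.one_mem, by rw [C_1, one_mul]; exact AdmF_cf_C S c hc⟩

theorem AdmF_S_add (S : Subalgebra K B) {g h : MvPolynomial ι B} (hg : AdmF_S S g)
    (hh : AdmF_S S h) : AdmF_S S (g + h) := by
  obtain ⟨b, hb0, hbS, hb⟩ := hg
  obtain ⟨b', hb0', hbS', hb'⟩ := hh
  refine ⟨b * b', mul_ne_zero hb0 hb0', S.mul_mem hbS hbS', ?_⟩
  have h1 : C (b * b') * (g + h) = C b' * (C b * g) + C b * (C b' * h) := by
    rw [C_mul]; ring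
  rw [h1]
  exact add_mem (mul_mem (AdmF_cf_C S _ hbS') hb) (mul_mem (AdmF_cf_C S _ hbS) hb')

theorem AdmF_S_mul (S : Subalgebra K B) {g h : MvPolynomial ι B} (hg : AdmF_S S g)
    (hh : AdmF_S S h) : AdmF_S S (g * h) := by
  obtain ⟨b, hb0, hbS, hb⟩ := hg
  obtain ⟨b', hb0', hbS', hb'⟩ := hh
  refine ⟨b * b', mul_ne_zero hb0 hb0', S.mul_mem hbS hbS', ?_⟩
  have h1 : C (b * b') * (g * h) = (C b * g) * (C b' * h) := by
    rw [C_mul]; ring
  rw [h1]
  exact mul_mem hb hb'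

theorem AdmF_S_mono {S S' : Subalgebra K B} (h : S ≤ S') {g : MvPolynomial ι B}
    (hg : AdmF_S S g) : AdmF_S S' g := by
  obtain ⟨b, hb0, hbS, hb⟩ := hg
  exact ⟨b, hb0, h hbS, AdmF_cf_mono h hb⟩

variable (K) in
def AdmF_T (κ : ℕ) (g : MvPolynomial ι B) : Prop :=
  ∃ T : Finset B, T.card ≤ κ ∧ AdmF_S (Algebra.adjoin K (T : Set B)) g

theorem AdmF_of {κ : ℕ} {g : MvPolynomial ι B} (h : Adm K κ g) : AdmF_T K κ g := by
  classical
  obtain ⟨θ, b, hb0, hb, hg⟩ := h
  refine ⟨Finset.univ.image θ, Finset.card_image_le.trans (by simp), b, hb0, ?_, ?_⟩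
  · rw [Finset.coe_image, Finset.coe_univ, Set.image_univ]
    exact hb
  · rw [Finset.coe_image, Finset.coe_univ, Set.image_univ, mem_cf]
    exact hg

theorem AdmF_to {κ : ℕ} {g : MvPolynomial ι B} (h : AdmF_T K κ g) : Adm K κ g := by
  obtain ⟨T, hT, h⟩ := h
  let θ : Fin κ → B := fun i => if h : i.1 < T.card then (T.equivFin.symm ⟨i.1, h⟩).1 else 0
  have h1 : (T : Set B) ⊆ Set.range θ := by
    intro t ht
    have ht' : t ∈ T := ht
    refine ⟨Fin.castLE hT (T.equivFin ⟨t, ht'⟩), ?_⟩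
    have h2 : (Fin.castLE hT (T.equivFin ⟨t, ht'⟩)).1 < T.card := (T.equivFin ⟨t, ht'⟩).2
    show (if h : (Fin.castLE hT (T.equivFin ⟨t, ht'⟩)).1 < T.card then
      (T.equivFin.symm ⟨(Fin.castLE hT (T.equivFin ⟨t, ht'⟩)).1, h⟩).1 else 0) = t
    rw [dif_pos h2]
    have h3 : (⟨(Fin.castLE hT (T.equivFin ⟨t, ht'⟩)).1, h2⟩ : Fin T.card) = T.equivFin ⟨t, ht'⟩ :=
      Fin.ext rfl
    rw [h3, Equiv.symm_apply_apply]
  obtain ⟨b, hb0, hb, hg⟩ := AdmF_S_mono (Algebra.adjoin_mono h1) h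
  exact ⟨θ, b, hb0, hb, (mem_cf _ _).1 hg⟩

theorem AdmF_T_mono {κ κ' : ℕ} (hκ : κ ≤ κ') {g : MvPolynomial ι B} (h : AdmF_T K κ g) :
    AdmF_T K κ' g := by
  obtain ⟨T, hT, h⟩ := h
  exact ⟨T, hT.trans hκ, h⟩

theorem AdmF_T_C (c : B) : AdmF_T K 1 (C c : MvPolynomial ι B) :=
  ⟨{c}, by simp, AdmF_S_C _ c (Algebra.subset_adjoin (by simp))⟩

theorem AdmF_T_add {κ κ' : ℕ} {g h : MvPolynomial ι B} (hg : AdmF_T K κ g)
    (hh : AdmF_T K κ' h) : AdmF_T K (κ + κ') (g + h) := by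
  classical
  obtain ⟨T, hT, hg⟩ := hg
  obtain ⟨T', hT', hh⟩ := hh
  refine ⟨T ∪ T', (Finset.card_union_le _ _).trans (add_le_add hT hT'), ?_⟩
  refine AdmF_S_add _ (AdmF_S_mono (Algebra.adjoin_mono ?_) hg) (AdmF_S_mono (Algebra.adjoin_mono ?_) hh)
  · exact_mod_cast Finset.subset_union_left
  · exact_mod_cast Finset.subset_union_right

theorem AdmF_T_mul {κ κ' : ℕ} {g h : MvPolynomial ι B} (hg : AdmF_T K κ g)
    (hh : AdmF_T K κ' h) : AdmF_T K (κ + κ') (g * h) := by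
  classical
  obtain ⟨T, hT, hg⟩ := hg
  obtain ⟨T', hT', hh⟩ := hh
  refine ⟨T ∪ T', (Finset.card_union_le _ _).trans (add_le_add hT hT'), ?_⟩
  refine AdmF_S_mul _ (AdmF_S_mono (Algebra.adjoin_mono ?_) hg) (AdmF_S_mono (Algebra.adjoin_mono ?_) hh)
  · exact_mod_cast Finset.subset_union_left
  · exact_mod_cast Finset.subset_union_right

theorem AdmF_T_lin {κ : ℕ} {g : MvPolynomial ι B} (hg : AdmF_T K κ g) (a a' : B) :
    AdmF_T K (κ + 2) (C a * g + C a') := by
  have h1 := AdmF_T_add (AdmF_T_mul (AdmF_T_C (K := K) (ι := ι) a) hg) (AdmF_T_C (K := K) (ι := ι) a')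
  exact AdmF_T_mono (by omega) h1

end

private theorem AdmF_entry {R : Type*} [CommRing R] {N r : ℕ} (P : Matrix (Fin N) (Fin r) R) (D : Fin r → R)
    (Q : Matrix (Fin r) (Fin N) R) (i j : Fin N) :
    (P * Matrix.diagonal D * Q) i j = ∑ a, P i a * D a * Q a j := by
  rw [Matrix.mul_apply]
  refine Finset.sum_congr rfl fun a _ => ?_
  rw [Matrix.mul_diagonal]

private theorem AdmF_split {K B : Type*} [Field K] [CommRing B] [Algebra K B]
    {n N r L : ℕ} (Y : Finset (Fin n)) (v : Fin n → B)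
    (A : Matrix (Fin N) (Fin N) K) (U : Matrix (Fin N) (Fin r) K)
    (W : Matrix (Fin r) (Fin N) K) (idx : Fin r → Fin n) (p : Fin r → Polynomial K)
    (e : Fin L ≃ {a // a ∈ Finset.univ.filter fun a => idx a ∈ Y}) :
    ∃ (M : Matrix (Fin N) (Fin N) B) (q : Fin L → MvPolynomial {i // i ∈ Y} K),
      (A.map (algebraMap K (MvPolynomial {i // i ∈ Y} B)) + U.map (algebraMap K (MvPolynomial {i // i ∈ Y} B)) *
        Matrix.diagonal (fun a => Polynomial.aeval (pv Y v (idx a)) (p a)) *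
        W.map (algebraMap K (MvPolynomial {i // i ∈ Y} B))) =
      M.map (C (σ := {i // i ∈ Y})) +
        (U.submatrix id fun k => (e k).1).map (algebraMap K (MvPolynomial {i // i ∈ Y} B)) *
        Matrix.diagonal (fun a => MvPolynomial.map (algebraMap K B) (q a)) *
        (W.submatrix (fun k => (e k).1) id).map (algebraMap K (MvPolynomial {i // i ∈ Y} B)) := by
  have he : ∀ k, idx (e k).1 ∈ Y := fun k => (Finset.mem_filter.1 (e k).2).2
  refine ⟨Matrix.of fun i j => algebraMap K B (A i j) +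
    ∑ a ∈ Finset.univ.filter (fun a => ¬ idx a ∈ Y), algebraMap K B (U i a) *
      Polynomial.aeval (v (idx a)) (p a) * algebraMap K B (W a j),
    fun k => Polynomial.aeval (X ⟨idx (e k).1, he k⟩) (p (e k).1), ?_⟩
  have halg : ∀ c : K, algebraMap K (MvPolynomial {i // i ∈ Y} B) c = C (algebraMap K B c) := fun c => rfl
  ext1 i j
  rw [Matrix.add_apply, Matrix.add_apply, AdmF_entry, AdmF_entry]
  simp only [Matrix.map_apply, Matrix.of_apply, Matrix.submatrix_apply, id_eq]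
  rw [← Finset.sum_filter_add_sum_filter_not (s := Finset.univ) (p := fun a => idx a ∈ Y)
    (f := fun x => algebraMap K (MvPolynomial {i // i ∈ Y} B) (U i x) *
      Polynomial.aeval (pv Y v (idx x)) (p x) * algebraMap K (MvPolynomial {i // i ∈ Y} B) (W x j))]
  rw [C_add, map_sum, ← halg]
  have h1 : ∑ a ∈ Finset.univ.filter (fun a => ¬ idx a ∈ Y),
      algebraMap K (MvPolynomial {i // i ∈ Y} B) (U i a) *
        Polynomial.aeval (pv Y v (idx a)) (p a) * algebraMap K (MvPolynomial {i // i ∈ Y} B) (W a j) =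
      ∑ a ∈ Finset.univ.filter (fun a => ¬ idx a ∈ Y), C (σ := {i // i ∈ Y}) (algebraMap K B (U i a) *
      Polynomial.aeval (v (idx a)) (p a) * algebraMap K B (W a j)) := by
    refine Finset.sum_congr rfl fun a ha => ?_
    have ha' : ¬ idx a ∈ Y := (Finset.mem_filter.1 ha).2
    rw [C_mul, C_mul, halg, halg]
    congr 2
    rw [pv, dif_neg ha']
    exact Polynomial.aeval_algebraMap_apply (MvPolynomial {i // i ∈ Y} B) (v (idx a)) (p a)
  have h2 : ∑ a ∈ Finset.univ.filter (fun a => idx a ∈ Y),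
      algebraMap K (MvPolynomial {i // i ∈ Y} B) (U i a) *
        Polynomial.aeval (pv Y v (idx a)) (p a) * algebraMap K (MvPolynomial {i // i ∈ Y} B) (W a j) =
      ∑ k : Fin L, algebraMap K (MvPolynomial {i // i ∈ Y} B) (U i (e k).1) *
        MvPolynomial.map (algebraMap K B) (Polynomial.aeval (X ⟨idx (e k).1, he k⟩) (p (e k).1)) *
        algebraMap K (MvPolynomial {i // i ∈ Y} B) (W (e k).1 j) := by
    rw [← Finset.sum_coe_sort, ← e.sum_comp]
    refine Finset.sum_congr rfl fun k _ => ?_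
    congr 2
    rw [pv, dif_pos (he k)]
    have h3 := Polynomial.aeval_algHom_apply
      (MvPolynomial.mapAlgHom (σ := {i // i ∈ Y}) (Algebra.ofId K B)) (X ⟨idx (e k).1, he k⟩) (p (e k).1)
    rw [MvPolynomial.mapAlgHom_apply, MvPolynomial.mapAlgHom_apply] at h3
    have h4 : ((Algebra.ofId K B : K →ₐ[K] B) : K →+* B) = algebraMap K B := rfl
    rw [h4, map_X] at h3
    exact h3
  rw [h1, h2]
  ring

private theorem AdmF_ind {K B : Type*} [Field K] [CharZero K] [CommRing B] [IsDomain B] [Algebra K B]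
    {n : ℕ} (Y : Finset (Fin n)) (v : Fin n → B) (Φ : Circ K n) (b w : ℕ) (hΦ : Φ.Wd b w) :
    (Φ.occ Y = 0 → ∃ c : B, Φ.ev (pv Y v) = C c) ∧
    (0 < Φ.occ Y → ∃ (κ : ℕ) (a a' : B) (g : MvPolynomial {i // i ∈ Y} B),
      κ + 4 ≤ Φ.occ Y * (max (min b (Φ.occ Y)) (2 * w ^ 2) + 5) ∧ AdmF_T K κ g ∧ Φ.ev (pv Y v) = C a * g + C a') := by
  induction Φ with
  | const c =>
    exact ⟨fun _ => ⟨algebraMap K B c, rfl⟩, fun h => absurd h (lt_irrefl 0)⟩
  | @det N r A U W idx p =>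
    let L : ℕ := (Finset.univ.filter fun a => idx a ∈ Y).card
    have hL : (Circ.det A U W idx p).occ Y = L := rfl
    let e : Fin L ≃ {a // a ∈ Finset.univ.filter fun a => idx a ∈ Y} :=
      (Finset.equivFin (Finset.univ.filter fun a => idx a ∈ Y)).symm
    obtain ⟨M, q, hM⟩ := AdmF_split Y v A U W idx p e
    have hev : (Circ.det A U W idx p).ev (pv Y v) = (M.map (C (σ := {i // i ∈ Y})) +
        (U.submatrix id fun k => (e k).1).map (algebraMap K (MvPolynomial {i // i ∈ Y} B)) *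
        Matrix.diagonal (fun a => MvPolynomial.map (algebraMap K B) (q a)) *
        (W.submatrix (fun k => (e k).1) id).map (algebraMap K (MvPolynomial {i // i ∈ Y} B))).det :=
      congrArg Matrix.det hM
    rw [hL, hev]
    constructor
    · intro h0
      refine ⟨M.det, ?_⟩
      haveI : IsEmpty (Fin L) := by rw [h0]; infer_instance
      have h1 : (U.submatrix id fun k => (e k).1).map (algebraMap K (MvPolynomial {i // i ∈ Y} B)) *
        Matrix.diagonal (fun a => MvPolynomial.map (algebraMap K B) (q a)) *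
        (W.submatrix (fun k => (e k).1) id).map (algebraMap K (MvPolynomial {i // i ∈ Y} B)) = 0 := by
        ext1 i j
        rw [Matrix.mul_apply, Finset.sum_of_isEmpty]
        rfl
      rw [h1, add_zero, RingHom.map_det, RingHom.mapMatrix_apply]
    · intro h0
      refine ⟨L * L + 1, 1, 0, _, ?_, AdmF_of (adm_det M (U.submatrix id fun k => (e k).1)
        (W.submatrix (fun k => (e k).1) id) q), ?_⟩
      · have h1 : L ≤ r := by
          refine (Finset.card_filter_le _ _).trans ?_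
          simp
        have h2 : r ≤ b := hΦ
        have h3 : min b L = L := min_eq_right (h1.trans h2)
        have h4 : L ≤ max (min b L) (2 * w ^ 2) := by
          conv_lhs => rw [← h3]
          exact le_max_left _ _
        nlinarith
      · rw [C_1, one_mul, C_0, add_zero]
  | @prog w' L u v' M idx =>
    have hocc : (Circ.prog u v' M idx).occ Y = (Finset.univ.filter fun a => idx a ∈ Y).card := rfl
    constructor
    · intro h0
      refine ⟨(Circ.prog u v' M idx).ev v, ?_⟩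
      have h1 : (Circ.prog u v' M idx).ev (pv Y v) =
          (Circ.prog u v' M idx).ev (fun i => (C (v i) : MvPolynomial {i // i ∈ Y} B)) := by
        refine ev_congr _ _ _ fun i hi => ?_
        have hiY : i ∉ Y := by
          intro hiY
          rw [occ_eq_sum, Finset.sum_eq_zero_iff] at h0
          exact hi (h0 i hiY)
        rw [pv, dif_neg hiY]
      have h2 := ev_hom (IsScalarTower.toAlgHom K B (MvPolynomial {i // i ∈ Y} B)) v
        (Circ.prog u v' M idx)
      rw [h1]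
      exact h2.symm
    · intro h0
      have hT : ∀ t ∈ Finset.univ.filter (fun a => idx a ∈ Y),
          ∃ Q : Matrix (Fin w') (Fin w') (MvPolynomial {i // i ∈ Y} K),
          (M t).map (Polynomial.aeval (pv Y v (idx t))) = Q.map (MvPolynomial.map (algebraMap K B)) := by
        intro t ht
        have ht' : idx t ∈ Y := (Finset.mem_filter.1 ht).2
        refine ⟨(M t).map (Polynomial.aeval (X ⟨idx t, ht'⟩)), ?_⟩
        ext1 i j
        rw [Matrix.map_apply, Matrix.map_apply, Matrix.map_apply, pv, dif_pos ht']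
        have h3 := Polynomial.aeval_algHom_apply
          (MvPolynomial.mapAlgHom (σ := {i // i ∈ Y}) (Algebra.ofId K B)) (X ⟨idx t, ht'⟩) (M t i j)
        rw [MvPolynomial.mapAlgHom_apply, MvPolynomial.mapAlgHom_apply] at h3
        have h4 : ((Algebra.ofId K B : K →ₐ[K] B) : K →+* B) = algebraMap K B := rfl
        rw [h4, map_X] at h3
        exact h3
      have hT' : ∀ t ∉ Finset.univ.filter (fun a => idx a ∈ Y),
          ∃ Q : Matrix (Fin w') (Fin w') B,
          (M t).map (Polynomial.aeval (pv Y v (idx t))) = Q.map (C (σ := {i // i ∈ Y})) := by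
        intro t ht
        have ht' : idx t ∉ Y := fun h => ht (Finset.mem_filter.2 ⟨Finset.mem_univ _, h⟩)
        refine ⟨(M t).map (Polynomial.aeval (v (idx t))), ?_⟩
        ext1 i j
        rw [Matrix.map_apply, Matrix.map_apply, Matrix.map_apply, pv, dif_neg ht']
        exact Polynomial.aeval_algebraMap_apply (MvPolynomial {i // i ∈ Y} B) (v (idx t)) (M t i j)
      refine ⟨_, 1, 0, _, ?_, AdmF_of (adm_prog u v'
        (fun t => (M t).map (Polynomial.aeval (pv Y v (idx t))))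
        (Finset.univ.filter fun a => idx a ∈ Y) hT hT'), ?_⟩
      · rw [hocc] at h0 ⊢
        have h1 : w' ^ 2 ≤ w ^ 2 := Nat.pow_le_pow_left hΦ 2
        have h2 : 2 * w ^ 2 ≤ max (min b (Finset.univ.filter fun a => idx a ∈ Y).card) (2 * w ^ 2) :=
          le_max_right _ _
        generalize (Finset.univ.filter fun a => idx a ∈ Y).card = l at h0 h2 ⊢
        generalize max (min b l) (2 * w ^ 2) = m at h2 ⊢
        generalize w' ^ 2 = a at h1 ⊢
        generalize w ^ 2 = c at h1 h2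
        have h3 : (l + 1) * a ≤ (l + l) * c := Nat.mul_le_mul (by omega) h1
        have h4 : l * (2 * c) ≤ l * m := Nat.mul_le_mul le_rfl h2
        have h5 : l * (m + 5) = l * m + 5 * l := by ring
        have h6 : (l + l) * c = l * (2 * c) := by ring
        omega
      · rw [C_1, one_mul, C_0, add_zero]
        rfl
  | add f g hf hg =>
    obtain ⟨hf0, hf1⟩ := hf hΦ.1
    obtain ⟨hg0, hg1⟩ := hg hΦ.2
    have hocc : (Circ.add f g).occ Y = f.occ Y + g.occ Y := rfl
    have hev : (Circ.add f g).ev (pv Y v) = f.ev (pv Y v) + g.ev (pv Y v) := rfl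
    rw [hocc, hev]
    rcases Nat.eq_zero_or_pos (f.occ Y) with h1 | h1 <;> rcases Nat.eq_zero_or_pos (g.occ Y) with h2 | h2
    · obtain ⟨c, hc⟩ := hf0 h1
      obtain ⟨c', hc'⟩ := hg0 h2
      refine ⟨fun _ => ⟨c + c', by rw [hc, hc', C_add]⟩, fun h => ?_⟩
      omega
    · obtain ⟨c, hc⟩ := hf0 h1
      obtain ⟨κ, a, a', G, hκ, hG, he⟩ := hg1 h2
      refine ⟨fun h => by omega, fun _ => ⟨κ, a, a' + c, G, ?_, hG, ?_⟩⟩
      · rw [h1, zero_add]; exact hκ
      · rw [hc, he, C_add]; ring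
    · obtain ⟨c, hc⟩ := hg0 h2
      obtain ⟨κ, a, a', G, hκ, hG, he⟩ := hf1 h1
      refine ⟨fun h => by omega, fun _ => ⟨κ, a, a' + c, G, ?_, hG, ?_⟩⟩
      · rw [h2, add_zero]; exact hκ
      · rw [hc, he, C_add]; ring
    · obtain ⟨κ, a, a', G, hκ, hG, he⟩ := hf1 h1
      obtain ⟨κ', c, c', G', hκ', hG', he'⟩ := hg1 h2
      refine ⟨fun h => by omega, fun _ => ⟨(κ + 2) + (κ' + 2), 1, 0, f.ev (pv Y v) + g.ev (pv Y v), ?_, ?_, ?_⟩⟩
      · have h3 : max (min b (f.occ Y)) (2 * w ^ 2) ≤ max (min b (f.occ Y + g.occ Y)) (2 * w ^ 2) :=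
          max_le_max (min_le_min le_rfl (Nat.le_add_right _ _)) le_rfl
        have h4 : max (min b (g.occ Y)) (2 * w ^ 2) ≤ max (min b (f.occ Y + g.occ Y)) (2 * w ^ 2) :=
          max_le_max (min_le_min le_rfl (Nat.le_add_left _ _)) le_rfl
        have h5 : f.occ Y * (max (min b (f.occ Y)) (2 * w ^ 2) + 5) ≤
            f.occ Y * (max (min b (f.occ Y + g.occ Y)) (2 * w ^ 2) + 5) :=
          Nat.mul_le_mul le_rfl (by omega)
        have h6 : g.occ Y * (max (min b (g.occ Y)) (2 * w ^ 2) + 5) ≤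
            g.occ Y * (max (min b (f.occ Y + g.occ Y)) (2 * w ^ 2) + 5) :=
          Nat.mul_le_mul le_rfl (by omega)
        rw [add_mul]
        omega
      · rw [he, he']
        exact AdmF_T_add (AdmF_T_lin hG a a') (AdmF_T_lin hG' c c')
      · rw [C_1, one_mul, C_0, add_zero]
  | mul f g hf hg =>
    obtain ⟨hf0, hf1⟩ := hf hΦ.1
    obtain ⟨hg0, hg1⟩ := hg hΦ.2
    have hocc : (Circ.mul f g).occ Y = f.occ Y + g.occ Y := rfl
    have hev : (Circ.mul f g).ev (pv Y v) = f.ev (pv Y v) * g.ev (pv Y v) := rfl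
    rw [hocc, hev]
    rcases Nat.eq_zero_or_pos (f.occ Y) with h1 | h1 <;> rcases Nat.eq_zero_or_pos (g.occ Y) with h2 | h2
    · obtain ⟨c, hc⟩ := hf0 h1
      obtain ⟨c', hc'⟩ := hg0 h2
      refine ⟨fun _ => ⟨c * c', by rw [hc, hc', C_mul]⟩, fun h => ?_⟩
      omega
    · obtain ⟨c, hc⟩ := hf0 h1
      obtain ⟨κ, a, a', G, hκ, hG, he⟩ := hg1 h2
      refine ⟨fun h => by omega, fun _ => ⟨κ, c * a, c * a', G, ?_, hG, ?_⟩⟩
      · rw [h1, zero_add]; exact hκ
      · rw [hc, he, C_mul, C_mul]; ring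
    · obtain ⟨c, hc⟩ := hg0 h2
      obtain ⟨κ, a, a', G, hκ, hG, he⟩ := hf1 h1
      refine ⟨fun h => by omega, fun _ => ⟨κ, c * a, c * a', G, ?_, hG, ?_⟩⟩
      · rw [h2, add_zero]; exact hκ
      · rw [hc, he, C_mul, C_mul]; ring
    · obtain ⟨κ, a, a', G, hκ, hG, he⟩ := hf1 h1
      obtain ⟨κ', c, c', G', hκ', hG', he'⟩ := hg1 h2
      refine ⟨fun h => by omega, fun _ => ⟨(κ + 2) + (κ' + 2), 1, 0, f.ev (pv Y v) * g.ev (pv Y v), ?_, ?_, ?_⟩⟩
      · have h3 : max (min b (f.occ Y)) (2 * w ^ 2) ≤ max (min b (f.occ Y + g.occ Y)) (2 * w ^ 2) :=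
          max_le_max (min_le_min le_rfl (Nat.le_add_right _ _)) le_rfl
        have h4 : max (min b (g.occ Y)) (2 * w ^ 2) ≤ max (min b (f.occ Y + g.occ Y)) (2 * w ^ 2) :=
          max_le_max (min_le_min le_rfl (Nat.le_add_left _ _)) le_rfl
        have h5 : f.occ Y * (max (min b (f.occ Y)) (2 * w ^ 2) + 5) ≤
            f.occ Y * (max (min b (f.occ Y + g.occ Y)) (2 * w ^ 2) + 5) :=
          Nat.mul_le_mul le_rfl (by omega)
        have h6 : g.occ Y * (max (min b (g.occ Y)) (2 * w ^ 2) + 5) ≤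
            g.occ Y * (max (min b (f.occ Y + g.occ Y)) (2 * w ^ 2) + 5) :=
          Nat.mul_le_mul le_rfl (by omega)
        rw [add_mul]
        omega
      · rw [he, he']
        exact AdmF_T_mul (AdmF_T_lin hG a a') (AdmF_T_lin hG' c c')
      · rw [C_1, one_mul, C_0, add_zero]

theorem adm_circ {K B : Type*} [Field K] [CharZero K] [CommRing B] [IsDomain B] [Algebra K B]
    {n : ℕ} (Y : Finset (Fin n)) (v : Fin n → B) (Φ : Circ K n) (b w : ℕ) (hΦ : Φ.Wd b w) (κ : ℕ)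
    (hκ : kap b w (Φ.occ Y) ≤ κ) :
    Adm K κ (Φ.ev (pv Y v)) := by
  obtain ⟨h0, h1⟩ := AdmF_ind Y v Φ b w hΦ
  unfold kap at hκ
  refine AdmF_to ?_
  rcases Nat.eq_zero_or_pos (Φ.occ Y) with h2 | h2
  · obtain ⟨c, hc⟩ := h0 h2
    rw [hc]
    exact AdmF_T_mono (by omega) (AdmF_T_C c)
  · obtain ⟨κ', a, a', g, hκ', hg, he⟩ := h1 h2
    rw [he]
    exact AdmF_T_mono (by omega) (AdmF_T_lin hg a a')

end Pool.Agent.KAL
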