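import Mathlib
import Pool.Agent.KAL.Defs
import Pool.Agent.KAL.Deg

/-! # KAL-Slp.  Functoriality of `run`, the variables which occur. -/

set_option autoImplicit false

namespace Pool.Agent.KAL

open MvPolynomial

variable {K : Type*} [Field K] {n k : ℕ}

theorem append_hom {B B' : Type*} (φ : B → B') (x : Fin n → B) (y : Fin k → B) (i : Fin (n + k)) :
    φ (Fin.append x y i) = Fin.append (fun i => φ (x i)) (fun j => φ (y j)) i := by
  refine Fin.addCases (fun i => ?_) (fun i => ?_) i
  · rw [Fin.append_left, Fin.append_left]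
  · rw [Fin.append_right, Fin.append_right]

theorem vals_hom {B B' : Type*} [CommRing B] [Algebra K B] [CommRing B'] [Algebra K B'] (φ : B →ₐ[K] B')
    (x : Fin n → B) (Φ : Fin (k + 1) → Circ K (n + k)) (j : ℕ) (i : Fin k) :
    φ (vals Φ x j i) = vals Φ (fun i => φ (x i)) j i := by
  induction j generalizing i with
  | zero => exact map_zero φ
  | succ j ih =>
    simp only [vals]
    split_ifs
    · rw [ev_hom]
      congr 1
      funext l
      rw [append_hom φ]
      congr 1
      exact funext ih
    · exact ih i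

theorem run_hom {B B' : Type*} [CommRing B] [Algebra K B] [CommRing B'] [Algebra K B'] (φ : B →ₐ[K] B')
    (x : Fin n → B) (Φ : Fin (k + 1) → Circ K (n + k)) :
    φ (run Φ x) = run Φ (fun i => φ (x i)) := by
  unfold run
  rw [ev_hom]
  congr 1
  funext l
  rw [append_hom φ]
  congr 1
  exact funext fun i => vals_hom φ x Φ k i

theorem nx_eq_sum (Φ : Fin (k + 1) → Circ K (n + k)) (Y : Finset (Fin n)) :
    nx Φ Y = ∑ i ∈ Y, nx Φ {i} := by
  unfold nx
  rw [Finset.sum_comm]
  refine Finset.sum_congr rfl fun j _ => ?_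
  rw [occ_eq_sum, Finset.sum_map]
  refine Finset.sum_congr rfl fun i _ => ?_
  rw [Finset.map_singleton]

private theorem Slp_ev {B : Type*} [CommRing B] [Algebra K B] (x x' : Fin n → B) (y y' : Fin k → B)
    (Φ : Fin (k + 1) → Circ K (n + k)) (h : ∀ i, nx Φ {i} ≠ 0 → x i = x' i) (hy : y = y')
    (j : Fin (k + 1)) : (Φ j).ev (Fin.append x y) = (Φ j).ev (Fin.append x' y') := by
  subst hy
  refine ev_congr _ _ _ fun i => ?_
  refine Fin.addCases (fun i hi => ?_) (fun i _ => ?_) i
  · rw [Fin.append_left, Fin.append_left]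
    apply h
    intro h0
    unfold nx at h0
    rw [Finset.sum_eq_zero_iff] at h0
    apply hi
    have := h0 j (Finset.mem_univ j)
    rwa [Finset.map_singleton] at this
  · rw [Fin.append_right, Fin.append_right]

theorem run_congr {B : Type*} [CommRing B] [Algebra K B] (x x' : Fin n → B)
    (Φ : Fin (k + 1) → Circ K (n + k)) (h : ∀ i, nx Φ {i} ≠ 0 → x i = x' i) : run Φ x = run Φ x' := by
  have h1 : ∀ j, vals Φ x j = vals Φ x' j := by
    intro j
    induction j with
    | zero => rfl
    | succ j ih =>
      funext i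
      simp only [vals]
      rw [Slp_ev x x' _ _ Φ h ih, ih]
  unfold run
  exact Slp_ev x x' _ _ Φ h (h1 k) _

end Pool.Agent.KAL
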