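import Mathlib
import Pool.Agent.KAL.Slp
import Pool.Agent.KAL.AdmF

/-! # KAL-AdmS.  Circuits with reused gates: for `l = nx Φ Y` and `t ≥ ny Φ` the polynomial
`run Φ (pv Y v)` (variables of `Y` kept, the others replaced by elements of `B`) is admissible for
`kap b w (l + t) + k`.

PLAN. `Yp := Y.map (Fin.castAddEmb k) ∪ Finset.univ.map (Fin.natAddEmb n)` (the variables of `Y` and all
the `y_j`), `vp := Fin.append v 0`. `adm_circ Yp vp (Φ j)` gives a finset `T j` of at most
`kap b w ((Φ j).occ Yp)` elements such that `g_j := (Φ j).ev (pv Yp vp)` is in `AdmF_S (adjoin (T j))`.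
`T := ⋃ T j`, `S := adjoin T`. For `y : Fin k → MvPolynomial {i // i ∈ Y} B` and
`φ := aeval (fun i => Fin.append (pv Y v) y i) : MvPolynomial {i // i ∈ Yp} B →ₐ[B] MvPolynomial {i // i ∈ Y} B`
one has `φ (pv Yp vp i) = Fin.append (pv Y v) y i` for all `i`, so `(Φ j).ev (Fin.append (pv Y v) y) = φ g_j`
(`ev_hom` with `φ.restrictScalars K`).
Closure under composition: `g ∈ AdmF_S S` over `Yp`, all `φ (X i) ∈ AdmF_S S` ⟹ `φ g ∈ AdmF_S S` (`C b * g ∈ cf S`
is an `S`-combination of monomials, so `C b * φ g ∈ AdmF_S S` by `AdmF_S_add`, `AdmF_S_mul`, `AdmF_S_C`;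
cancel `b`). Induction over `j`: all `vals Φ (pv Y v) j i ∈ AdmF_S S`; finally `run`.
Number of elements: `∑ j, kap b w (occ_j) ≤ kap b w (l + t) + k` where `occ_j := (Φ j).occ Yp` and
`∑ occ_j = nx Φ Y + ny Φ ≤ l + t` (`occ_eq_sum`, disjoint union), `kap` is superadditive up to the `+ 1`. -/

set_option autoImplicit false

namespace Pool.Agent.KAL

open MvPolynomial

section

variable {K B : Type*} [Field K] [CommRing B] [IsDomain B] [Algebra K B] {ι ι' : Type*}

omit [IsDomain B] in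
private theorem AdmS_X [Nontrivial B] (S : Subalgebra K B) (i : ι) : AdmF_S S (X i : MvPolynomial ι B) := by
  refine ⟨1, one_ne_zero, S.one_mem, ?_⟩
  rw [C_1, one_mul]
  exact ⟨X i, by rw [map_X]⟩

private theorem AdmS_comp_aux (S : Subalgebra K B) (φ : MvPolynomial ι B →ₐ[B] MvPolynomial ι' B)
    (hφ : ∀ i, AdmF_S S (φ (X i))) (q : MvPolynomial ι S) :
    AdmF_S S (φ (MvPolynomial.map (algebraMap S B) q)) := by
  induction q using MvPolynomial.induction_on with
  | C a =>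
    rw [map_C]
    have h1 : φ (C ((algebraMap S B) a)) = C ((algebraMap S B) a) := φ.commutes _
    rw [h1]
    exact AdmF_S_C S _ a.2
  | add p q hp hq =>
    rw [map_add, map_add]
    exact AdmF_S_add S hp hq
  | mul_X p i hp =>
    rw [map_mul, map_mul, map_X]
    exact AdmF_S_mul S hp (hφ i)

private theorem AdmS_comp (S : Subalgebra K B) (φ : MvPolynomial ι B →ₐ[B] MvPolynomial ι' B)
    (hφ : ∀ i, AdmF_S S (φ (X i))) {g : MvPolynomial ι B} (hg : AdmF_S S g) : AdmF_S S (φ g) := by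
  obtain ⟨b, hb0, hbS, q, hq⟩ := hg
  obtain ⟨b', hb0', hbS', h⟩ := AdmS_comp_aux S φ hφ q
  refine ⟨b' * b, mul_ne_zero hb0' hb0, S.mul_mem hbS' hbS, ?_⟩
  have h1 : MvPolynomial.map (algebraMap S B) q = C b * g := hq
  have h2 : φ (C b) = C b := φ.commutes _
  rw [h1, map_mul, h2] at h
  rw [C_mul, mul_assoc]
  exact h

end

/-- the variables of `Y` and all the `y_j` -/
private def AdmS_Yp {n : ℕ} (k : ℕ) (Y : Finset (Fin n)) : Finset (Fin (n + k)) :=
  Y.map (Fin.castAddEmb k) ∪ Finset.univ.map (Fin.natAddEmb n)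

private theorem AdmS_mem_left {n k : ℕ} {Y : Finset (Fin n)} (i : Fin n) :
    Fin.castAdd k i ∈ AdmS_Yp k Y ↔ i ∈ Y := by
  unfold AdmS_Yp
  rw [Finset.mem_union, Finset.mem_map, Finset.mem_map]
  constructor
  · rintro (⟨j, hj, h⟩ | ⟨j, _, h⟩)
    · have h' : Fin.castAdd k j = Fin.castAdd k i := h
      rw [Fin.castAdd_inj] at h'
      rwa [← h']
    · have h1 := congrArg Fin.val h
      have h2 : n + (j : ℕ) = (i : ℕ) := h1
      have h3 := i.2
      omega
  · intro h
    exact Or.inl ⟨i, h, rfl⟩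

private theorem AdmS_mem_right {n k : ℕ} {Y : Finset (Fin n)} (i : Fin k) :
    Fin.natAdd n i ∈ AdmS_Yp k Y := by
  unfold AdmS_Yp
  rw [Finset.mem_union, Finset.mem_map, Finset.mem_map]
  exact Or.inr ⟨i, Finset.mem_univ _, rfl⟩

private theorem AdmS_occ {K : Type*} [Field K] {n k : ℕ} (Y : Finset (Fin n)) (Φ : Circ K (n + k)) :
    Φ.occ (AdmS_Yp k Y) = Φ.occ (Y.map (Fin.castAddEmb k)) + Φ.occ (Finset.univ.map (Fin.natAddEmb n)) := by
  unfold AdmS_Yp
  rw [occ_eq_sum, Finset.sum_union, ← occ_eq_sum, ← occ_eq_sum]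
  rw [Finset.disjoint_left]
  rintro x hx hx'
  rw [Finset.mem_map] at hx hx'
  obtain ⟨i, _, rfl⟩ := hx
  obtain ⟨j, _, h⟩ := hx'
  have h1 := congrArg Fin.val h
  have h2 : n + (j : ℕ) = (i : ℕ) := h1
  have h3 := i.2
  omega

section

variable {K B : Type*} [Field K] [CommRing B] [IsDomain B] [Algebra K B] {n k : ℕ}

private theorem AdmS_ev (S : Subalgebra K B) (Y : Finset (Fin n)) (v : Fin n → B) (Φ : Circ K (n + k))
    (hΦ : AdmF_S S (Φ.ev (pv (AdmS_Yp k Y) (Fin.append v (0 : Fin k → B)))))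
    (y : Fin k → MvPolynomial {i // i ∈ Y} B) (hy : ∀ i, AdmF_S S (y i)) :
    AdmF_S S (Φ.ev (Fin.append (pv Y v) y)) := by
  let φ : MvPolynomial {i // i ∈ AdmS_Yp k Y} B →ₐ[B] MvPolynomial {i // i ∈ Y} B :=
    aeval (fun i => Fin.append (pv Y v) y i.1)
  have hX : ∀ i, φ (X i) = Fin.append (pv Y v) y i.1 := fun i => aeval_X _ i
  have h1 : ∀ i, φ (pv (AdmS_Yp k Y) (Fin.append v (0 : Fin k → B)) i) = Fin.append (pv Y v) y i := by
    intro i
    by_cases hi : i ∈ AdmS_Yp k Y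
    · rw [pv, dif_pos hi, hX]
    · rw [pv, dif_neg hi]
      have h2 : ∀ c : B, φ (C c) = C c := fun c => φ.commutes c
      rw [h2]
      revert hi
      refine Fin.addCases (fun i => ?_) (fun i => ?_) i
      · intro hi
        rw [AdmS_mem_left] at hi
        rw [Fin.append_left, Fin.append_left, pv, dif_neg hi]
      · intro hi
        exact absurd (AdmS_mem_right i) hi
  have h3 : Φ.ev (Fin.append (pv Y v) y) =
      φ (Φ.ev (pv (AdmS_Yp k Y) (Fin.append v (0 : Fin k → B)))) := by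
    have h4 := ev_hom (φ.restrictScalars K) (pv (AdmS_Yp k Y) (Fin.append v (0 : Fin k → B))) Φ
    have h5 : (fun i => (φ.restrictScalars K) (pv (AdmS_Yp k Y) (Fin.append v (0 : Fin k → B)) i)) =
        Fin.append (pv Y v) y := funext h1
    rw [h5] at h4
    exact h4.symm
  rw [h3]
  refine AdmS_comp S φ (fun i => ?_) hΦ
  rw [hX]
  obtain ⟨i, hi⟩ := i
  show AdmF_S S (Fin.append (pv Y v) y i)
  revert hi
  refine Fin.addCases (fun i => ?_) (fun i => ?_) i
  · intro hi
    rw [AdmS_mem_left] at hi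
    rw [Fin.append_left, pv, dif_pos hi]
    exact AdmS_X S _
  · intro _
    rw [Fin.append_right]
    exact hy i

end

theorem adm_slp {K B : Type*} [Field K] [CharZero K] [CommRing B] [IsDomain B] [Algebra K B]
    {n k : ℕ} (Y : Finset (Fin n)) (v : Fin n → B) (Φ : Fin (k + 1) → Circ K (n + k)) (b w t : ℕ)
    (hΦ : ∀ j, (Φ j).Wd b w) (ht : ny Φ ≤ t) (κ : ℕ) (hκ : kap b w (nx Φ Y + t) + k ≤ κ) :
    Adm K κ (run Φ (pv Y v)) := by
  classical
  have h0 : ∀ j, AdmF_T K (kap b w ((Φ j).occ (AdmS_Yp k Y)))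
      ((Φ j).ev (pv (AdmS_Yp k Y) (Fin.append v (0 : Fin k → B)))) :=
    fun j => AdmF_of (adm_circ (AdmS_Yp k Y) (Fin.append v 0) (Φ j) b w (hΦ j) _ le_rfl)
  choose T hT hS using h0
  refine AdmF_to ⟨Finset.univ.biUnion T, ?_, ?_⟩
  · refine (Finset.card_biUnion_le).trans ((Finset.sum_le_sum fun j _ => hT j).trans (le_trans ?_ hκ))
    have hsum : ∑ j, (Φ j).occ (AdmS_Yp k Y) = nx Φ Y + ny Φ := by
      rw [Finset.sum_congr rfl fun j _ => AdmS_occ Y (Φ j), Finset.sum_add_distrib]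
      rfl
    have hle : ∀ j, (Φ j).occ (AdmS_Yp k Y) ≤ nx Φ Y + t := by
      intro j
      have h1 := Finset.single_le_sum (f := fun j => (Φ j).occ (AdmS_Yp k Y))
        (fun _ _ => Nat.zero_le _) (Finset.mem_univ j)
      have h2 : (Φ j).occ (AdmS_Yp k Y) ≤ ∑ j, (Φ j).occ (AdmS_Yp k Y) := h1
      omega
    unfold kap
    generalize hl : nx Φ Y + t = l at hle ⊢
    have h3 : ∀ j ∈ Finset.univ, (Φ j).occ (AdmS_Yp k Y) *
        (max (min b ((Φ j).occ (AdmS_Yp k Y))) (2 * w ^ 2) + 5) + 1 ≤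
        (Φ j).occ (AdmS_Yp k Y) * (max (min b l) (2 * w ^ 2) + 5) + 1 := by
      intro j _
      have h4 : max (min b ((Φ j).occ (AdmS_Yp k Y))) (2 * w ^ 2) ≤ max (min b l) (2 * w ^ 2) :=
        max_le_max (min_le_min le_rfl (hle j)) le_rfl
      exact Nat.add_le_add_right (Nat.mul_le_mul le_rfl (Nat.add_le_add_right h4 5)) 1
    refine (Finset.sum_le_sum h3).trans ?_
    rw [Finset.sum_add_distrib, ← Finset.sum_mul, hsum]
    have h5 : (nx Φ Y + ny Φ) * (max (min b l) (2 * w ^ 2) + 5) ≤ l * (max (min b l) (2 * w ^ 2) + 5) :=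
      Nat.mul_le_mul (by omega) le_rfl
    have h6 : ∑ _j : Fin (k + 1), 1 = k + 1 := by simp
    omega
  · have hS' : ∀ j, AdmF_S (Algebra.adjoin K ((Finset.univ.biUnion T : Finset B) : Set B))
        ((Φ j).ev (pv (AdmS_Yp k Y) (Fin.append v (0 : Fin k → B)))) := by
      intro j
      refine AdmF_S_mono (Algebra.adjoin_mono ?_) (hS j)
      exact_mod_cast Finset.subset_biUnion_of_mem T (Finset.mem_univ j)
    generalize Algebra.adjoin K ((Finset.univ.biUnion T : Finset B) : Set B) = S at hS'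
    have hv : ∀ j i, AdmF_S S (vals Φ (pv Y v) j i) := by
      intro j
      induction j with
      | zero =>
        intro i
        have h1 : vals Φ (pv Y v) 0 i = (C 0 : MvPolynomial {i // i ∈ Y} B) := by
          rw [C_0]
          rfl
        rw [h1]
        exact AdmF_S_C S 0 S.zero_mem
      | succ j ih =>
        intro i
        simp only [vals]
        split_ifs
        · exact AdmS_ev S Y v _ (hS' _) _ ih
        · exact ih i
    exact AdmS_ev S Y v _ (hS' _) _ (hv k)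

end Pool.Agent.KAL
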