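import Mathlib
import Pool.Agent.KAL.Defs

/-! # KAL-Alg.  Algebraic coefficients.

PLAN. `dkill`: `D` kills all elements of `B` which are algebraic over a subalgebra `S` killed by `D`: take a
nonzero polynomial `P` over `S` of least degree with `aeval b P = 0`; `0 = D (aeval b P) = aeval b P' * D b`
(`D` kills the coefficients), and `aeval b P' ≠ 0` (`P'` is nonzero because `B ⊇ K` has characteristic 0 and
`P` is not constant, and it has smaller degree).
`alg_of_adm`: `b * c ∈ S`, `b ∈ S`, `b ≠ 0`: `c` is a root of `b T - b c`. -/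

set_option autoImplicit false

namespace Pool.Agent.KAL

open MvPolynomial

private theorem Alg_aux {B : Type*} [CommRing B] [IsDomain B] {K : Type*} [Field K] [CharZero K] [Algebra K B]
    (S : Subalgebra K B) (D' : Derivation S B B) (b : B) :
    ∀ (n : ℕ) (P : Polynomial S), P.natDegree ≤ n → P ≠ 0 → Polynomial.aeval b P = 0 → D' b = 0 := by
  have : CharZero S := charZero_of_injective_algebraMap (algebraMap K S).injective
  intro n
  induction n with
  | zero =>
    intro P hn hP h0
    exfalso
    rw [Polynomial.eq_C_of_natDegree_le_zero hn, Polynomial.aeval_C] at h0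
    have h1 : P.coeff 0 = 0 := by
      apply Subtype.ext
      exact h0
    apply hP
    rw [Polynomial.eq_C_of_natDegree_le_zero hn, h1, Polynomial.C_0]
  | succ n ih =>
    intro P hn hP h0
    by_cases hd : P.natDegree = 0
    · exact ih P (by omega) hP h0
    · have h1 : Polynomial.derivative P ≠ 0 := by
        intro h
        exact hd (Polynomial.derivative_eq_zero.mp h)
      by_cases h2 : Polynomial.aeval b (Polynomial.derivative P) = 0
      · refine ih _ ?_ h1 h2
        have := Polynomial.natDegree_derivative_lt hd
        omega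
      · have h3 := D'.map_aeval P b
        rw [h0, map_zero, smul_eq_mul] at h3
        rcases mul_eq_zero.mp h3.symm with h | h
        · exact absurd h h2
        · exact h

theorem dkill {K B : Type*} [Field K] [CharZero K] [CommRing B] [IsDomain B] [Algebra K B]
    (D : Derivation K B B) (S : Subalgebra K B) (hS : ∀ s ∈ S, D s = 0) (b : B)
    (hb : IsAlgebraic S b) : D b = 0 := by
  have hsm : ∀ (c : S) (x : B), D (c • x) = c • D x := by
    intro c x
    have h1 : c • x = (c : B) * x := rfl
    have h2 : c • D x = (c : B) * D x := rfl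
    rw [h1, h2, D.leibniz, hS c c.2, smul_zero, add_zero, smul_eq_mul]
  let L : B →ₗ[S] B := { toFun := fun x => D x, map_add' := fun x y => map_add D x y, map_smul' := hsm }
  let D' : Derivation S B B :=
    { toLinearMap := L
      map_one_eq_zero' := D.map_one_eq_zero
      leibniz' := fun x y => D.leibniz x y }
  obtain ⟨P, hP, h0⟩ := hb
  exact Alg_aux S D' b P.natDegree P le_rfl hP h0

theorem alg_of_adm {K B ι : Type*} [Field K] [CommRing B] [IsDomain B] [Algebra K B] {κ : ℕ}
    (g : MvPolynomial ι B) (h : Adm K κ g) :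
    ∃ θ : Fin κ → B, ∀ μ, IsAlgebraic (Algebra.adjoin K (Set.range θ)) (coeff μ g) := by
  obtain ⟨θ, b, hb0, hb, hc⟩ := h
  refine ⟨θ, fun μ => ?_⟩
  have h1 := hc μ
  rw [coeff_C_mul] at h1
  refine ⟨Polynomial.C (⟨b, hb⟩ : Algebra.adjoin K (Set.range θ)) * Polynomial.X -
    Polynomial.C (⟨b * coeff μ g, h1⟩ : Algebra.adjoin K (Set.range θ)), ?_, ?_⟩
  · intro h
    have h2 := congrArg (fun Q => Polynomial.coeff Q 1) h
    simp only [Polynomial.coeff_sub, Polynomial.coeff_C_mul, Polynomial.coeff_X_one, mul_one,
      Polynomial.coeff_C_succ, sub_zero, Polynomial.coeff_zero] at h2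
    exact hb0 (congrArg Subtype.val h2)
  · rw [map_sub, map_mul, Polynomial.aeval_C, Polynomial.aeval_X, Polynomial.aeval_C]
    exact sub_self _

end Pool.Agent.KAL
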