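import Mathlib

/-! # KAL-Sol.  The solutions `c` of `κ` homogeneous linear equations in `r ≥ k + κ` unknowns over a domain
give polynomials `sum_l c_l T^l` of at least `k` different degrees.

PLAN. Let `Δ` be the set of the `δ < r` such that some solution `c` has `c δ ≠ 0` and `c l = 0` for `l > δ`
(then `sum_l C (c l) X^l` is nonzero of natDegree `δ`). Suppose `Δ.card < k`. The linear map
`(Fin r → B) → (Fin κ → B) × (Δ → B)`, `c ↦ (A c, (c δ)_(δ ∈ Δ))` is not injective, because
`κ + Δ.card < r` (strong rank condition: `LinearMap.exists_...`, `card_le_of_injective`,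
`Module.finrank`, or `Matrix.exists_mulVec_eq_zero...`). A nonzero `c` in the kernel is a solution; its last
nonzero position `δ` lies in `Δ` (by definition) and `c δ = 0`, contradiction. -/

set_option autoImplicit false

namespace Pool.Agent.KAL

open Polynomial

private theorem Sol_coeff {B : Type*} [CommRing B] {r : ℕ} (c : Fin r → B) (l : Fin r) :
    (∑ l : Fin r, Polynomial.C (c l) * (X : Polynomial B) ^ (l : ℕ)).coeff l = c l := by
  rw [Polynomial.finsetSum_coeff, Finset.sum_eq_single l]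
  · rw [coeff_C_mul, coeff_X_pow, if_pos rfl, mul_one]
  · intro m _ hm
    rw [coeff_C_mul, coeff_X_pow, if_neg (fun h => hm (Fin.ext h.symm)), mul_zero]
  · intro h
    exact absurd (Finset.mem_univ _) h

private theorem Sol_deg {B : Type*} [CommRing B] {r : ℕ} (c : Fin r → B) (hr : 0 < r) :
    (∑ l : Fin r, Polynomial.C (c l) * (X : Polynomial B) ^ (l : ℕ)).natDegree < r := by
  refine lt_of_le_of_lt (Polynomial.natDegree_sum_le_of_forall_le (n := r - 1) _ _ fun l _ => ?_) (by omega)
  refine (natDegree_C_mul_X_pow_le _ _).trans ?_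
  have := l.2
  omega

theorem sols {B : Type*} [CommRing B] [IsDomain B] {r κ k : ℕ} (hk : k + κ ≤ r)
    (A : Matrix (Fin κ) (Fin r) B) :
    ∃ Δ : Finset ℕ, k ≤ Δ.card ∧ ∀ δ ∈ Δ, ∃ c : Fin r → B,
      (∀ a, ∑ l, A a l * c l = 0) ∧
      (∑ l : Fin r, Polynomial.C (c l) * (X : Polynomial B) ^ (l : ℕ)) ≠ 0 ∧
      (∑ l : Fin r, Polynomial.C (c l) * (X : Polynomial B) ^ (l : ℕ)).natDegree = δ := by
  classical
  let D : Finset ℕ := (Finset.range r).filter fun δ => ∃ c : Fin r → B,
      (∀ a, ∑ l, A a l * c l = 0) ∧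
      (∑ l : Fin r, Polynomial.C (c l) * (X : Polynomial B) ^ (l : ℕ)) ≠ 0 ∧
      (∑ l : Fin r, Polynomial.C (c l) * (X : Polynomial B) ^ (l : ℕ)).natDegree = δ
  refine ⟨D, ?_, fun δ hδ => (Finset.mem_filter.1 hδ).2⟩
  by_contra hcon
  push Not at hcon
  have hlt : ∀ δ : D, (δ : ℕ) < r := fun δ => Finset.mem_range.1 (Finset.mem_filter.1 δ.2).1
  let f : (Fin r → B) →ₗ[B] (Fin κ ⊕ D → B) :=
    { toFun := fun c => Sum.elim (fun a => ∑ l, A a l * c l) (fun δ => c ⟨δ, hlt δ⟩)
      map_add' := fun c c' => by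
        funext x
        rcases x with a | δ
        · simp [mul_add, Finset.sum_add_distrib]
        · simp
      map_smul' := fun t c => by
        funext x
        rcases x with a | δ
        · simp only [Sum.elim_inl, Pi.smul_apply, smul_eq_mul, RingHom.id_apply, Finset.mul_sum]
          refine Finset.sum_congr rfl fun l _ => by ring
        · simp }
  have hni : ¬ Function.Injective f := by
    intro hi
    have h1 := card_le_of_injective B f hi
    rw [Fintype.card_fin, Fintype.card_sum, Fintype.card_fin, Fintype.card_coe] at h1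
    omega
  obtain ⟨c, hc, hc0⟩ : ∃ c, f c = 0 ∧ c ≠ 0 := by
    by_contra h
    push Not at h
    exact hni ((injective_iff_map_eq_zero f).2 h)
  have h1 : ∀ a, ∑ l, A a l * c l = 0 := fun a => congrFun hc (Sum.inl a)
  have h2 : ∀ δ : D, c ⟨δ, hlt δ⟩ = 0 := fun δ => congrFun hc (Sum.inr δ)
  obtain ⟨l, hl⟩ : ∃ l, c l ≠ 0 := by
    by_contra h
    push Not at h
    exact hc0 (funext h)
  have hP : (∑ l : Fin r, Polynomial.C (c l) * (X : Polynomial B) ^ (l : ℕ)) ≠ 0 := by
    intro h
    apply hl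
    rw [← Sol_coeff c l, h, coeff_zero]
  have hr := Sol_deg c (lt_of_le_of_lt (Nat.zero_le _) l.2)
  have hD : (∑ l : Fin r, Polynomial.C (c l) * (X : Polynomial B) ^ (l : ℕ)).natDegree ∈ D :=
    Finset.mem_filter.2 ⟨Finset.mem_range.2 hr, c, h1, hP, rfl⟩
  have h3 := h2 ⟨_, hD⟩
  have h4 := Sol_coeff c ⟨_, hr⟩
  rw [h3] at h4
  exact hP (leadingCoeff_eq_zero.1 h4)

end Pool.Agent.KAL
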