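import Mathlib

/-! # KAL-Trop.  A polynomial vector `p` over a domain which is orthogonal to `(u(Z^(e_i)))_i` for
polynomials `u` of at least `|ι|` different degrees vanishes.

PLAN (tropical count). Suppose `S = {i | p i ≠ 0}` is nonempty. For `i ∈ S`, `δ ∈ Δ` the summand
`p i * expand (e i) (u δ)` is nonzero with natDegree `a_i + e_i δ`, `a_i = natDegree (p i)`
(`Polynomial.natDegree_expand`, `expand_ne_zero`, domain).  As the sum over `i` (it is enough to sum over `S`)
is zero, for each `δ ∈ Δ` the maximum `M_δ = max_(i ∈ S) (a_i + e_i δ)` is attained at least twice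
(otherwise the coefficient at `M_δ` of the sum is a nonzero leading coefficient).
For `δ ∈ Δ` let `hi δ` be the maximiser with the LARGEST slope `e` and `lo δ` the maximiser with the
smallest slope: `e (lo δ) < e (hi δ)`. If `δ < δ'` then `e (hi δ) ≤ e (lo δ')`: from
`a_hi + e_hi δ ≥ a_lo' + e_lo' δ` and `a_lo' + e_lo' δ' ≥ a_hi + e_hi δ'` one gets
`(e_lo' - e_hi)(δ' - δ) ≥ 0`.  So `e ∘ hi` is strictly increasing on `Δ` and
`e (lo δ_min) < e (hi δ)` for all `δ ∈ Δ`: the elements `hi δ` (δ ∈ Δ) and `lo δ_min` are `|Δ| + 1` different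
elements of `ι`, contradiction with `|ι| ≤ |Δ|`. (`Δ` is nonempty because `ι` is.)
Alternative: induction on `|Δ|`. -/

set_option autoImplicit false

namespace Pool.Agent.KAL

open Polynomial

private theorem Trop_twice {B : Type*} [CommRing B] [IsDomain B] {ι : Type*} [Fintype ι]
    (p : ι → Polynomial B) (e : ι → ℕ) (he : Function.Injective e) (he0 : ∀ i, 0 < e i)
    (δ : ℕ) (u : Polynomial B) (hu0 : u ≠ 0) (hud : u.natDegree = δ)
    (h : ∑ i, p i * Polynomial.expand B (e i) u = 0) (hp : ∃ i, p i ≠ 0) :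
    ∃ lo hi : ι, p lo ≠ 0 ∧ p hi ≠ 0 ∧ e lo < e hi ∧
      (∀ i, p i ≠ 0 → (p i).natDegree + e i * δ ≤ (p lo).natDegree + e lo * δ) ∧
      (∀ i, p i ≠ 0 → (p i).natDegree + e i * δ ≤ (p hi).natDegree + e hi * δ) := by
  classical
  obtain ⟨i1, hi1⟩ := hp
  obtain ⟨i0, hi0, hmax⟩ := Finset.exists_max_image (Finset.univ.filter fun i => p i ≠ 0)
    (fun i => (p i).natDegree + e i * δ) ⟨i1, by simpa using hi1⟩
  have hp0 : p i0 ≠ 0 := by simpa using hi0
  have hmax' : ∀ i, p i ≠ 0 → (p i).natDegree + e i * δ ≤ (p i0).natDegree + e i0 * δ :=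
    fun i hi => hmax i (by simpa using hi)
  have hnd : ∀ i, p i ≠ 0 → (p i * Polynomial.expand B (e i) u).natDegree = (p i).natDegree + e i * δ := by
    intro i hi
    rw [Polynomial.natDegree_mul hi ((Polynomial.expand_ne_zero (he0 i)).2 hu0),
      Polynomial.natDegree_expand, hud, mul_comm δ]
  have h2 : ∃ j, j ≠ i0 ∧ p j ≠ 0 ∧ (p j).natDegree + e j * δ = (p i0).natDegree + e i0 * δ := by
    by_contra hcon
    push Not at hcon
    have hlt : ∀ i, i ≠ i0 → p i ≠ 0 → (p i).natDegree + e i * δ < (p i0).natDegree + e i0 * δ :=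
      fun i hi hpi => lt_of_le_of_ne (hmax' i hpi) (hcon i hi hpi)
    have hc := congrArg (fun q : Polynomial B => q.coeff ((p i0).natDegree + e i0 * δ)) h
    simp only [Polynomial.finset_sum_coeff, Polynomial.coeff_zero] at hc
    rw [Finset.sum_eq_single i0] at hc
    · have h3 := hnd i0 hp0
      rw [← h3, Polynomial.coeff_natDegree, Polynomial.leadingCoeff_eq_zero] at hc
      exact mul_ne_zero hp0 ((Polynomial.expand_ne_zero (he0 i0)).2 hu0) hc
    · intro i _ hi
      by_cases hpi : p i = 0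
      · rw [hpi, zero_mul, Polynomial.coeff_zero]
      · apply Polynomial.coeff_eq_zero_of_natDegree_lt
        rw [hnd i hpi]
        exact hlt i hi hpi
    · intro hn
      exact absurd (Finset.mem_univ _) hn
  obtain ⟨j, hj, hpj, hjv⟩ := h2
  have hmaxj : ∀ i, p i ≠ 0 → (p i).natDegree + e i * δ ≤ (p j).natDegree + e j * δ := by
    intro i hi
    rw [hjv]
    exact hmax' i hi
  rcases lt_trichotomy (e j) (e i0) with h4 | h4 | h4
  · exact ⟨j, i0, hpj, hp0, h4, hmaxj, hmax'⟩
  · exact absurd (he h4) hj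
  · exact ⟨i0, j, hp0, hpj, h4, hmax', hmaxj⟩

theorem trop {B : Type*} [CommRing B] [IsDomain B] {ι : Type*} [Fintype ι]
    (p : ι → Polynomial B) (e : ι → ℕ) (he : Function.Injective e) (he0 : ∀ i, 0 < e i)
    (Δ : Finset ℕ) (hΔ : Fintype.card ι ≤ Δ.card) (u : ℕ → Polynomial B)
    (hu : ∀ δ ∈ Δ, u δ ≠ 0 ∧ (u δ).natDegree = δ)
    (h : ∀ δ ∈ Δ, ∑ i, p i * Polynomial.expand B (e i) (u δ) = 0) : p = 0 := by
  classical
  by_contra hp
  have hp' : ∃ i, p i ≠ 0 := by
    by_contra hcon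
    push Not at hcon
    exact hp (funext hcon)
  have key : ∀ δ : Δ, ∃ lo hi : ι, p lo ≠ 0 ∧ p hi ≠ 0 ∧ e lo < e hi ∧
      (∀ i, p i ≠ 0 → (p i).natDegree + e i * δ.1 ≤ (p lo).natDegree + e lo * δ.1) ∧
      (∀ i, p i ≠ 0 → (p i).natDegree + e i * δ.1 ≤ (p hi).natDegree + e hi * δ.1) :=
    fun δ => Trop_twice p e he he0 δ.1 (u δ.1) (hu δ.1 δ.2).1 (hu δ.1 δ.2).2 (h δ.1 δ.2) hp'
  choose lo hi hlo0 hhi0 hlt hlo hhi using key
  have hstep : ∀ δ δ' : Δ, δ.1 < δ'.1 → e (hi δ) ≤ e (lo δ') := by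
    intro δ δ' hd
    have h1 := hhi δ (lo δ') (hlo0 δ')
    have h2 := hlo δ' (hi δ) (hhi0 δ)
    by_contra hcon
    push Not at hcon
    obtain ⟨c, hc⟩ := Nat.exists_eq_add_of_lt hd
    obtain ⟨b, hb⟩ := Nat.exists_eq_add_of_lt hcon
    rw [hc, hb] at h2
    rw [hb] at h1
    nlinarith
  have hinj : Function.Injective hi := by
    intro δ δ' hd
    rcases lt_trichotomy δ.1 δ'.1 with h1 | h1 | h1
    · have h2 := hstep δ δ' h1
      have h3 := hlt δ'
      rw [hd] at h2
      omega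
    · exact Subtype.ext h1
    · have h2 := hstep δ' δ h1
      have h3 := hlt δ
      rw [← hd] at h2
      omega
  obtain ⟨i1, hi1⟩ := hp'
  have hne : Δ.Nonempty := by
    rw [← Finset.card_pos]
    have : 0 < Fintype.card ι := Fintype.card_pos_iff.2 ⟨i1⟩
    omega
  let m : Δ := ⟨Δ.min' hne, Δ.min'_mem hne⟩
  have hm : ∀ δ : Δ, lo m ≠ hi δ := by
    intro δ hcon
    have h1 := hlt m
    rcases (Δ.min'_le δ.1 δ.2).lt_or_eq with h2 | h2
    · have h3 := hstep m δ h2
      have h4 := hlt δ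
      rw [hcon] at h1
      omega
    · have h3 : m = δ := Subtype.ext h2
      rw [hcon, ← h3] at h1
      omega
  have hcard : Δ.card + 1 ≤ Fintype.card ι := by
    have h1 : (Finset.univ.image hi).card = Δ.card := by
      rw [Finset.card_image_of_injective _ hinj, Finset.card_univ, Fintype.card_coe]
    have h2 : lo m ∉ Finset.univ.image hi := by
      intro hcon
      obtain ⟨δ, -, hδ⟩ := Finset.mem_image.1 hcon
      exact hm δ hδ.symm
    have h3 := Finset.card_le_univ (insert (lo m) (Finset.univ.image hi))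
    rw [Finset.card_insert_of_notMem h2, h1] at h3
    exact h3
  omega

end Pool.Agent.KAL
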