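import Mathlib
import Pool.Agent.KAL.Trop
import Pool.Agent.KAL.Sol

/-! # KAL-Block.  The block lemma: a nonzero polynomial `g` in `k` variables whose coefficients lie in the
algebra generated by `κ` polynomials stays nonzero under `x_i ↦ sum_(l < r) X_l Z^(e_i l)`, `k + κ ≤ r`,
although the `X_l` are variables of the coefficient ring (one shared source).

PLAN. `B = MvPolynomial σ K`, `A_θ = Algebra.adjoin K (range θ)`.  Induction on a bound `N` for
`g.totalDegree` (for all `g` with coefficients in `A_θ`).
* `totalDegree g = 0`: `g = C c`, `c ≠ 0`, the value is `Polynomial.C c ≠ 0`.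
* Otherwise suppose the value is `0`. Put `p i = value of pderiv i g` (in `B[Z]`). `pderiv i g` has
  coefficients in `A_θ` (`coeff μ (pderiv i g) = (μ i + 1) • coeff (μ + single i 1) g`) and smaller total
  degree (when nonzero), so by induction `p i ≠ 0` whenever `pderiv i g ≠ 0`; and some `pderiv i g ≠ 0`
  (characteristic 0, `g` is not constant).  So `p ≠ 0`.
* For `c : Fin r → B` with `∑ l, pderiv (x l) (θ a) * c l = 0` for all `a`, the derivation
  `D = ∑ l, c l • pderiv (x l)` of `B` over `K` kills `A_θ` (`Algebra.adjoin_induction`), hence all coefficients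
  of `g`.  For every natural number `z` let `G_z i = ∑ l, X (x l) * z^(e i l) ∈ B`; then
  `0 = D (eval G_z g) = ∑ i, eval G_z (pderiv i g) * D (G_z i)` and `D (G_z i) = ∑ l, c l * z^(e i l)`
  (`x` injective).  This is the evaluation at `Z = z` of
  `∑ i, p i * expand (e i) (∑ l, C (c l) * X^l)`, so this polynomial over the domain `B` vanishes at all
  natural numbers and is `0` (`Polynomial.funext`-like for infinitely many points, `B` has characteristic 0).
  (Alternative: extend `D` to `B[Z]` coefficientwise.)
* `sols` with `A a l = pderiv (x l) (θ a)` gives `≥ k` different degrees; `trop` gives `p = 0`,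
  a contradiction. -/

set_option autoImplicit false

namespace Pool.Agent.KAL

open MvPolynomial

/-- the substitution `x_i ↦ sum_l X_l Z^(e_i l)` -/
noncomputable def zsub {K σ ι : Type*} [Field K] {r : ℕ} (x : Fin r → σ) (e : ι → ℕ) (i : ι) :
    Polynomial (MvPolynomial σ K) :=
  ∑ l : Fin r, Polynomial.C (MvPolynomial.X (x l)) * Polynomial.X ^ (e i * (l : ℕ))

/-- a derivation applied to the coefficients -/
private noncomputable def Block_ext {K B : Type*} [Field K] [CommRing B] [Algebra K B] (D : Derivation K B B) :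
    Derivation K (Polynomial B) (Polynomial B) :=
  (PolynomialModule.equivPolynomialSelf (R := B)).toLinearMap.compDer D.mapCoeffs

private theorem Block_ext_mon {K B : Type*} [Field K] [CommRing B] [Algebra K B] (D : Derivation K B B) (n : ℕ)
    (b : B) : Block_ext D (Polynomial.monomial n b) = Polynomial.monomial n (D b) := by
  have h : Block_ext D (Polynomial.monomial n b) =
    PolynomialModule.equivPolynomialSelf (D.mapCoeffs (Polynomial.monomial n b)) := rfl
  rw [h, Derivation.mapCoeffs_monomial]
  rfl

private theorem Block_chain {K B S ι : Type*} [Field K] [CommRing B] [CommRing S] [Algebra K S]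
    [Fintype ι] (φ : B →+* S) (D : Derivation K S S) (G : ι → S) (g : MvPolynomial ι B)
    (hg : ∀ μ, D (φ (coeff μ g)) = 0) :
    D (eval₂ φ G g) = ∑ i, eval₂ φ G (pderiv i g) * D (G i) := by
  classical
  have h1 : ∀ (μ : ι →₀ ℕ) (b : B), D (φ b) = 0 →
      D (eval₂ φ G (monomial μ b)) = ∑ i, eval₂ φ G (pderiv i (monomial μ b)) * D (G i) := by
    intro μ b hb
    have h2 := induction_on_monomial (motive := fun p => (∀ μ, D (φ (coeff μ p)) = 0) →
      D (eval₂ φ G p) = ∑ i, eval₂ φ G (pderiv i p) * D (G i)) (fun a ha => ?_) (fun p n ih hp => ?_) μ b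
    · refine h2 fun μ' => ?_
      rw [coeff_monomial]
      split_ifs
      · exact hb
      · rw [map_zero, map_zero]
    · have h3 := ha 0
      rw [coeff_C, if_pos rfl] at h3
      rw [eval₂_C, h3]
      exact (Finset.sum_eq_zero fun i _ => by rw [pderiv_C, eval₂_zero, zero_mul]).symm
    · have h3 : ∀ μ, D (φ (coeff μ p)) = 0 := by
        intro μ
        have h4 := hp (μ + Finsupp.single n 1)
        rwa [coeff_mul_X] at h4
      have h5 : ∀ i, eval₂ φ G (pderiv i (p * X n)) * D (G i) =
          G n * (eval₂ φ G (pderiv i p) * D (G i)) + (if n = i then eval₂ φ G p * D (G i) else 0) := by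
        intro i
        rw [pderiv_mul, eval₂_add, eval₂_mul, eval₂_mul, eval₂_X, pderiv_X]
        by_cases hn : n = i
        · rw [if_pos hn, hn, Pi.single_eq_same, eval₂_one]
          ring
        · rw [if_neg hn, Pi.single_eq_of_ne hn, eval₂_zero]
          ring
      rw [Finset.sum_congr rfl fun i _ => h5 i, Finset.sum_add_distrib, ← Finset.mul_sum, ← ih h3,
        Finset.sum_ite_eq, if_pos (Finset.mem_univ n), eval₂_mul, eval₂_X, D.leibniz, smul_eq_mul, smul_eq_mul]
      ring
  have h2 : D (eval₂ φ G g) = ∑ μ ∈ g.support, D (eval₂ φ G (monomial μ (coeff μ g))) := by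
    conv_lhs => rw [← support_sum_monomial_coeff g]
    rw [eval₂_sum, map_sum]
  have h3 : ∀ i, eval₂ φ G (pderiv i g) = ∑ μ ∈ g.support, eval₂ φ G (pderiv i (monomial μ (coeff μ g))) := by
    intro i
    conv_lhs => rw [← support_sum_monomial_coeff g]
    rw [map_sum, eval₂_sum]
  rw [h2, Finset.sum_congr rfl fun μ _ => h1 μ _ (hg μ), Finset.sum_comm]
  exact Finset.sum_congr rfl fun i _ => by rw [h3, Finset.sum_mul]

private noncomputable def Block_D {K σ : Type*} [Field K] {r : ℕ} (x : Fin r → σ)
    (c : Fin r → MvPolynomial σ K) : Derivation K (MvPolynomial σ K) (MvPolynomial σ K) :=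
  ∑ l, c l • pderiv (x l)

private theorem Block_D_apply {K σ : Type*} [Field K] {r : ℕ} (x : Fin r → σ)
    (c : Fin r → MvPolynomial σ K) (b : MvPolynomial σ K) :
    Block_D x c b = ∑ l, pderiv (x l) b * c l := by
  unfold Block_D
  have h : ⇑(∑ l, c l • pderiv (x l) : Derivation K (MvPolynomial σ K) (MvPolynomial σ K)) =
      ∑ l, ⇑(c l • pderiv (x l) : Derivation K (MvPolynomial σ K) (MvPolynomial σ K)) :=
    map_sum Derivation.coeFnAddMonoidHom _ _
  rw [h, Finset.sum_apply]
  exact Finset.sum_congr rfl fun l _ => by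
    rw [Derivation.smul_apply, smul_eq_mul, mul_comm]

private theorem Block_main {K σ ι : Type*} [Field K] [CharZero K] [Fintype ι] {r κ : ℕ}
    (x : Fin r → σ) (hx : Function.Injective x) (e : ι → ℕ) (he : Function.Injective e)
    (he0 : ∀ i, 0 < e i) (hk : Fintype.card ι + κ ≤ r) (θ : Fin κ → MvPolynomial σ K) :
    ∀ (N : ℕ) (g : MvPolynomial ι (MvPolynomial σ K)), g.totalDegree ≤ N →
      (∀ μ, coeff μ g ∈ Algebra.adjoin K (Set.range θ)) →
      MvPolynomial.eval₂ Polynomial.C (zsub (K := K) x e) g = 0 → g = 0 := by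
  classical
  intro N
  induction N with
  | zero =>
    intro g hN hθ h0
    have h1 := totalDegree_eq_zero_iff_eq_C.1 (Nat.le_zero.1 hN)
    rw [h1, eval₂_C, Polynomial.C_eq_zero] at h0
    rw [h1, h0, C_0]
  | succ N ih =>
    intro g hN hθ h0
    -- derivatives
    have hd1 : ∀ i, (pderiv i g).totalDegree ≤ N := by
      intro i
      refine Finset.sup_le fun μ hμ => ?_
      rw [mem_support_iff, coeff_pderiv] at hμ
      have h2 : μ + Finsupp.single i 1 ∈ g.support := by
        rw [mem_support_iff]
        intro h3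
        rw [h3, zero_mul] at hμ
        exact hμ rfl
      have h3 := le_totalDegree h2
      have h4 : ((μ + Finsupp.single i 1).sum fun _ e => e) = (μ.sum fun _ e => e) + 1 := by
        rw [Finsupp.sum_add_index' (fun _ => rfl) (fun _ _ _ => rfl), Finsupp.sum_single_index rfl]
      omega
    have hd2 : ∀ i μ, coeff μ (pderiv i g) ∈ Algebra.adjoin K (Set.range θ) := by
      intro i μ
      rw [coeff_pderiv]
      refine Subalgebra.mul_mem _ (hθ _) ?_
      have h2 : ((μ i : MvPolynomial σ K) + 1) = ((μ i + 1 : ℕ) : MvPolynomial σ K) := by push_cast; rfl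
      rw [h2]
      exact natCast_mem _ _
    obtain ⟨Δ, hΔ, hs⟩ := sols (B := MvPolynomial σ K) hk (Matrix.of fun a l => pderiv (x l) (θ a))
    choose! c hc1 hc2 hc3 using hs
    have hp : (fun i => MvPolynomial.eval₂ Polynomial.C (zsub (K := K) x e) (pderiv i g)) = 0 := by
      refine trop _ e he he0 Δ hΔ
        (fun δ => ∑ l : Fin r, Polynomial.C (c δ l) * (Polynomial.X : Polynomial (MvPolynomial σ K)) ^ (l : ℕ))
        (fun δ hδ => ⟨hc2 δ hδ, hc3 δ hδ⟩) fun δ hδ => ?_
      have hkill : ∀ b ∈ Algebra.adjoin K (Set.range θ), Block_D x (c δ) b = 0 := by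
        intro b hb
        induction hb using Algebra.adjoin_induction with
        | mem b hb =>
          obtain ⟨a, rfl⟩ := hb
          rw [Block_D_apply]
          exact hc1 δ hδ a
        | algebraMap r => exact Derivation.map_algebraMap _ r
        | add b b' _ _ h1 h2 => rw [map_add, h1, h2, add_zero]
        | mul b b' _ _ h1 h2 => rw [Derivation.leibniz, h1, h2, smul_zero, smul_zero, add_zero]
      have hchain := Block_chain Polynomial.C (Block_ext (Block_D x (c δ))) (zsub (K := K) x e) g (fun μ => by
        rw [← Polynomial.monomial_zero_left, Block_ext_mon, hkill _ (hθ μ), map_zero])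
      rw [h0, map_zero] at hchain
      rw [hchain]
      refine Finset.sum_congr rfl fun i _ => ?_
      congr 1
      unfold zsub
      rw [map_sum, map_sum]
      refine Finset.sum_congr rfl fun l _ => ?_
      rw [Polynomial.C_mul_X_pow_eq_monomial, Polynomial.C_mul_X_pow_eq_monomial, Block_ext_mon,
        Polynomial.expand_monomial, Block_D_apply, mul_comm (l : ℕ)]
      congr 1
      rw [Finset.sum_eq_single l]
      · rw [pderiv_X_self, one_mul]
      · intro l' _ hl'
        rw [pderiv_X_of_ne (fun h => hl' (hx h).symm), zero_mul]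
      · intro h
        exact absurd (Finset.mem_univ l) h
    have hz : ∀ i, pderiv i g = 0 := fun i => ih _ (hd1 i) (hd2 i) (congrFun hp i)
    have hC : g = C (coeff 0 g) := by
      ext1 μ
      rw [coeff_C]
      split_ifs with hμ
      · rw [hμ]
      · obtain ⟨i, hi⟩ : ∃ i, μ i ≠ 0 := by
          by_contra hc
          push Not at hc
          exact hμ (Finsupp.ext fun i => (hc i).symm)
        have h1 := congrArg (coeff (μ - Finsupp.single i 1)) (hz i)
        rw [coeff_pderiv, coeff_zero, tsub_add_cancel_of_le (by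
          rw [Finsupp.single_le_iff]
          omega)] at h1
        rcases mul_eq_zero.1 h1 with h2 | h2
        · exact h2
        · exfalso
          have h3 : (((μ - Finsupp.single i 1 : ι →₀ ℕ) i + 1 : ℕ) : MvPolynomial σ K) = 0 := by
            push_cast
            exact h2
          exact Nat.cast_ne_zero.2 (Nat.succ_ne_zero _) h3
    rw [hC, eval₂_C, Polynomial.C_eq_zero] at h0
    rw [hC, h0, C_0]

theorem block {K σ ι : Type*} [Field K] [CharZero K] [Fintype ι] {r κ : ℕ}
    (x : Fin r → σ) (hx : Function.Injective x) (e : ι → ℕ) (he : Function.Injective e)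
    (he0 : ∀ i, 0 < e i) (hk : Fintype.card ι + κ ≤ r) (θ : Fin κ → MvPolynomial σ K)
    (g : MvPolynomial ι (MvPolynomial σ K)) (hg : g ≠ 0)
    (hθ : ∀ μ, coeff μ g ∈ Algebra.adjoin K (Set.range θ)) :
    MvPolynomial.eval₂ Polynomial.C (zsub (K := K) x e) g ≠ 0 := by
  intro h
  exact hg (Block_main x hx e he he0 hk θ _ g le_rfl hθ h)

end Pool.Agent.KAL
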