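import Mathlib
import Pool.Agent.KAL.Trop
import Pool.Agent.KAL.Sol
import Pool.Agent.KAL.Block
import Pool.Agent.KAL.Alg

/-! # KAL-BlockA.  The block lemma for algebraic coefficients (after helper3's KAL-Block). -/

set_option autoImplicit false

namespace Pool.Agent.KAL

open MvPolynomial

/-- a derivation applied to the coefficients -/
private noncomputable def BlockA_ext {K B : Type*} [Field K] [CommRing B] [Algebra K B] (D : Derivation K B B) :
    Derivation K (Polynomial B) (Polynomial B) :=
  (PolynomialModule.equivPolynomialSelf (R := B)).toLinearMap.compDer D.mapCoeffs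

private theorem BlockA_ext_mon {K B : Type*} [Field K] [CommRing B] [Algebra K B] (D : Derivation K B B) (n : ℕ)
    (b : B) : BlockA_ext D (Polynomial.monomial n b) = Polynomial.monomial n (D b) := by
  have h : BlockA_ext D (Polynomial.monomial n b) =
    PolynomialModule.equivPolynomialSelf (D.mapCoeffs (Polynomial.monomial n b)) := rfl
  rw [h, Derivation.mapCoeffs_monomial]
  rfl

private theorem BlockA_chain {K B S ι : Type*} [Field K] [CommRing B] [CommRing S] [Algebra K S]
    [Fintype ι] (φ : B →+* S) (D : Derivation K S S) (G : ι → S) (g : MvPolynomial ι B)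
    (hg : ∀ μ, D (φ (coeff μ g)) = 0) :
    D (eval₂ φ G g) = ∑ i, eval₂ φ G (pderiv i g) * D (G i) := by
  classical
  have h1 : ∀ (μ : ι →₀ ℕ) (b : B), D (φ b) = 0 →
      D (eval₂ φ G (monomial μ b)) = ∑ i, eval₂ φ G (pderiv i (monomial μ b)) * D (G i) := by
    intro μ b hb
    have h2 := induction_on_monomial (motive := fun p => (∀ μ, D (φ (coeff μ p)) = 0) →
      D (eval₂ φ G p) = ∑ i, eval₂ φ G (pderiv i p) * D (G i)) (fun a ha => ?_) (fun p n ih hp => ?_) μ b
    · refine h2 fun μ' => ?_
      rw [coeff_monomial]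
      split_ifs
      · exact hb
      · rw [map_zero, map_zero]
    · have h3 := ha 0
      rw [coeff_C, if_pos rfl] at h3
      rw [eval₂_C, h3]
      exact (Finset.sum_eq_zero fun i _ => by rw [pderiv_C, eval₂_zero, zero_mul]).symm
    · have h3 : ∀ μ, D (φ (coeff μ p)) = 0 := by
        intro μ
        have h4 := hp (μ + Finsupp.single n 1)
        rwa [coeff_mul_X] at h4
      have h5 : ∀ i, eval₂ φ G (pderiv i (p * X n)) * D (G i) =
          G n * (eval₂ φ G (pderiv i p) * D (G i)) + (if n = i then eval₂ φ G p * D (G i) else 0) := by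
        intro i
        rw [pderiv_mul, eval₂_add, eval₂_mul, eval₂_mul, eval₂_X, pderiv_X]
        by_cases hn : n = i
        · rw [if_pos hn, hn, Pi.single_eq_same, eval₂_one]
          ring
        · rw [if_neg hn, Pi.single_eq_of_ne hn, eval₂_zero]
          ring
      rw [Finset.sum_congr rfl fun i _ => h5 i, Finset.sum_add_distrib, ← Finset.mul_sum, ← ih h3,
        Finset.sum_ite_eq, if_pos (Finset.mem_univ n), eval₂_mul, eval₂_X, D.leibniz, smul_eq_mul, smul_eq_mul]
      ring
  have h2 : D (eval₂ φ G g) = ∑ μ ∈ g.support, D (eval₂ φ G (monomial μ (coeff μ g))) := by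
    conv_lhs => rw [← support_sum_monomial_coeff g]
    rw [eval₂_sum, map_sum]
  have h3 : ∀ i, eval₂ φ G (pderiv i g) = ∑ μ ∈ g.support, eval₂ φ G (pderiv i (monomial μ (coeff μ g))) := by
    intro i
    conv_lhs => rw [← support_sum_monomial_coeff g]
    rw [map_sum, eval₂_sum]
  rw [h2, Finset.sum_congr rfl fun μ _ => h1 μ _ (hg μ), Finset.sum_comm]
  exact Finset.sum_congr rfl fun i _ => by rw [h3, Finset.sum_mul]

private noncomputable def BlockA_D {K σ : Type*} [Field K] {r : ℕ} (x : Fin r → σ)
    (c : Fin r → MvPolynomial σ K) : Derivation K (MvPolynomial σ K) (MvPolynomial σ K) :=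
  ∑ l, c l • pderiv (x l)

private theorem BlockA_D_apply {K σ : Type*} [Field K] {r : ℕ} (x : Fin r → σ)
    (c : Fin r → MvPolynomial σ K) (b : MvPolynomial σ K) :
    BlockA_D x c b = ∑ l, pderiv (x l) b * c l := by
  unfold BlockA_D
  have h : ⇑(∑ l, c l • pderiv (x l) : Derivation K (MvPolynomial σ K) (MvPolynomial σ K)) =
      ∑ l, ⇑(c l • pderiv (x l) : Derivation K (MvPolynomial σ K) (MvPolynomial σ K)) :=
    map_sum Derivation.coeFnAddMonoidHom _ _
  rw [h, Finset.sum_apply]
  exact Finset.sum_congr rfl fun l _ => by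
    rw [Derivation.smul_apply, smul_eq_mul, mul_comm]

private theorem BlockA_main {K σ ι : Type*} [Field K] [CharZero K] [Fintype ι] {r κ : ℕ}
    (x : Fin r → σ) (hx : Function.Injective x) (e : ι → ℕ) (he : Function.Injective e)
    (he0 : ∀ i, 0 < e i) (hk : Fintype.card ι + κ ≤ r) (θ : Fin κ → MvPolynomial σ K) :
    ∀ (N : ℕ) (g : MvPolynomial ι (MvPolynomial σ K)), g.totalDegree ≤ N →
      (∀ μ, IsAlgebraic (Algebra.adjoin K (Set.range θ)) (coeff μ g)) →
      MvPolynomial.eval₂ Polynomial.C (zsub (K := K) x e) g = 0 → g = 0 := by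
  classical
  intro N
  induction N with
  | zero =>
    intro g hN hθ h0
    have h1 := totalDegree_eq_zero_iff_eq_C.1 (Nat.le_zero.1 hN)
    rw [h1, eval₂_C, Polynomial.C_eq_zero] at h0
    rw [h1, h0, C_0]
  | succ N ih =>
    intro g hN hθ h0
    -- derivatives
    have hd1 : ∀ i, (pderiv i g).totalDegree ≤ N := by
      intro i
      refine Finset.sup_le fun μ hμ => ?_
      rw [mem_support_iff, coeff_pderiv] at hμ
      have h2 : μ + Finsupp.single i 1 ∈ g.support := by
        rw [mem_support_iff]
        intro h3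
        rw [h3, zero_mul] at hμ
        exact hμ rfl
      have h3 := le_totalDegree h2
      have h4 : ((μ + Finsupp.single i 1).sum fun _ e => e) = (μ.sum fun _ e => e) + 1 := by
        rw [Finsupp.sum_add_index' (fun _ => rfl) (fun _ _ _ => rfl), Finsupp.sum_single_index rfl]
      omega
    have hd2 : ∀ i μ, IsAlgebraic (Algebra.adjoin K (Set.range θ)) (coeff μ (pderiv i g)) := by
      intro i μ
      rw [coeff_pderiv]
      refine (hθ _).mul ?_
      have h2 : ((μ i : MvPolynomial σ K) + 1) = ((μ i + 1 : ℕ) : MvPolynomial σ K) := by push_cast; rfl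
      rw [h2]
      exact isAlgebraic_nat _
    obtain ⟨Δ, hΔ, hs⟩ := sols (B := MvPolynomial σ K) hk (Matrix.of fun a l => pderiv (x l) (θ a))
    choose! c hc1 hc2 hc3 using hs
    have hp : (fun i => MvPolynomial.eval₂ Polynomial.C (zsub (K := K) x e) (pderiv i g)) = 0 := by
      refine trop _ e he he0 Δ hΔ
        (fun δ => ∑ l : Fin r, Polynomial.C (c δ l) * (Polynomial.X : Polynomial (MvPolynomial σ K)) ^ (l : ℕ))
        (fun δ hδ => ⟨hc2 δ hδ, hc3 δ hδ⟩) fun δ hδ => ?_
      have hkill0 : ∀ b ∈ Algebra.adjoin K (Set.range θ), BlockA_D x (c δ) b = 0 := by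
        intro b hb
        induction hb using Algebra.adjoin_induction with
        | mem b hb =>
          obtain ⟨a, rfl⟩ := hb
          rw [BlockA_D_apply]
          exact hc1 δ hδ a
        | algebraMap r => exact Derivation.map_algebraMap _ r
        | add b b' _ _ h1 h2 => rw [map_add, h1, h2, add_zero]
        | mul b b' _ _ h1 h2 => rw [Derivation.leibniz, h1, h2, smul_zero, smul_zero, add_zero]
      have hkill : ∀ b, IsAlgebraic (Algebra.adjoin K (Set.range θ)) b → BlockA_D x (c δ) b = 0 :=
        fun b hb => dkill _ _ hkill0 b hb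
      have hchain := BlockA_chain Polynomial.C (BlockA_ext (BlockA_D x (c δ))) (zsub (K := K) x e) g (fun μ => by
        rw [← Polynomial.monomial_zero_left, BlockA_ext_mon, hkill _ (hθ μ), map_zero])
      rw [h0, map_zero] at hchain
      rw [hchain]
      refine Finset.sum_congr rfl fun i _ => ?_
      congr 1
      unfold zsub
      rw [map_sum, map_sum]
      refine Finset.sum_congr rfl fun l _ => ?_
      rw [Polynomial.C_mul_X_pow_eq_monomial, Polynomial.C_mul_X_pow_eq_monomial, BlockA_ext_mon,
        Polynomial.expand_monomial, BlockA_D_apply, mul_comm (l : ℕ)]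
      congr 1
      rw [Finset.sum_eq_single l]
      · rw [pderiv_X_self, one_mul]
      · intro l' _ hl'
        rw [pderiv_X_of_ne (fun h => hl' (hx h).symm), zero_mul]
      · intro h
        exact absurd (Finset.mem_univ l) h
    have hz : ∀ i, pderiv i g = 0 := fun i => ih _ (hd1 i) (hd2 i) (congrFun hp i)
    have hC : g = C (coeff 0 g) := by
      ext1 μ
      rw [coeff_C]
      split_ifs with hμ
      · rw [hμ]
      · obtain ⟨i, hi⟩ : ∃ i, μ i ≠ 0 := by
          by_contra hc
          push Not at hc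
          exact hμ (Finsupp.ext fun i => (hc i).symm)
        have h1 := congrArg (coeff (μ - Finsupp.single i 1)) (hz i)
        rw [coeff_pderiv, coeff_zero, tsub_add_cancel_of_le (by
          rw [Finsupp.single_le_iff]
          omega)] at h1
        rcases mul_eq_zero.1 h1 with h2 | h2
        · exact h2
        · exfalso
          have h3 : (((μ - Finsupp.single i 1 : ι →₀ ℕ) i + 1 : ℕ) : MvPolynomial σ K) = 0 := by
            push_cast
            exact h2
          exact Nat.cast_ne_zero.2 (Nat.succ_ne_zero _) h3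
    rw [hC, eval₂_C, Polynomial.C_eq_zero] at h0
    rw [hC, h0, C_0]

theorem blockA {K σ ι : Type*} [Field K] [CharZero K] [Fintype ι] {r κ : ℕ}
    (x : Fin r → σ) (hx : Function.Injective x) (e : ι → ℕ) (he : Function.Injective e)
    (he0 : ∀ i, 0 < e i) (hk : Fintype.card ι + κ ≤ r) (θ : Fin κ → MvPolynomial σ K)
    (g : MvPolynomial ι (MvPolynomial σ K)) (hg : g ≠ 0)
    (hθ : ∀ μ, IsAlgebraic (Algebra.adjoin K (Set.range θ)) (coeff μ g)) :
    MvPolynomial.eval₂ Polynomial.C (zsub (K := K) x e) g ≠ 0 := by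
  intro h
  exact hg (BlockA_main x hx e he he0 hk θ _ g le_rfl hθ h)

private theorem BlockA_eval {K σ ι : Type*} [Field K] {r : ℕ} (x : Fin r → σ) (e : ι → ℕ)
    (g : MvPolynomial ι (MvPolynomial σ K)) (z : ℕ) :
    Polynomial.eval (z : MvPolynomial σ K) (MvPolynomial.eval₂ Polynomial.C (zsub (K := K) x e) g) =
      MvPolynomial.eval (fun i => ∑ l : Fin r, (X (x l) : MvPolynomial σ K) *
        ((z ^ (e i * (l : ℕ)) : ℕ) : MvPolynomial σ K)) g := by
  have h := MvPolynomial.eval₂_comp_left (Polynomial.evalRingHom (z : MvPolynomial σ K)) Polynomial.C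
    (zsub (K := K) x e) g
  rw [Polynomial.coe_evalRingHom] at h
  rw [h, MvPolynomial.eval]
  have h1 : (Polynomial.evalRingHom (z : MvPolynomial σ K)).comp Polynomial.C = RingHom.id _ := by
    refine RingHom.ext fun a => ?_
    simp
  have h2 : (Polynomial.eval (z : MvPolynomial σ K)) ∘ (zsub (K := K) x e) =
      fun i => ∑ l : Fin r, (X (x l) : MvPolynomial σ K) *
        ((z ^ (e i * (l : ℕ)) : ℕ) : MvPolynomial σ K) := by
    funext i
    simp only [Function.comp_apply, zsub, Polynomial.eval_finsetSum, Polynomial.eval_mul,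
      Polynomial.eval_C, Polynomial.eval_pow, Polynomial.eval_X, Nat.cast_pow]
  rw [h1, h2]
  rfl

/-- some natural number `z` keeps `g` nonzero -/
theorem block_natA {K σ ι : Type*} [Field K] [CharZero K] [Fintype ι] {r κ : ℕ}
    (x : Fin r → σ) (hx : Function.Injective x) (e : ι → ℕ) (he : Function.Injective e)
    (he0 : ∀ i, 0 < e i) (hk : Fintype.card ι + κ ≤ r) (θ : Fin κ → MvPolynomial σ K)
    (g : MvPolynomial ι (MvPolynomial σ K)) (hg : g ≠ 0)
    (hθ : ∀ μ, IsAlgebraic (Algebra.adjoin K (Set.range θ)) (coeff μ g)) :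
    ∃ z : ℕ, MvPolynomial.eval (fun i => ∑ l : Fin r, (X (x l) : MvPolynomial σ K) *
        ((z ^ (e i * (l : ℕ)) : ℕ) : MvPolynomial σ K)) g ≠ 0 := by
  have hP := blockA x hx e he he0 hk θ g hg hθ
  by_contra hcon
  push Not at hcon
  apply hP
  refine Polynomial.eq_zero_of_natDegree_lt_card_of_eval_eq_zero _
    (f := fun i : Fin ((MvPolynomial.eval₂ Polynomial.C (zsub (K := K) x e) g).natDegree + 1) =>
      (((i : ℕ) : ℕ) : MvPolynomial σ K)) ?_ ?_ ?_
  · intro i j hij
    exact Fin.ext (Nat.cast_injective hij)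
  · intro i
    have h2 := hcon (i : ℕ)
    rw [← BlockA_eval] at h2
    exact h2
  · rw [Fintype.card_fin]
    exact Nat.lt_succ_self _

end Pool.Agent.KAL
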