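import Mathlib
import Pool.Agent.KAL.Defs
import Pool.Agent.KAL.Block

/-! # KAL-BlockNat.  The block lemma with a natural number `z ≤ D * E₀`.

PLAN. Let `g' = C b * g` (nonzero: domain), `block` for `g'` gives that the value of `g'` in `B[Z]` is nonzero;
it is `C b` times the value `P` of `g`, so `P ≠ 0`. `P.natDegree ≤ g.totalDegree * E₀`
(each monomial `μ` of `g` contributes `C (coeff) * ∏ (zsub i)^(μ i)` with
`natDegree (zsub i) ≤ e i * (r - 1) ≤ E₀`). A nonzero polynomial over a domain of characteristic 0 of natDegree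
`≤ N` is nonzero at some natural number `z ≤ N` (`Polynomial.card_roots'`). Finally the evaluation of `P` at
`z` is `eval (fun i => ∑ l, X (x l) * z^(e i * l)) g` (a ring hom composition: `MvPolynomial.hom_eval₂`,
`Polynomial.evalRingHom`). -/

set_option autoImplicit false

namespace Pool.Agent.KAL

open MvPolynomial

private theorem BlockNat_zsub {K σ ι : Type*} [Field K] {r : ℕ} (x : Fin r → σ) (e : ι → ℕ) (i : ι)
    (E₀ : ℕ) (hE : e i * r ≤ E₀) : (zsub (K := K) x e i).natDegree ≤ E₀ := by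
  unfold zsub
  refine Polynomial.natDegree_sum_le_of_forall_le _ _ fun l _ => ?_
  refine (Polynomial.natDegree_C_mul_X_pow_le _ _).trans (le_trans ?_ hE)
  exact Nat.mul_le_mul_left _ l.2.le

private theorem BlockNat_deg {K σ ι : Type*} [Field K] {r : ℕ} (x : Fin r → σ) (e : ι → ℕ)
    (g : MvPolynomial ι (MvPolynomial σ K)) (E₀ : ℕ) (hE : ∀ i, e i * r ≤ E₀) :
    (MvPolynomial.eval₂ Polynomial.C (zsub (K := K) x e) g).natDegree ≤ g.totalDegree * E₀ := by
  rw [MvPolynomial.eval₂_eq]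
  refine Polynomial.natDegree_sum_le_of_forall_le _ _ fun μ hμ => ?_
  refine (Polynomial.natDegree_C_mul_le _ _).trans ?_
  refine (Polynomial.natDegree_prod_le _ _).trans ?_
  have h1 : ∀ i ∈ μ.support, ((zsub (K := K) x e i) ^ μ i).natDegree ≤ μ i * E₀ := fun i _ =>
    Polynomial.natDegree_pow_le.trans (Nat.mul_le_mul_left _ (BlockNat_zsub x e i E₀ (hE i)))
  refine (Finset.sum_le_sum h1).trans ?_
  rw [← Finset.sum_mul]
  refine Nat.mul_le_mul_right _ ?_
  exact MvPolynomial.le_totalDegree hμ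

private theorem BlockNat_eval {K σ ι : Type*} [Field K] {r : ℕ} (x : Fin r → σ) (e : ι → ℕ)
    (g : MvPolynomial ι (MvPolynomial σ K)) (z : ℕ) :
    Polynomial.eval (z : MvPolynomial σ K) (MvPolynomial.eval₂ Polynomial.C (zsub (K := K) x e) g) =
      MvPolynomial.eval (fun i => ∑ l : Fin r, (X (x l) : MvPolynomial σ K) *
        ((z ^ (e i * (l : ℕ)) : ℕ) : MvPolynomial σ K)) g := by
  have h := MvPolynomial.eval₂_comp_left (Polynomial.evalRingHom (z : MvPolynomial σ K)) Polynomial.C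
    (zsub (K := K) x e) g
  rw [Polynomial.coe_evalRingHom] at h
  rw [h, MvPolynomial.eval]
  have h1 : (Polynomial.evalRingHom (z : MvPolynomial σ K)).comp Polynomial.C = RingHom.id _ := by
    refine RingHom.ext fun a => ?_
    simp
  have h2 : (Polynomial.eval (z : MvPolynomial σ K)) ∘ (zsub (K := K) x e) =
      fun i => ∑ l : Fin r, (X (x l) : MvPolynomial σ K) *
        ((z ^ (e i * (l : ℕ)) : ℕ) : MvPolynomial σ K) := by
    funext i
    simp only [Function.comp_apply, zsub, Polynomial.eval_finsetSum, Polynomial.eval_mul,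
      Polynomial.eval_C, Polynomial.eval_pow, Polynomial.eval_X, Nat.cast_pow]
  rw [h1, h2]
  rfl

theorem block_nat {K σ ι : Type*} [Field K] [CharZero K] [Fintype ι] {r κ : ℕ}
    (x : Fin r → σ) (hx : Function.Injective x) (e : ι → ℕ) (he : Function.Injective e)
    (he0 : ∀ i, 0 < e i) (hk : Fintype.card ι + κ ≤ r)
    (g : MvPolynomial ι (MvPolynomial σ K)) (hg : g ≠ 0) (ha : Adm K κ g)
    (D E₀ : ℕ) (hD : g.totalDegree ≤ D) (hE : ∀ i, e i * r ≤ E₀) :
    ∃ z : ℕ, z ≤ D * E₀ ∧
      MvPolynomial.eval (fun i => ∑ l : Fin r, (X (x l) : MvPolynomial σ K) *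
        ((z ^ (e i * (l : ℕ)) : ℕ) : MvPolynomial σ K)) g ≠ 0 := by
  obtain ⟨θ, b, hb, -, hb2⟩ := ha
  have hg' : C b * g ≠ 0 := mul_ne_zero (fun h => hb (by simpa using h)) hg
  have h1 := block x hx e he he0 hk θ (C b * g) hg' hb2
  rw [MvPolynomial.eval₂_mul] at h1
  have hP := right_ne_zero_of_mul h1
  by_contra hcon
  push Not at hcon
  apply hP
  refine Polynomial.eq_zero_of_natDegree_lt_card_of_eval_eq_zero _
    (f := fun i : Fin (D * E₀ + 1) => (((i : ℕ) : ℕ) : MvPolynomial σ K)) ?_ ?_ ?_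
  · intro i j hij
    exact Fin.ext (Nat.cast_injective hij)
  · intro i
    have h2 := hcon (i : ℕ) (Nat.lt_succ_iff.mp i.2)
    rw [← BlockNat_eval] at h2
    exact h2
  · rw [Fintype.card_fin]
    exact Nat.lt_succ_of_le ((BlockNat_deg x e g E₀ hE).trans (Nat.mul_le_mul_right _ hD))

end Pool.Agent.KAL
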