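import Mathlib
import Pool.Agent.KAL.Defs

/-! # KAL-Gen.  The generator. -/

set_option autoImplicit false

namespace Pool.Agent.KAL

/-- names of the `5m + 3 + R` parameters `u_a, y_a` (`a < m`), `l_j, r_j, z_j` (`j ≤ m`), `X_t` (`t < R`) -/
abbrev Par (m R : ℕ) : Type :=
  Fin m ⊕ Fin m ⊕ Fin (m + 1) ⊕ Fin (m + 1) ⊕ Fin (m + 1) ⊕ Fin R

/-- `∏_(k < n, k ≠ i) (u - k)`: zero at the `k < n`, `k ≠ i`, and not at `i` -/
def pos {A : Type*} [CommRing A] (n i : ℕ) (u : A) : A :=
  ∏ k ∈ (Finset.range n).erase i, (u - (k : A))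

/-- `sum_(k ∈ T) (-1)^(n-k) C(n,k) ∏_(k' ≤ n, k' ≠ k) (u - k')`: at `u = c ≤ n` it is `n!` if
`c ∈ T` and `0` otherwise (`T ⊆ {0..n}`) -/
def ind {A : Type*} [CommRing A] (n : ℕ) (T : Finset ℕ) (u : A) : A :=
  ∑ k ∈ T, (-1) ^ (n - k) * (n.choose k : A) *
    ∏ k' ∈ (Finset.range (n + 1)).erase k, (u - (k' : A))

/-- the generator: `x_i = sum_a y_a pos_i(u_a) + sum_j [l_j ≤ i] [r_j > i] sum_t X_t z_j^((i+1) t)`, where
`n! [c ≤ i]` is the polynomial `ind n {0..i}` in `c` -/
def gen {A : Type*} [CommRing A] (n m R : ℕ) (q : Par m R → A) (i : Fin n) : A :=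
  let u : Fin m → A := fun a => q (.inl a)
  let y : Fin m → A := fun a => q (.inr (.inl a))
  let l : Fin (m + 1) → A := fun j => q (.inr (.inr (.inl j)))
  let r : Fin (m + 1) → A := fun j => q (.inr (.inr (.inr (.inl j))))
  let z : Fin (m + 1) → A := fun j => q (.inr (.inr (.inr (.inr (.inl j)))))
  let x : Fin R → A := fun t => q (.inr (.inr (.inr (.inr (.inr t)))))
  (∑ a, y a * pos n i (u a)) +
    ∑ j, ind n (Finset.range (i + 1)) (l j) * ind n (Finset.Ioc (i : ℕ) n) (r j) *
      ∑ t : Fin R, x t * z j ^ (((i : ℕ) + 1) * t)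

/-- the hitting set: the values of the generator on the grid `{0..N}^(5m+3+R)` -/
def hset (n m R N : ℕ) : Finset (Fin n → ℤ) :=
  (Fintype.piFinset fun _ : Par m R => Finset.range (N + 1)).image
    fun q => gen n m R fun k => (q k : ℤ)

theorem pos_map {A B : Type*} [CommRing A] [CommRing B] (f : A →+* B) (n i : ℕ) (u : A) :
    f (pos n i u) = pos n i (f u) := by
  unfold pos
  rw [map_prod]
  exact Finset.prod_congr rfl fun k _ => by rw [map_sub, map_natCast]

theorem ind_map {A B : Type*} [CommRing A] [CommRing B] (f : A →+* B) (n : ℕ) (T : Finset ℕ) (u : A) :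
    f (ind n T u) = ind n T (f u) := by
  unfold ind
  rw [map_sum]
  refine Finset.sum_congr rfl fun k _ => ?_
  rw [map_mul, map_mul, map_pow, map_neg, map_one, map_natCast, map_prod]
  congr 1
  exact Finset.prod_congr rfl fun k _ => by rw [map_sub, map_natCast]

theorem gen_map {A B : Type*} [CommRing A] [CommRing B] (f : A →+* B) (n m R : ℕ) (q : Par m R → A)
    (i : Fin n) : f (gen n m R q i) = gen n m R (fun k => f (q k)) i := by
  unfold gen
  simp only [map_add, map_sum, map_mul, map_pow, pos_map, ind_map]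

theorem hset_card (n m R N : ℕ) : (hset n m R N).card ≤ (N + 1) ^ (5 * m + 3 + R) := by
  classical
  unfold hset
  refine le_trans Finset.card_image_le ?_
  rw [Fintype.card_piFinset]
  simp only [Finset.card_range, Finset.prod_const, Finset.card_univ, Fintype.card_sum,
    Fintype.card_fin]
  refine le_of_eq ?_
  congr 1
  ring

end Pool.Agent.KAL
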