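import Mathlib
import Pool.Agent.KAL.Gen

/-! # KAL-GenD.  Degree and size of the generator. -/

set_option autoImplicit false

namespace Pool.Agent.KAL

open MvPolynomial

private theorem GenD_natCast_deg {σ K : Type*} [Field K] (k : ℕ) :
    ((k : MvPolynomial σ K)).totalDegree = 0 := by
  rw [← map_natCast (C : K →+* MvPolynomial σ K) k]
  exact totalDegree_C _

private theorem GenD_prod_deg {σ K : Type*} [Field K] (s : Finset ℕ) (v : σ) :
    (∏ k ∈ s, ((X v : MvPolynomial σ K) - (k : MvPolynomial σ K))).totalDegree ≤ s.card := by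
  refine le_trans (totalDegree_finsetProd _ _) ?_
  refine le_trans (Finset.sum_le_card_nsmul s _ 1 fun k _ => ?_) (by simp)
  refine le_trans (totalDegree_sub _ _) ?_
  refine max_le ?_ ?_
  · rw [totalDegree_X]
  · rw [GenD_natCast_deg]
    exact Nat.zero_le _

private theorem GenD_pos_deg {σ K : Type*} [Field K] (n i : ℕ) (hi : i < n) (v : σ) :
    (pos n i (X v : MvPolynomial σ K)).totalDegree + 1 ≤ n := by
  unfold pos
  have h := GenD_prod_deg (K := K) ((Finset.range n).erase i) v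
  rw [Finset.card_erase_of_mem (Finset.mem_range.2 hi), Finset.card_range] at h
  omega

private theorem GenD_ind_deg {σ K : Type*} [Field K] (n : ℕ) (T : Finset ℕ)
    (hT : ∀ k ∈ T, k ≤ n) (v : σ) :
    (ind n T (X v : MvPolynomial σ K)).totalDegree ≤ n := by
  unfold ind
  refine totalDegree_finsetSum_le fun k hk => ?_
  refine le_trans (totalDegree_mul _ _) ?_
  have h := GenD_prod_deg (K := K) ((Finset.range (n + 1)).erase k) v
  rw [Finset.card_erase_of_mem (Finset.mem_range.2 (Nat.lt_succ_of_le (hT k hk))),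
    Finset.card_range] at h
  have h2 : ((-1 : MvPolynomial σ K) ^ (n - k) * (n.choose k : MvPolynomial σ K)).totalDegree = 0 := by
    have h3 : ((-1 : MvPolynomial σ K) ^ (n - k) * (n.choose k : MvPolynomial σ K)) =
        C ((-1 : K) ^ (n - k) * (n.choose k : K)) := by
      rw [map_mul, map_pow, map_neg, map_one, map_natCast]
    rw [h3]
    exact totalDegree_C _
  rw [h2]
  omega

/-- every coordinate of the generator has total degree at most `n (R + 1) + 1` (`y_a pos`: `n`; the other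
summands: `n + n + 1 + (i + 1) t`, `t ≤ R - 1`) -/
theorem gen_degree {K : Type*} [Field K] (n m R : ℕ) (i : Fin n) :
    (gen n m R (X : Par m R → MvPolynomial (Par m R) K) i).totalDegree ≤ n * (R + 1) + 1 := by
  have hi := i.2
  unfold gen
  refine le_trans (totalDegree_add _ _) (max_le ?_ ?_)
  · refine totalDegree_finsetSum_le fun a _ => ?_
    refine le_trans (totalDegree_mul _ _) ?_
    have h1 := GenD_pos_deg (K := K) n i hi (Sum.inl a : Par m R)
    rw [totalDegree_X]
    have h2 : n ≤ n * (R + 1) := Nat.le_mul_of_pos_right n (Nat.succ_pos R)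
    have h3 : (pos n (i : ℕ) ((fun a : Fin m => (X (Sum.inl a) : MvPolynomial (Par m R) K)) a)).totalDegree
        + 1 ≤ n := h1
    omega
  · refine totalDegree_finsetSum_le fun j _ => ?_
    rcases Nat.eq_zero_or_pos R with hR | hR
    · subst hR
      simp
    · refine le_trans (totalDegree_mul _ _) ?_
      have hl : (ind n (Finset.range ((i : ℕ) + 1))
          (X (Sum.inr (Sum.inr (Sum.inl j))) : MvPolynomial (Par m R) K)).totalDegree ≤ n :=
        GenD_ind_deg n _ (fun k hk => by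
          have := Finset.mem_range.1 hk
          omega) _
      have hr : (ind n (Finset.Ioc (i : ℕ) n)
          (X (Sum.inr (Sum.inr (Sum.inr (Sum.inl j)))) : MvPolynomial (Par m R) K)).totalDegree ≤ n :=
        GenD_ind_deg n _ (fun k hk => (Finset.mem_Ioc.1 hk).2) _
      have hlr := totalDegree_mul
        (ind n (Finset.range ((i : ℕ) + 1))
          (X (Sum.inr (Sum.inr (Sum.inl j))) : MvPolynomial (Par m R) K))
        (ind n (Finset.Ioc (i : ℕ) n)
          (X (Sum.inr (Sum.inr (Sum.inr (Sum.inl j)))) : MvPolynomial (Par m R) K))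
      have hs : (∑ t : Fin R, (X (Sum.inr (Sum.inr (Sum.inr (Sum.inr (Sum.inr t))))) :
          MvPolynomial (Par m R) K) * (X (Sum.inr (Sum.inr (Sum.inr (Sum.inr (Sum.inl j))))) :
          MvPolynomial (Par m R) K) ^ (((i : ℕ) + 1) * (t : ℕ))).totalDegree ≤ 1 + n * (R - 1) := by
        refine totalDegree_finsetSum_le fun t _ => ?_
        refine le_trans (totalDegree_mul _ _) ?_
        rw [totalDegree_X, totalDegree_X_pow]
        have ht : (t : ℕ) ≤ R - 1 := by
          have := t.2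
          omega
        have := Nat.mul_le_mul (show (i : ℕ) + 1 ≤ n from hi) ht
        omega
      have e : n * (R + 1) + 1 = n + n + (1 + n * (R - 1)) := by
        obtain ⟨r, rfl⟩ : ∃ r, R = r + 1 := ⟨R - 1, by omega⟩
        rw [Nat.add_sub_cancel]
        ring
      rw [e]
      exact Nat.add_le_add (le_trans hlr (Nat.add_le_add hl hr)) hs

private theorem GenD_prod_abs (s : Finset ℕ) (u : ℤ) (Q : ℕ) (h : ∀ k ∈ s, |u - (k : ℤ)| ≤ Q) :
    |∏ k ∈ s, (u - (k : ℤ))| ≤ (Q : ℤ) ^ s.card := by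
  rw [Finset.abs_prod]
  refine le_trans (Finset.prod_le_prod (fun k _ => abs_nonneg _) h) ?_
  rw [Finset.prod_const]

private theorem GenD_abs_sub (n N u k : ℕ) (hu : u ≤ N) (hk : k ≤ n) :
    |(u : ℤ) - (k : ℤ)| ≤ ((N + n + 1 : ℕ) : ℤ) := by
  rw [abs_le]
  constructor <;> push_cast <;> omega

private theorem GenD_pos_abs (n N i u : ℕ) (hu : u ≤ N) :
    |pos n i (u : ℤ)| ≤ ((N + n + 1 : ℕ) : ℤ) ^ n := by
  unfold pos
  refine le_trans (GenD_prod_abs _ _ (N + n + 1) fun k hk => GenD_abs_sub n N u k hu ?_) ?_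
  · have := Finset.mem_range.1 (Finset.mem_of_mem_erase hk)
    omega
  · refine pow_le_pow_right₀ (by push_cast; omega) ?_
    refine le_trans (Finset.card_le_card (Finset.erase_subset _ _)) ?_
    rw [Finset.card_range]

private theorem GenD_ind_abs (n N u : ℕ) (T : Finset ℕ) (hT : T ⊆ Finset.range (n + 1)) (hu : u ≤ N) :
    |ind n T (u : ℤ)| ≤ 2 ^ n * ((N + n + 1 : ℕ) : ℤ) ^ n := by
  unfold ind
  refine le_trans (Finset.abs_sum_le_sum_abs _ _) ?_
  have h1 : ∀ k ∈ T, |(-1 : ℤ) ^ (n - k) * (n.choose k : ℤ) *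
      ∏ k' ∈ (Finset.range (n + 1)).erase k, ((u : ℤ) - (k' : ℤ))| ≤
      (n.choose k : ℤ) * ((N + n + 1 : ℕ) : ℤ) ^ n := by
    intro k hk
    rw [abs_mul, abs_mul, abs_pow, abs_neg, abs_one, one_pow, one_mul, Nat.abs_cast]
    refine mul_le_mul_of_nonneg_left ?_ (Int.natCast_nonneg _)
    refine le_trans (GenD_prod_abs _ _ (N + n + 1) fun k' hk' => GenD_abs_sub n N u k' hu ?_) ?_
    · have := Finset.mem_range.1 (Finset.mem_of_mem_erase hk')
      omega
    · refine pow_le_pow_right₀ (by push_cast; omega) ?_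
      rw [Finset.card_erase_of_mem (hT hk), Finset.card_range]
      omega
  refine le_trans (Finset.sum_le_sum h1) ?_
  rw [← Finset.sum_mul]
  refine mul_le_mul_of_nonneg_right ?_ (pow_nonneg (Int.natCast_nonneg _) _)
  have h2 : ∑ k ∈ T, n.choose k ≤ 2 ^ n := by
    rw [← Nat.sum_range_choose]
    exact Finset.sum_le_sum_of_subset hT
  exact_mod_cast h2

/-- the points have integer coordinates of size exponential in `n R` times `log`: with
`Q = N + n + 1` (`|u - k| ≤ Q`, `C(n,k) ≤ 2^n`) -/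
theorem hset_bound (n m R N : ℕ) (x : Fin n → ℤ) (hx : x ∈ hset n m R N) (i : Fin n) :
    |x i| ≤ ((m + 1) * (R + 1) * (2 * (N + n + 1)) ^ (n * (R + 1) + 1) : ℕ) := by
  unfold hset at hx
  obtain ⟨q, hq, rfl⟩ := Finset.mem_image.1 hx
  have hqN : ∀ k, q k ≤ N := fun k => by
    have := Finset.mem_range.1 (Fintype.mem_piFinset.1 hq k)
    omega
  have hi := i.2
  set Q : ℤ := ((N + n + 1 : ℕ) : ℤ) with hQ
  have hQ1 : (1 : ℤ) ≤ Q := by rw [hQ]; push_cast; omega
  have hQ0 : (0 : ℤ) ≤ Q := by omega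
  have hNQ : ∀ k, ((q k : ℕ) : ℤ) ≤ Q := fun k => by
    have := hqN k
    rw [hQ]; push_cast; omega
  set E : ℕ := n * (R + 1) + 1 with hE
  set W : ℤ := (2 * Q) ^ E with hW
  have hW0 : 0 ≤ W := pow_nonneg (by omega) _
  have hfirst : |∑ a : Fin m, ((q (.inr (.inl a)) : ℕ) : ℤ) * pos n (i : ℕ) ((q (.inl a) : ℕ) : ℤ)| ≤
      m * W := by
    refine le_trans (Finset.abs_sum_le_sum_abs _ _) ?_
    refine le_trans (Finset.sum_le_card_nsmul _ _ (Q * Q ^ n) fun a _ => ?_) ?_
    · rw [abs_mul, Nat.abs_cast]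
      exact mul_le_mul (hNQ _) (GenD_pos_abs n N i _ (hqN _)) (abs_nonneg _) hQ0
    · rw [Finset.card_univ, Fintype.card_fin, nsmul_eq_mul]
      refine mul_le_mul_of_nonneg_left ?_ (Int.natCast_nonneg _)
      rw [← pow_succ']
      calc Q ^ (n + 1) ≤ (2 * Q) ^ (n + 1) := pow_le_pow_left₀ hQ0 (by omega) _
        _ ≤ (2 * Q) ^ E := pow_le_pow_right₀ (by omega) (by
            have h7 : n ≤ n * (R + 1) := Nat.le_mul_of_pos_right n (Nat.succ_pos R)
            rw [hE]
            omega)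
  have hsecond : |∑ j : Fin (m + 1), ind n (Finset.range ((i : ℕ) + 1)) ((q (.inr (.inr (.inl j))) : ℕ) : ℤ) *
      ind n (Finset.Ioc (i : ℕ) n) ((q (.inr (.inr (.inr (.inl j)))) : ℕ) : ℤ) *
      ∑ t : Fin R, ((q (.inr (.inr (.inr (.inr (.inr t))))) : ℕ) : ℤ) *
        ((q (.inr (.inr (.inr (.inr (.inl j))))) : ℕ) : ℤ) ^ (((i : ℕ) + 1) * (t : ℕ))| ≤
      (m + 1) * (R * W) := by
    refine le_trans (Finset.abs_sum_le_sum_abs _ _) ?_
    refine le_trans (Finset.sum_le_card_nsmul _ _ (R * W) fun j _ => ?_) ?_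
    · rw [abs_mul, abs_mul]
      have h1 := GenD_ind_abs n N (q (.inr (.inr (.inl j)))) (Finset.range ((i : ℕ) + 1))
        (fun k hk => by
          have := Finset.mem_range.1 hk
          exact Finset.mem_range.2 (by omega)) (hqN _)
      have h2 := GenD_ind_abs n N (q (.inr (.inr (.inr (.inl j))))) (Finset.Ioc (i : ℕ) n)
        (fun k hk => by
          have := (Finset.mem_Ioc.1 hk).2
          exact Finset.mem_range.2 (by omega)) (hqN _)
      have h3 : |∑ t : Fin R, ((q (.inr (.inr (.inr (.inr (.inr t))))) : ℕ) : ℤ) *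
          ((q (.inr (.inr (.inr (.inr (.inl j))))) : ℕ) : ℤ) ^ (((i : ℕ) + 1) * (t : ℕ))| ≤
          R * (Q * Q ^ (n * (R - 1))) := by
        refine le_trans (Finset.abs_sum_le_sum_abs _ _) ?_
        refine le_trans (Finset.sum_le_card_nsmul _ _ (Q * Q ^ (n * (R - 1))) fun t _ => ?_) ?_
        · rw [abs_mul, abs_pow, Nat.abs_cast, Nat.abs_cast]
          refine mul_le_mul (hNQ _) ?_ (pow_nonneg (Int.natCast_nonneg _) _) hQ0
          refine le_trans (pow_le_pow_left₀ (Int.natCast_nonneg _) (hNQ _) _) ?_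
          refine pow_le_pow_right₀ hQ1 ?_
          have ht : (t : ℕ) ≤ R - 1 := by
            have := t.2
            omega
          exact Nat.mul_le_mul (show (i : ℕ) + 1 ≤ n from hi) ht
        · rw [Finset.card_univ, Fintype.card_fin, nsmul_eq_mul]
      have hZ : (0 : ℤ) ≤ 2 ^ n * Q ^ n := mul_nonneg (by positivity) (pow_nonneg hQ0 _)
      refine le_trans (mul_le_mul (mul_le_mul h1 h2 (abs_nonneg _) hZ) h3 (abs_nonneg _)
        (mul_nonneg hZ hZ)) ?_
      rcases Nat.eq_zero_or_pos R with hR | hR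
      · subst hR
        simp
      · have e : 2 ^ n * Q ^ n * (2 ^ n * Q ^ n) * (R * (Q * Q ^ (n * (R - 1)))) =
            R * (2 ^ (2 * n) * Q ^ E) := by
          obtain ⟨r, rfl⟩ : ∃ r, R = r + 1 := ⟨R - 1, by omega⟩
          rw [hE, Nat.add_sub_cancel]
          ring
        have h4 : (2 : ℤ) ^ (2 * n) * Q ^ E ≤ W := by
          rw [hW, mul_pow]
          refine mul_le_mul_of_nonneg_right (pow_le_pow_right₀ (by norm_num) ?_) (pow_nonneg hQ0 _)
          have := Nat.mul_le_mul_left n (show 2 ≤ R + 1 by omega)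
          rw [hE]
          omega
        calc 2 ^ n * Q ^ n * (2 ^ n * Q ^ n) * (R * (Q * Q ^ (n * (R - 1))))
            = R * (2 ^ (2 * n) * Q ^ E) := e
          _ ≤ R * W := mul_le_mul_of_nonneg_left h4 (Int.natCast_nonneg _)
    · rw [Finset.card_univ, Fintype.card_fin, nsmul_eq_mul]
      push_cast
      exact le_refl _
  have htot : |gen n m R (fun k => ((q k : ℕ) : ℤ)) i| ≤ m * W + (m + 1) * (R * W) := by
    unfold gen
    exact le_trans (abs_add_le _ _) (add_le_add hfirst hsecond)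
  refine le_trans htot ?_
  have h5 : ((((m + 1) * (R + 1) * (2 * (N + n + 1)) ^ (n * (R + 1) + 1) : ℕ) : ℤ)) =
      (m + 1) * (R + 1) * W := by
    rw [hW, hE, hQ]
    push_cast
    ring
  rw [h5]
  have h6 : (0 : ℤ) ≤ (m : ℤ) := Int.natCast_nonneg _
  nlinarith

end Pool.Agent.KAL
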