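import Mathlib
import Pool.Agent.KAL.Gen

/-! # KAL-GenV.  Values of `pos`, `ind`, level sets of `blk`. -/

set_option autoImplicit false

namespace Pool.Agent.KAL

theorem pos_zero {A : Type*} [CommRing A] {n i p : ℕ} (hp : p < n) (hpi : p ≠ i) :
    pos n i ((p : ℕ) : A) = 0 := by
  unfold pos
  refine Finset.prod_eq_zero (i := p) ?_ (sub_self _)
  rw [Finset.mem_erase, Finset.mem_range]
  exact ⟨hpi, hp⟩

theorem pos_ne {K : Type*} [Field K] [CharZero K] (n i : ℕ) : pos n i ((i : ℕ) : K) ≠ 0 := by
  unfold pos
  rw [Finset.prod_ne_zero_iff]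
  intro k hk h
  rw [Finset.mem_erase] at hk
  exact hk.1 (Nat.cast_injective (sub_eq_zero.1 h)).symm

private theorem GenV_down (c : ℕ) {A : Type*} [CommRing A] :
    ∏ k ∈ Finset.range c, (((c : ℕ) : A) - (k : A)) = (c.factorial : A) := by
  induction c with
  | zero => simp
  | succ c ih =>
    rw [Finset.prod_range_succ']
    have h1 : ∏ k ∈ Finset.range c, (((c + 1 : ℕ) : A) - ((k + 1 : ℕ) : A)) = (c.factorial : A) := by
      rw [← ih]
      refine Finset.prod_congr rfl fun k _ => ?_
      push_cast
      ring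
    rw [h1, Nat.factorial_succ]
    push_cast
    ring

private theorem GenV_up (c m : ℕ) {A : Type*} [CommRing A] :
    ∏ k ∈ Finset.range m, (((c : ℕ) : A) - ((c + 1 + k : ℕ) : A)) =
      (-1) ^ m * (m.factorial : A) := by
  induction m with
  | zero => simp
  | succ m ih =>
    rw [Finset.prod_range_succ, ih, Nat.factorial_succ, pow_succ]
    push_cast
    ring

private theorem GenV_val {A : Type*} [CommRing A] {n c : ℕ} (hc : c ≤ n) :
    (-1) ^ (n - c) * (n.choose c : A) *
      ∏ k' ∈ (Finset.range (n + 1)).erase c, (((c : ℕ) : A) - (k' : A)) = (n.factorial : A) := by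
  obtain ⟨m, rfl⟩ := Nat.exists_eq_add_of_le hc
  have h1 : (Finset.range (c + m + 1)).erase c =
      Finset.range c ∪ (Finset.range m).image (fun k => c + 1 + k) := by
    ext k
    simp only [Finset.mem_erase, Finset.mem_range, Finset.mem_union, Finset.mem_image]
    constructor
    · rintro ⟨h2, h3⟩
      by_cases h4 : k < c
      · exact Or.inl h4
      · exact Or.inr ⟨k - (c + 1), by omega, by omega⟩
    · rintro (h2 | ⟨k', h2, rfl⟩)
      · omega
      · omega
  have h2 : Disjoint (Finset.range c) ((Finset.range m).image (fun k => c + 1 + k)) := by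
    rw [Finset.disjoint_left]
    intro k hk hk'
    rw [Finset.mem_range] at hk
    rw [Finset.mem_image] at hk'
    obtain ⟨k', -, rfl⟩ := hk'
    omega
  rw [h1, Finset.prod_union h2, Finset.prod_image (by intro a _ b _ h; simpa using h), GenV_down,
    GenV_up]
  have h3 : c + m - c = m := by omega
  rw [h3]
  have h4 : ((c + m).choose c : A) * (c.factorial : A) * (m.factorial : A) = ((c + m).factorial : A) := by
    have h5 := Nat.choose_mul_factorial_mul_factorial hc
    rw [show c + m - c = m by omega] at h5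
    rw [← h5]
    push_cast
    ring
  have h6 : ((-1 : A) ^ m) * (-1) ^ m = 1 := by
    rw [← mul_pow]
    simp
  calc (-1 : A) ^ m * ((c + m).choose c : A) * ((c.factorial : A) * ((-1) ^ m * (m.factorial : A)))
      = ((-1 : A) ^ m * (-1) ^ m) * (((c + m).choose c : A) * (c.factorial : A) * (m.factorial : A)) := by
        ring
    _ = _ := by rw [h6, h4, one_mul]

/-- Lagrange interpolation: `n! = c! (n-c)! C(n,c)` and the product at `k = c` is
`c! (-1)^(n-c) (n-c)!` -/
theorem ind_val {A : Type*} [CommRing A] {n c : ℕ} (T : Finset ℕ) (hT : T ⊆ Finset.range (n + 1))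
    (hc : c ≤ n) : ind n T ((c : ℕ) : A) = if c ∈ T then (n.factorial : A) else 0 := by
  unfold ind
  have h0 : ∀ k, k ≠ c → (-1 : A) ^ (n - k) * (n.choose k : A) *
      ∏ k' ∈ (Finset.range (n + 1)).erase k, (((c : ℕ) : A) - (k' : A)) = 0 := by
    intro k hk
    have : ∏ k' ∈ (Finset.range (n + 1)).erase k, (((c : ℕ) : A) - (k' : A)) = 0 := by
      refine Finset.prod_eq_zero (i := c) ?_ (sub_self _)
      rw [Finset.mem_erase, Finset.mem_range]
      exact ⟨hk.symm, by omega⟩
    rw [this, mul_zero]
  split_ifs with h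
  · rw [Finset.sum_eq_single c (fun k _ hk => h0 k hk) (fun h' => absurd h h')]
    exact GenV_val hc
  · refine Finset.sum_eq_zero fun k hk => h0 k ?_
    rintro rfl
    exact h hk

/-- the blocks are intervals: `l j = #{i < n : blk i < j}`, `r j = #{i < n : blk i ≤ j}` -/
theorem blk_cut {m : ℕ} (n : ℕ) (c : Fin m → ℕ) :
    ∃ l r : Fin (m + 1) → ℕ, (∀ j, l j ≤ n ∧ r j ≤ n) ∧
      ∀ (i : Fin n) (j : Fin (m + 1)), (l j ≤ i ∧ (i : ℕ) < r j) ↔ blk c i = j := by
  classical
  have hmono : ∀ i i' : ℕ, i ≤ i' → (blk c i : ℕ) ≤ (blk c i' : ℕ) := by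
    intro i i' h
    show (Finset.univ.filter fun a => c a ≤ i).card ≤ (Finset.univ.filter fun a => c a ≤ i').card
    refine Finset.card_le_card fun a ha => ?_
    rw [Finset.mem_filter] at ha ⊢
    exact ⟨ha.1, ha.2.trans h⟩
  -- number of `i < n` with `blk i < t`
  have key : ∀ t : ℕ, ∃ q : ℕ, q ≤ n ∧ ∀ i : ℕ, i < n → (i < q ↔ (blk c i : ℕ) < t) := by
    intro t
    refine ⟨((Finset.range n).filter fun i => (blk c i : ℕ) < t).card, ?_, ?_⟩
    · exact (Finset.card_filter_le _ _).trans (by rw [Finset.card_range])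
    · intro i hi
      constructor
      · intro h
        by_contra h1
        have h2 : ((Finset.range n).filter fun i => (blk c i : ℕ) < t) ⊆ Finset.range i := by
          intro i' hi'
          rw [Finset.mem_filter] at hi'
          rw [Finset.mem_range]
          by_contra h3
          exact h1 (lt_of_le_of_lt (hmono i i' (by omega)) hi'.2)
        have h3 := Finset.card_le_card h2
        rw [Finset.card_range] at h3
        omega
      · intro h
        have h2 : Finset.range (i + 1) ⊆ ((Finset.range n).filter fun i => (blk c i : ℕ) < t) := by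
          intro i' hi'
          rw [Finset.mem_range] at hi'
          rw [Finset.mem_filter, Finset.mem_range]
          exact ⟨by omega, lt_of_le_of_lt (hmono i' i (by omega)) h⟩
        have h3 := Finset.card_le_card h2
        rw [Finset.card_range] at h3
        omega
  choose q hqn hq using key
  refine ⟨fun j => q j, fun j => q (j + 1), fun j => ⟨hqn _, hqn _⟩, fun i j => ?_⟩
  have h1 := hq j i i.2
  have h2 := hq (j + 1) i i.2
  rw [h2, Fin.ext_iff]
  constructor
  · rintro ⟨h3, h4⟩
    have h5 : ¬ (blk c i : ℕ) < j := fun h => absurd (h1.2 h) (not_lt.2 h3)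
    omega
  · intro h3
    refine ⟨?_, by omega⟩
    by_contra h4
    have h4' : ¬ q j ≤ (i : ℕ) := h4
    have := h1.1 (by omega)
    omega

end Pool.Agent.KAL
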