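import Mathlib
import Pool.Agent.KAL.Defs

/-! # KAL-Part.  Heavy variables and interval blocks.

PLAN. `heavy = {i | ρ < occ i}`; `(ρ+1) * heavy.card ≤ ∑ occ ≤ ρ m`, so `heavy.card ≤ m`; enumerate:
`p a` = the `a`-th heavy index for `a < heavy.card`, `p a = n` otherwise (`Finset.orderEmbOfFin` or
`Finset.equivFin`).
`S k = ∑ (i < k, i not heavy), occ i` (`k ≤ n`), `c a` = the least `k ≤ n` with `(a+1) ρ ≤ S k`, or `n` if there
is none. For `i < n`: `c a ≤ i ↔ (a+1) ρ ≤ S i` (`S` is monotone; if there is none then `c a = n > i`; note that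
`S i ≥ (a+1)ρ` implies existence).  So `blk c i` counts the `a < m` with `(a+1) ρ ≤ S i`: for `blk c i = j < m`
we have `j ρ ≤ S i < (j+1) ρ`; for `j = m`: `m ρ ≤ S i`, and then all later non-heavy `occ` vanish because
`S n ≤ ρ m`.
Sum over a block `j` (non-heavy `i` with `blk c i = j`): let `i₁` be its largest element, `i₀` its smallest;
`∑ (i in the block, i < i₁) occ i ≤ S i₁ - S i₀ ≤ ρ` and `occ i₁ ≤ ρ`. -/

set_option autoImplicit false

namespace Pool.Agent.KAL

/-- partial sums of the light occurrences -/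
private def Part_S {n : ℕ} (ρ : ℕ) (occ : Fin n → ℕ) (k : ℕ) : ℕ :=
  ∑ i ∈ Finset.univ.filter (fun i : Fin n => (i : ℕ) < k ∧ occ i ≤ ρ), occ i

private theorem Part_S_mono {n : ℕ} (ρ : ℕ) (occ : Fin n → ℕ) {k l : ℕ} (h : k ≤ l) :
    Part_S ρ occ k ≤ Part_S ρ occ l := by
  unfold Part_S
  apply Finset.sum_le_sum_of_subset
  intro i hi
  simp only [Finset.mem_filter, Finset.mem_univ, true_and] at hi ⊢
  exact ⟨by omega, hi.2⟩

private theorem Part_S_le {n : ℕ} (ρ : ℕ) (occ : Fin n → ℕ) (k : ℕ) :
    Part_S ρ occ k ≤ ∑ i, occ i := by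
  unfold Part_S
  apply Finset.sum_le_sum_of_subset
  intro i hi
  exact Finset.mem_univ i

private theorem Part_card {m ρ x : ℕ} (hρ : 0 < ρ) :
    (Finset.univ.filter (fun a : Fin m => ((a : ℕ) + 1) * ρ ≤ x)).card = min m (x / ρ) := by
  have h : (Finset.univ.filter (fun a : Fin m => ((a : ℕ) + 1) * ρ ≤ x)) =
      Finset.univ.filter (fun a : Fin m => (a : ℕ) < x / ρ) := by
    ext a
    simp only [Finset.mem_filter, Finset.mem_univ, true_and]
    rw [← Nat.le_div_iff_mul_le hρ]
    omega
  rw [h]
  exact Fin.card_filter_val_lt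

theorem partition (n ρ m : ℕ) (hρ : 0 < ρ) (occ : Fin n → ℕ) (hs : ∑ i, occ i ≤ ρ * m) :
    ∃ p c : Fin m → ℕ, (∀ a, p a ≤ n) ∧ (∀ a, c a ≤ n) ∧
      (∀ a a', p a = p a' → p a < n → a = a') ∧
      ∀ j : Fin (m + 1),
        ∑ i ∈ Finset.univ.filter (fun i : Fin n => (∀ a, p a ≠ (i : ℕ)) ∧ blk c i = j), occ i ≤ 2 * ρ := by
  classical
  set H : Finset (Fin n) := Finset.univ.filter (fun i => ρ < occ i) with hH
  have hcard : H.card ≤ m := by
    have h1 : H.card • (ρ + 1) ≤ ∑ i ∈ H, occ i := by
      apply Finset.card_nsmul_le_sum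
      intro i hi
      simp only [hH, Finset.mem_filter, Finset.mem_univ, true_and] at hi
      omega
    have h2 : ∑ i ∈ H, occ i ≤ ∑ i, occ i :=
      Finset.sum_le_sum_of_subset (Finset.subset_univ _)
    rw [smul_eq_mul] at h1
    by_contra hlt
    have h3 : (m + 1) * (ρ + 1) ≤ H.card * (ρ + 1) := Nat.mul_le_mul_right _ (by omega)
    nlinarith
  let p : Fin m → ℕ := fun a =>
    if h : (a : ℕ) < H.card then ((H.orderEmbOfFin rfl ⟨a, h⟩ : Fin n) : ℕ) else n
  let c : Fin m → ℕ := fun a =>
    if h : ∃ k, k ≤ n ∧ ((a : ℕ) + 1) * ρ ≤ Part_S ρ occ k then Nat.find h else n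
  have hc : ∀ (a : Fin m) (i : Fin n), c a ≤ (i : ℕ) ↔ ((a : ℕ) + 1) * ρ ≤ Part_S ρ occ i := by
    intro a i
    have hi := i.isLt
    by_cases h : ∃ k, k ≤ n ∧ ((a : ℕ) + 1) * ρ ≤ Part_S ρ occ k
    · have hca : c a = Nat.find h := by simp only [c, dif_pos h]
      rw [hca]
      constructor
      · intro hle
        exact (Nat.find_spec h).2.trans (Part_S_mono ρ occ hle)
      · intro hle
        exact Nat.find_min' h ⟨hi.le, hle⟩
    · have hca : c a = n := by simp only [c, dif_neg h]
      rw [hca]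
      constructor
      · intro hle
        omega
      · intro hle
        exact absurd ⟨(i : ℕ), hi.le, hle⟩ h
  have hblk : ∀ i : Fin n, ((blk c i : Fin (m + 1)) : ℕ) = min m (Part_S ρ occ i / ρ) := by
    intro i
    rw [← Part_card (m := m) hρ]
    show (Finset.univ.filter fun a => c a ≤ (i : ℕ)).card = _
    congr 1
    ext a
    simp only [Finset.mem_filter, Finset.mem_univ, true_and]
    exact hc a i
  have hlight : ∀ i : Fin n, (∀ a, p a ≠ (i : ℕ)) → occ i ≤ ρ := by
    intro i hi
    by_contra hgt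
    have hmem : i ∈ H := by
      simp only [hH, Finset.mem_filter, Finset.mem_univ, true_and]
      omega
    have hr : i ∈ Set.range (H.orderEmbOfFin rfl) := by
      rw [Finset.range_orderEmbOfFin]
      exact hmem
    obtain ⟨b, hb⟩ := hr
    have hbm : (b : ℕ) < m := lt_of_lt_of_le b.isLt hcard
    apply hi ⟨b, hbm⟩
    simp only [p]
    rw [dif_pos b.isLt, ← hb]
  refine ⟨p, c, ?_, ?_, ?_, ?_⟩
  · intro a
    simp only [p]
    split_ifs with h
    · exact (Fin.isLt _).le
    · exact le_rfl
  · intro a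
    simp only [c]
    split_ifs with h
    · exact (Nat.find_spec h).1
    · exact le_rfl
  · intro a a' he hlt
    simp only [p] at he hlt
    by_cases h : (a : ℕ) < H.card
    · rw [dif_pos h] at he hlt
      by_cases h' : (a' : ℕ) < H.card
      · rw [dif_pos h'] at he
        have := (H.orderEmbOfFin rfl).injective (Fin.ext he)
        have h3 := congrArg Fin.val this
        exact Fin.ext h3
      · rw [dif_neg h'] at he
        omega
    · rw [dif_neg h] at hlt
      omega
  · intro j
    set B : Finset (Fin n) :=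
      Finset.univ.filter (fun i : Fin n => (∀ a, p a ≠ (i : ℕ)) ∧ blk c i = j) with hB
    rcases B.eq_empty_or_nonempty with he | hne
    · rw [he]
      simp
    · set i₁ := B.max' hne with hi₁
      set i₀ := B.min' hne with hi₀
      have hm₁ : i₁ ∈ B := B.max'_mem hne
      have hm₀ : i₀ ∈ B := B.min'_mem hne
      have hd₁ := (Finset.mem_filter.1 hm₁).2
      have hd₀ := (Finset.mem_filter.1 hm₀).2
      have e₁ := hblk i₁
      have e₀ := hblk i₀
      rw [hd₁.2] at e₁
      rw [hd₀.2] at e₀
      have hsum : ∑ i ∈ B.erase i₁, occ i + Part_S ρ occ i₀ ≤ Part_S ρ occ i₁ := by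
        unfold Part_S
        rw [← Finset.sum_union]
        · apply Finset.sum_le_sum_of_subset
          intro i hi
          rw [Finset.mem_union] at hi
          simp only [Finset.mem_filter, Finset.mem_univ, true_and]
          rcases hi with hi | hi
          · have hiB := Finset.mem_of_mem_erase hi
            have hne' := Finset.ne_of_mem_erase hi
            have hle := B.le_max' i hiB
            have hlt : i < i₁ := lt_of_le_of_ne hle hne'
            exact ⟨hlt, hlight i (Finset.mem_filter.1 hiB).2.1⟩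
          · simp only [Finset.mem_filter, Finset.mem_univ, true_and] at hi
            have hle : i₀ ≤ i₁ := B.le_max' i₀ hm₀
            exact ⟨lt_of_lt_of_le hi.1 hle, hi.2⟩
        · rw [Finset.disjoint_left]
          intro i hi hi'
          have hiB := Finset.mem_of_mem_erase hi
          have hle : i₀ ≤ i := B.min'_le i hiB
          simp only [Finset.mem_filter, Finset.mem_univ, true_and] at hi'
          have : (i₀ : ℕ) ≤ i := hle
          omega
      have hdiff : Part_S ρ occ i₁ ≤ Part_S ρ occ i₀ + ρ := by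
        have h0 := Nat.div_mul_le_self (Part_S ρ occ i₀) ρ
        have h1 := Nat.lt_div_mul_add (a := Part_S ρ occ i₁) hρ
        rcases Nat.lt_or_ge (Part_S ρ occ i₁ / ρ) m with h | h
        · have h2 : Part_S ρ occ i₁ / ρ ≤ Part_S ρ occ i₀ / ρ := by omega
          have h3 := Nat.mul_le_mul_right ρ h2
          omega
        · have h2 : m ≤ Part_S ρ occ i₀ / ρ := by omega
          have h3 := Nat.mul_le_mul_right ρ h2
          have h4 := Part_S_le ρ occ (i₁ : ℕ)
          have h5 : m * ρ = ρ * m := Nat.mul_comm _ _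
          omega
      have hlast : occ i₁ ≤ ρ := hlight i₁ hd₁.1
      rw [← Finset.add_sum_erase B occ hm₁]
      omega

end Pool.Agent.KAL
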