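import Mathlib
import Pool.Agent.KAL.Defs

/-! # KAL-Lim.  Reductions of polynomials whose coefficients have small transcendence degree. -/

set_option autoImplicit false

namespace Pool.Agent.KAL

open MvPolynomial

private theorem Lim_dep {K B : Type*} [Field K] [CommRing B] [IsDomain B] [Algebra K B] {κ : ℕ}
    (θ : Fin κ → B) (c : Fin (κ + 1) → B)
    (hc : ∀ i, IsAlgebraic (Algebra.adjoin K (Set.range θ)) (c i)) : ¬ AlgebraicIndependent K c := by
  intro h
  have hI : (AlgebraicIndependent.matroid K B).Indep (Set.range c) :=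
    AlgebraicIndependent.matroid_indep_iff.2 h.to_subtype_range
  have h1 : Set.range c ⊆ (AlgebraicIndependent.matroid K B).closure (Set.range θ) := by
    rw [AlgebraicIndependent.matroid_closure_eq]
    rintro _ ⟨i, rfl⟩
    exact hc i
  have h2 := hI.encard_le_eRk_of_subset h1
  rw [Matroid.eRk_closure_eq] at h2
  have h3 : (Set.range c).encard = ((κ + 1 : ℕ) : ℕ∞) := by
    rw [← Set.image_univ, h.injective.encard_image, Set.encard_univ, ENat.card_eq_coe_fintype_card,
      Fintype.card_fin]
  have h4 : (Set.range θ).encard ≤ (κ : ℕ∞) := by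
    rw [← Set.image_univ]
    refine (Set.encard_image_le _ _).trans ?_
    rw [Set.encard_univ, ENat.card_eq_coe_fintype_card, Fintype.card_fin]
  have h5 := h2.trans ((Matroid.eRk_le_encard _ _).trans h4)
  rw [h3] at h5
  have h6 := Nat.cast_le.1 h5
  omega

private theorem Lim_sel {K B : Type*} [Field K] [CommRing B] [IsDomain B] [Algebra K B] {κ : ℕ}
    (T : Set B) (hT : ∀ c : Fin (κ + 1) → B, (∀ i, c i ∈ T) → ¬ AlgebraicIndependent K c) :
    ∃ θ : Fin κ → B, ∀ t ∈ T, IsAlgebraic (Algebra.adjoin K (Set.range θ)) t := by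
  obtain ⟨I, hI⟩ := (AlgebraicIndependent.matroid K B).exists_isBasis T (Set.subset_univ _)
  obtain ⟨h1, h2, h3⟩ := AlgebraicIndependent.matroid_isBasis_iff.1 hI
  have hcard : I.encard ≤ (κ : ℕ∞) := by
    by_contra hlt
    rw [not_le] at hlt
    have h4 : ((κ + 1 : ℕ) : ℕ∞) ≤ I.encard := by
      rw [Nat.cast_add, Nat.cast_one]
      exact Order.add_one_le_of_lt hlt
    obtain ⟨J, hJ, hJc⟩ := Set.exists_subset_encard_eq h4
    have hJf : J.Finite := Set.finite_of_encard_eq_coe hJc
    have := hJf.fintype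
    have hJn : Fintype.card J = κ + 1 := by
      rw [Set.encard_eq_coe_toFinset_card] at hJc
      have := Nat.cast_injective hJc
      rwa [Set.toFinset_card] at this
    obtain ⟨e⟩ : Nonempty (Fin (κ + 1) ≃ J) := ⟨(Fintype.equivFinOfCardEq hJn).symm⟩
    refine hT (fun i => (e i : B)) (fun i => h2 (hJ (e i).2)) ?_
    have h5 : AlgebraicIndependent K (fun x : J => (x : B)) :=
      (AlgebraicIndependent.matroid_indep_iff.1
        ((AlgebraicIndependent.matroid_indep_iff.2 h1).subset hJ) : AlgebraicIndepOn K id J)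
    exact h5.comp e e.injective
  have hIf : I.Finite := Set.finite_of_encard_le_coe hcard
  have := hIf.fintype
  have hIn : Fintype.card I ≤ κ := by
    rw [Set.encard_eq_coe_toFinset_card] at hcard
    have := Nat.cast_le.1 hcard
    rwa [Set.toFinset_card] at this
  have e := Fintype.equivFin I
  refine ⟨fun i => if h : (i : ℕ) < Fintype.card I then (e.symm ⟨i, h⟩ : B) else 0, fun t ht => ?_⟩
  have h6 : I ⊆ Set.range fun i : Fin κ => if h : (i : ℕ) < Fintype.card I then
      (e.symm ⟨i, h⟩ : B) else 0 := by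
    intro x hx
    refine ⟨⟨e ⟨x, hx⟩, (e ⟨x, hx⟩).2.trans_le hIn⟩, ?_⟩
    show (if h : ((e ⟨x, hx⟩ : Fin _) : ℕ) < Fintype.card I then (e.symm ⟨_, h⟩ : B) else 0) = x
    rw [dif_pos (e ⟨x, hx⟩).2]
    simp
  exact (h3 t ht).adjoin_of_forall_isAlgebraic fun x hx =>
    isAlgebraic_algebraMap (⟨x, Algebra.subset_adjoin (h6 hx.1)⟩ : Algebra.adjoin K _)

section red

variable {O K F : Type*} [CommRing O] [IsDomain O] [ValuationRing O] [Field K] [Algebra O K]
  [IsFractionRing O K] [Field F]

private theorem Lim_scale {τ : Type*} (Q : MvPolynomial τ K) (hQ : Q ≠ 0) :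
    ∃ (c : K) (Q' : MvPolynomial τ O) (μ : τ →₀ ℕ), c ≠ 0 ∧ coeff μ Q' = 1 ∧
      MvPolynomial.map (algebraMap O K) Q' = C c * Q := by
  classical
  obtain ⟨ν, hν⟩ := MvPolynomial.ne_zero_iff.1 hQ
  obtain ⟨μ, hμ, hmax⟩ := Finset.exists_max_image Q.support
    (fun μ => ValuationRing.valuation O K (coeff μ Q)) ⟨ν, mem_support_iff.2 hν⟩
  have h0 : coeff μ Q ≠ 0 := mem_support_iff.1 hμ
  have hv0 : (ValuationRing.valuation O K) (coeff μ Q) ≠ 0 :=
    ((ValuationRing.valuation O K).ne_zero_iff).2 h0
  have hq : ∀ l, ∃ o : O, algebraMap O K o = (coeff μ Q)⁻¹ * coeff l Q := by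
    intro l
    by_cases hl : l ∈ Q.support
    · refine (ValuationRing.mem_integer_iff O K _).1 ?_
      show (ValuationRing.valuation O K) ((coeff μ Q)⁻¹ * coeff l Q) ≤ 1
      rw [map_mul, map_inv₀]
      calc _ ≤ ((ValuationRing.valuation O K) (coeff μ Q))⁻¹ *
            (ValuationRing.valuation O K) (coeff μ Q) := mul_le_mul_right (hmax l hl) _
        _ = 1 := inv_mul_cancel₀ hv0
    · refine ⟨0, ?_⟩
      rw [notMem_support_iff.1 hl, mul_zero, map_zero]
  choose o ho using hq
  have hinj : Function.Injective (algebraMap O K) := IsFractionRing.injective O K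
  have hco : ∀ l, coeff l (∑ m ∈ Q.support, monomial m (o m)) = o l := by
    intro l
    rw [coeff_sum]
    simp only [coeff_monomial]
    rw [Finset.sum_ite_eq' Q.support l]
    split_ifs with hl
    · rfl
    · apply hinj
      rw [ho, notMem_support_iff.1 hl, mul_zero, map_zero]
  refine ⟨(coeff μ Q)⁻¹, ∑ m ∈ Q.support, monomial m (o m), μ, inv_ne_zero h0, ?_, ?_⟩
  · rw [hco]
    apply hinj
    rw [ho, map_one, inv_mul_cancel₀ h0]
  · ext l
    rw [coeff_map, hco, coeff_C_mul, ho]

private theorem Lim_aeval {R S : Type*} [CommRing R] [CommRing S] (f : R →+* S) {τ σ : Type*}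
    (c : τ → MvPolynomial σ R) (Q : MvPolynomial τ R) :
    MvPolynomial.map f (aeval c Q) = aeval (fun i => MvPolynomial.map f (c i)) (MvPolynomial.map f Q) := by
  induction Q using MvPolynomial.induction_on with
  | C a => rw [aeval_C, map_C, aeval_C]; exact map_C _ _
  | add p q hp hq => rw [map_add, map_add, hp, hq, map_add, map_add]
  | mul_X p j hp => rw [map_mul, map_mul, hp, aeval_X, map_mul, map_mul, map_X, aeval_X]

/-- algebraic dependence passes to the reductions -/
private theorem Lim_red (res : O →+* F) {τ σ : Type*} (c : τ → MvPolynomial σ O)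
    (h : AlgebraicIndependent F fun i => MvPolynomial.map res (c i)) :
    AlgebraicIndependent K fun i => MvPolynomial.map (algebraMap O K) (c i) := by
  rw [algebraicIndependent_iff]
  intro Q hQ
  by_contra hQ0
  obtain ⟨a, Q', μ, ha, h1, h2⟩ := Lim_scale (O := O) Q hQ0
  have hinj : Function.Injective (algebraMap O K) := IsFractionRing.injective O K
  have h3 : aeval c Q' = 0 := by
    apply MvPolynomial.map_injective _ hinj
    rw [Lim_aeval, h2, map_mul, hQ, mul_zero, map_zero]
  have h4 := congrArg (MvPolynomial.map res) h3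
  rw [Lim_aeval, map_zero] at h4
  have h5 := (algebraicIndependent_iff.1 h) _ h4
  have h6 := congrArg (coeff μ) h5
  rw [coeff_map, h1, map_one, coeff_zero] at h6
  exact one_ne_zero h6

end red

/-- `O` a valuation ring with fraction field `K`, `res : O → F` a local homomorphism to a field. If all
coefficients `c μ` (`μ` in any index set) over `O` are, over `K`, algebraic over `κ` elements of
`MvPolynomial σ K`, then their reductions are algebraic over `κ` elements of `MvPolynomial σ F`. -/
theorem lim_red {O K F : Type*} [CommRing O] [IsDomain O] [ValuationRing O] [Field K] [Algebra O K]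
    [IsFractionRing O K] [Field F] (res : O →+* F) [IsLocalHom res] {σ M : Type*} {κ : ℕ}
    (c : M → MvPolynomial σ O) (θ : Fin κ → MvPolynomial σ K)
    (h : ∀ μ, IsAlgebraic (Algebra.adjoin K (Set.range θ)) (map (algebraMap O K) (c μ))) :
    ∃ θ' : Fin κ → MvPolynomial σ F, ∀ μ,
      IsAlgebraic (Algebra.adjoin F (Set.range θ')) (map res (c μ)) := by
  obtain ⟨θ', hθ'⟩ := Lim_sel (K := F) (κ := κ) (Set.range fun μ => map res (c μ)) fun c' hc' hI => by
    choose μ hμ using hc'
    have hc'' : c' = fun i => map res (c (μ i)) := funext fun i => (hμ i).symm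
    rw [hc''] at hI
    exact Lim_dep θ _ (fun i => h (μ i)) (Lim_red (K := K) res (fun i => c (μ i)) hI)
  exact ⟨θ', fun μ => hθ' _ ⟨μ, rfl⟩⟩

end Pool.Agent.KAL
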