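import Mathlib
import Pool.Agent.KAL.Defs
import Pool.Agent.KAL.Deg
import Pool.Agent.KAL.AdmS
import Pool.Agent.KAL.Alg
import Pool.Agent.KAL.Lim

/-! # KAL-Tame.  The property of the computed polynomial which is used: tameness; limits are tame. -/

set_option autoImplicit false

namespace Pool.Agent.KAL

open MvPolynomial

/-- `occ i` bounds the number of occurrences of `x_i`; for every set `Y` of variables and every integral
substitution for the other variables all coefficients are algebraic over few elements. -/
def Tame {F : Type*} [Field F] {n : ℕ} (occ : Fin n → ℕ) (e : ℕ → ℕ) (P : MvPolynomial (Fin n) F) :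
    Prop :=
  (∀ i ∈ P.vars, occ i ≠ 0) ∧
  ∀ (σ : Type) (Y : Finset (Fin n)) (v : Fin n → MvPolynomial σ ℤ) (κ : ℕ),
    e (∑ i ∈ Y, occ i) ≤ κ →
    ∃ θ : Fin κ → MvPolynomial σ F, ∀ μ,
      IsAlgebraic (Algebra.adjoin F (Set.range θ))
        (coeff μ (aeval (pv Y (fun i => map (Int.castRingHom F) (v i))) P))

/-- Limits of computed polynomials: `P` is the image under a local homomorphism `O → F` from a
valuation ring `O` of a polynomial over `O` which is computed by a circuit over the fraction field of
`O`, with `k` reused gates, `≤ s` leaves (rank one terms, layers) with an `x_i`, `≤ t` with a `y_j`. -/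
def Limit.{u, v, x} {F : Type x} [Field F] (n s k t b w : ℕ) (P : MvPolynomial (Fin n) F) : Prop :=
  ∃ (O : Type u) (_ : CommRing O) (_ : IsDomain O) (_ : ValuationRing O) (K : Type v) (_ : Field K)
    (_ : Algebra O K) (_ : IsFractionRing O K) (res : O →+* F) (_ : IsLocalHom res)
    (Φ : Fin (k + 1) → Circ K (n + k)) (h : MvPolynomial (Fin n) O),
    nx Φ Finset.univ ≤ s ∧ ny Φ ≤ t ∧ (∀ j, (Φ j).Wd b w) ∧
    map (algebraMap O K) h = run Φ X ∧ P = map res h

private theorem Tame_map {O F σ : Type*} [CommRing O] [CommRing F] (f : O →+* F) {n : ℕ} (Y : Finset (Fin n))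
    (v : Fin n → MvPolynomial σ ℤ) (h : MvPolynomial (Fin n) O) :
    map (map f) (aeval (pv Y (fun i => map (Int.castRingHom O) (v i))) h) =
      aeval (pv Y (fun i => map (Int.castRingHom F) (v i))) (map f h) := by
  induction h using MvPolynomial.induction_on with
  | C a =>
    have e1 : algebraMap O (MvPolynomial {i // i ∈ Y} (MvPolynomial σ O)) a = C (C a) := rfl
    have e2 : algebraMap F (MvPolynomial {i // i ∈ Y} (MvPolynomial σ F)) (f a) = C (C (f a)) := rfl
    rw [map_C, aeval_C, aeval_C, e1, e2, map_C, map_C]
  | add p q hp hq => rw [map_add, map_add, map_add, map_add, hp, hq]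
  | mul_X p i hp =>
    rw [map_mul, map_mul, map_mul, map_mul, hp, aeval_X, map_X, aeval_X]
    congr 1
    unfold pv
    split_ifs with hi
    · rw [map_X]
    · rw [map_C, map_map, show f.comp (Int.castRingHom O) = Int.castRingHom F from RingHom.ext_int _ _]

private theorem Tame_vars {K : Type*} [Field K] {n k : ℕ} (Φ : Fin (k + 1) → Circ K (n + k))
    {i : Fin n} (hi : nx Φ {i} = 0) : i ∉ (run Φ (X : Fin n → MvPolynomial (Fin n) K)).vars := by
  classical
  have h1 : run Φ (X : Fin n → MvPolynomial (Fin n) K) =
      run Φ (Function.update (X : Fin n → MvPolynomial (Fin n) K) i 0) := by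
    refine run_congr _ _ Φ fun j hj => ?_
    rw [Function.update_of_ne]
    rintro rfl
    exact hj hi
  have h2 := run_hom (aeval (Function.update (X : Fin n → MvPolynomial (Fin n) K) i 0)) X Φ
  simp only [aeval_X] at h2
  have h3 : run Φ (X : Fin n → MvPolynomial (Fin n) K) ∈
      MvPolynomial.supported K ({i}ᶜ : Set (Fin n)) := by
    have h4 : run Φ (X : Fin n → MvPolynomial (Fin n) K) =
        aeval (Function.update (X : Fin n → MvPolynomial (Fin n) K) i 0)
          (run Φ (X : Fin n → MvPolynomial (Fin n) K)) := by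
      rw [h2]
      exact h1
    rw [h4]
    have h5 : Algebra.adjoin K (Set.range (Function.update (X : Fin n → MvPolynomial (Fin n) K) i 0)) ≤
        MvPolynomial.supported K ({i}ᶜ : Set (Fin n)) := by
      refine Algebra.adjoin_le ?_
      rintro _ ⟨j, rfl⟩
      by_cases hj : j = i
      · subst hj
        rw [Function.update_self]
        exact Subalgebra.zero_mem _
      · rw [Function.update_of_ne hj]
        exact MvPolynomial.X_mem_supported.2 hj
    rw [Algebra.adjoin_range_eq_range_aeval] at h5
    exact h5 ⟨_, rfl⟩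
  intro h6
  exact (MvPolynomial.mem_supported.1 h3 h6) rfl

theorem tame_limit.{u, v, x} {F : Type x} [Field F] [CharZero F] {n s k t b w : ℕ}
    {P : MvPolynomial (Fin n) F} (hP : Limit.{u, v, x} n s k t b w P) :
    ∃ occ : Fin n → ℕ, ∑ i, occ i ≤ s ∧ Tame occ (fun l => kap b w (l + t) + k) P := by
  classical
  obtain ⟨O, _, _, _, K, _, _, _, res, _, Φ, h, hs, ht, hW, hval, rfl⟩ := hP
  have hO : CharZero O := ⟨fun a b hab => by
    have h1 := congrArg res hab
    rw [map_natCast, map_natCast] at h1
    exact Nat.cast_injective h1⟩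
  have hinj : Function.Injective (algebraMap O K) := IsFractionRing.injective O K
  have hK : CharZero K := charZero_of_injective_algebraMap hinj
  have hsup : (map res h).support ⊆ (run Φ (X : Fin n → MvPolynomial (Fin n) K)).support := by
    rw [← hval, support_map_of_injective _ hinj]
    exact support_map_subset _ _
  have hvars : (map res h).vars ⊆ (run Φ (X : Fin n → MvPolynomial (Fin n) K)).vars := by
    intro i hi
    rw [mem_vars_iff_mem_support] at hi ⊢
    obtain ⟨m, hm, him⟩ := hi
    exact ⟨m, hsup hm, him⟩
  refine ⟨fun i => nx Φ {i}, ?_, ?_, ?_⟩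
  · rw [← nx_eq_sum]
    exact hs
  · intro i hi h0
    exact Tame_vars Φ h0 (hvars hi)
  · intro σ Y v κ hκ
    rw [← nx_eq_sum] at hκ
    obtain ⟨θ, hθ⟩ := alg_of_adm _
      (adm_slp Y (fun i => map (Int.castRingHom K) (v i)) Φ b w t hW ht κ hκ)
    have h1 := lim_red res (fun μ => coeff μ (aeval (pv Y (fun i => map (Int.castRingHom O) (v i))) h)) θ
      (fun μ => by
        have h2 := hθ μ
        have h3 : map (algebraMap O K) (coeff μ (aeval (pv Y (fun i => map (Int.castRingHom O) (v i))) h)) =
            coeff μ (run Φ (pv Y fun i => map (Int.castRingHom K) (v i))) := by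
          rw [← coeff_map, Tame_map, hval]
          have h4 := run_hom (aeval (R := K) (pv Y fun i => map (Int.castRingHom K) (v i))) X Φ
          simp only [aeval_X] at h4
          rw [h4]
        rw [h3]
        exact h2)
    obtain ⟨θ', hθ'⟩ := h1
    refine ⟨θ', fun μ => ?_⟩
    have h5 := hθ' μ
    rw [← coeff_map, Tame_map] at h5
    exact h5

end Pool.Agent.KAL
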