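import Mathlib
import Pool.Agent.KAL.Defs
import Pool.Agent.KAL.Part
import Pool.Agent.KAL.Tame
import Pool.Agent.KAL.BlockA

/-! # KAL-HybA.  The hybrid argument for tame polynomials: block after block is replaced by the shared
source. -/

set_option autoImplicit false

namespace Pool.Agent.KAL

open MvPolynomial

/-- the point with own parameters `y_a` for the heavy variables and the source for the others -/
noncomputable def hpt (K : Type*) [CommRing K] {n m R : ℕ} (p c : Fin m → ℕ) (z : Fin (m + 1) → ℕ)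
    (i : Fin n) : MvPolynomial (Fin m ⊕ Fin R) K :=
  if ∃ a, p a = (i : ℕ) then ∑ a, if p a = (i : ℕ) then X (Sum.inl a) else 0
  else ∑ l : Fin R, X (Sum.inr l) * ((z (blk c i) ^ (((i : ℕ) + 1) * l) : ℕ) : MvPolynomial _ K)

/-- the points of the hybrid argument: blocks `< j` are replaced -/
private noncomputable def HybA_vv (K : Type*) [CommRing K] {n m R : ℕ} (p c : Fin m → ℕ)
    (z : Fin (m + 1) → ℕ) (j : ℕ) (i : Fin n) : MvPolynomial ((Fin m ⊕ Fin R) ⊕ Fin n) K :=
  if ∃ a, p a = (i : ℕ) then ∑ a, if p a = (i : ℕ) then X (Sum.inl (Sum.inl a)) else 0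
  else if (blk c i : ℕ) < j then
    ∑ l : Fin R, X (Sum.inl (Sum.inr l)) *
      ((z (blk c i) ^ (((i : ℕ) + 1) * l) : ℕ) : MvPolynomial _ K)
  else X (Sum.inr i)

private theorem HybA_map (F : Type*) [Field F] {n m R : ℕ} (p c : Fin m → ℕ)
    (z : Fin (m + 1) → ℕ) (j : ℕ) (i : Fin n) :
    map (Int.castRingHom F) (HybA_vv ℤ (R := R) p c z j i) = HybA_vv F (R := R) p c z j i := by
  unfold HybA_vv
  split_ifs
  · rw [map_sum]
    refine Finset.sum_congr rfl fun a _ => ?_
    split_ifs <;> simp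
  · rw [map_sum]
    refine Finset.sum_congr rfl fun l _ => ?_
    rw [map_mul, map_X, map_natCast]
  · rw [map_X]

private theorem HybA_zero {K : Type*} [Field K] {n m R : ℕ} (P : MvPolynomial (Fin n) K)
    (p c : Fin m → ℕ) (z : Fin (m + 1) → ℕ) (hp' : ∀ a a', p a = p a' → p a < n → a = a')
    (h0 : P ≠ 0) : aeval (HybA_vv K (R := R) p c z 0) P ≠ 0 := by
  classical
  let τ : Fin n → (Fin m ⊕ Fin R) ⊕ Fin n := fun i =>
    if h : ∃ a, p a = (i : ℕ) then Sum.inl (Sum.inl h.choose) else Sum.inr i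
  have hτ : Function.Injective τ := by
    intro i i' h
    by_cases h1 : ∃ a, p a = (i : ℕ) <;> by_cases h2 : ∃ a, p a = (i' : ℕ)
    · simp only [τ, h1, h2, dif_pos] at h
      have h3 : h1.choose = h2.choose := by simpa using h
      have h4 := h1.choose_spec
      rw [h3, h2.choose_spec] at h4
      exact Fin.ext h4.symm
    · simp [τ, h1, h2] at h
    · simp [τ, h1, h2] at h
    · simpa [τ, h1, h2] using h
  have hv : HybA_vv K (R := R) p c z 0 = fun i => (X (τ i) : MvPolynomial _ K) := by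
    funext i
    by_cases h1 : ∃ a, p a = (i : ℕ)
    · simp only [HybA_vv, h1, if_true, τ, dif_pos]
      rw [Finset.sum_eq_single h1.choose]
      · rw [if_pos h1.choose_spec]
      · intro a _ ha
        rw [if_neg]
        intro h
        exact ha (hp' a _ (h.trans h1.choose_spec.symm) (by rw [h]; exact i.2))
      · intro h; exact absurd (Finset.mem_univ _) h
    · simp [HybA_vv, h1, τ]
  rw [hv]
  intro h
  have h2 : rename τ P = 0 := by
    have h3 : (rename τ : MvPolynomial (Fin n) K →ₐ[K] _) = aeval fun i => X (τ i) := by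
      refine MvPolynomial.algHom_ext fun i => ?_
      rw [rename_X, aeval_X]
    rw [h3]
    exact h
  exact h0 (rename_injective τ hτ (by rw [map_zero]; exact h2))

private theorem HybA_step {K : Type*} [Field K] [CharZero K] {n : ℕ} (P : MvPolynomial (Fin n) K)
    (occ : Fin n → ℕ) (e : ℕ → ℕ) (he : Monotone e) (ρ m R : ℕ) (hT : Tame occ e P)
    (hR : 2 * ρ + e (2 * ρ) ≤ R) (p c : Fin m → ℕ)
    (J : Fin (m + 1))
    (hpart : ∑ i ∈ Finset.univ.filter (fun i : Fin n => (∀ a, p a ≠ (i : ℕ)) ∧ blk c i = J),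
      occ i ≤ 2 * ρ)
    (z : Fin (m + 1) → ℕ)
    (h : aeval (HybA_vv K (R := R) p c z J) P ≠ 0) :
    ∃ z' : Fin (m + 1) → ℕ, aeval (HybA_vv K (R := R) p c z' ((J : ℕ) + 1)) P ≠ 0 := by
  classical
  set B := MvPolynomial ((Fin m ⊕ Fin R) ⊕ Fin n) K with hB
  set v : Fin n → B := HybA_vv K (R := R) p c z J with hv
  set Y : Finset (Fin n) := Finset.univ.filter
    (fun i : Fin n => ((∀ a, p a ≠ (i : ℕ)) ∧ blk c i = J) ∧ occ i ≠ 0) with hY
  set g : MvPolynomial {i // i ∈ Y} B := aeval (pv Y v) P with hg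
  -- evaluation of `g`
  have hev : ∀ w : {i // i ∈ Y} → B,
      MvPolynomial.eval w g = aeval (fun i => if h : i ∈ Y then w ⟨i, h⟩ else v i) P := by
    intro w
    have h1 := MvPolynomial.comp_aeval_apply (R := K) (pv Y v)
      ((MvPolynomial.aeval (R := B) w).restrictScalars K) P
    have h2 : ((MvPolynomial.aeval (R := B) w).restrictScalars K) (aeval (pv Y v) P) =
        MvPolynomial.eval w g := by
      rw [hg]
      simp [MvPolynomial.aeval_eq_eval]
    rw [← h2, h1]
    congr 2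
    funext i
    by_cases hi : i ∈ Y
    · simp [pv, hi]
    · simp [pv, hi]
  have hg0 : g ≠ 0 := by
    intro h0
    have := hev (fun i => v i)
    rw [h0, map_zero] at this
    apply h
    rw [this]
    congr 2
    funext i
    by_cases hi : i ∈ Y <;> simp [hi]
  have hsum : ∑ i ∈ Y, occ i ≤ 2 * ρ := by
    refine le_trans (Finset.sum_le_sum_of_subset ?_) hpart
    intro i hi
    rw [hY, Finset.mem_filter] at hi
    rw [Finset.mem_filter]
    exact ⟨hi.1, hi.2.1⟩
  have hcard : Y.card ≤ 2 * ρ := by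
    refine le_trans ?_ hsum
    rw [Finset.card_eq_sum_ones]
    refine Finset.sum_le_sum fun i hi => ?_
    rw [hY, Finset.mem_filter] at hi
    exact Nat.one_le_iff_ne_zero.2 hi.2.2
  have hkap : e (∑ i ∈ Y, occ i) ≤ e (2 * ρ) := he hsum
  obtain ⟨θ, hθ⟩ := hT.2 ((Fin m ⊕ Fin R) ⊕ Fin n) Y (HybA_vv ℤ (R := R) p c z J) _ hkap
  have hv2 : (fun i => map (Int.castRingHom K) (HybA_vv ℤ (R := R) p c z J i)) = v := by
    funext i
    exact HybA_map K p c z J i
  rw [hv2] at hθ
  obtain ⟨z0, hne⟩ := block_natA (K := K) (σ := (Fin m ⊕ Fin R) ⊕ Fin n) (ι := {i // i ∈ Y})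
    (r := R) (κ := e (2 * ρ)) (fun l => Sum.inl (Sum.inr l))
    (by intro l l' hl; simpa using hl) (fun i => ((i : Fin n) : ℕ) + 1)
    (by
      intro i i' hi
      have h1 : ((i : Fin n) : ℕ) + 1 = ((i' : Fin n) : ℕ) + 1 := hi
      exact Subtype.ext (Fin.ext (by omega)))
    (fun i => Nat.succ_pos _)
    (by
      rw [Fintype.card_coe]
      omega) θ g hg0 hθ
  refine ⟨Function.update z J z0, ?_⟩
  rw [hev] at hne
  intro h0
  apply hne
  rw [← h0]
  refine MvPolynomial.eval₂Hom_congr' rfl ?_ rfl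
  intro i hi _
  have hi := hT.1 i hi
  by_cases h1 : ∃ a, p a = (i : ℕ)
  · have hiY : i ∉ Y := by
      rw [hY, Finset.mem_filter]
      rintro ⟨_, ⟨h2, _⟩, _⟩
      obtain ⟨a, ha⟩ := h1
      exact h2 a ha
    rw [dif_neg hiY, hv]
    simp only [HybA_vv, h1, if_true]
  · have h1' : ∀ a, p a ≠ (i : ℕ) := fun a ha => h1 ⟨a, ha⟩
    by_cases h2 : blk c i = J
    · have hiY : i ∈ Y := by
        rw [hY, Finset.mem_filter]
        exact ⟨Finset.mem_univ _, ⟨h1', h2⟩, hi⟩
      rw [dif_pos hiY]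
      simp only [HybA_vv, h1, if_false, h2, Function.update_self]
      rw [if_pos (Nat.lt_succ_self _)]
    · have hiY : i ∉ Y := by
        rw [hY, Finset.mem_filter]
        rintro ⟨_, ⟨_, h3⟩, _⟩
        exact h2 h3
      rw [dif_neg hiY, hv]
      have h4 : ((blk c i : Fin (m + 1)) : ℕ) ≠ (J : ℕ) := fun h5 => h2 (Fin.ext h5)
      by_cases h3 : ((blk c i : Fin (m + 1)) : ℕ) < (J : ℕ)
      · have h3' : ((blk c i : Fin (m + 1)) : ℕ) < (J : ℕ) + 1 := by omega
        simp only [HybA_vv, h1, if_false, h3, h3', if_true, Function.update_of_ne h2]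
      · have h3' : ¬ ((blk c i : Fin (m + 1)) : ℕ) < (J : ℕ) + 1 := by omega
        simp only [HybA_vv, h1, if_false, h3, h3']

theorem hybA {F : Type*} [Field F] [CharZero F] {n : ℕ} (P : MvPolynomial (Fin n) F)
    (occ : Fin n → ℕ) (e : ℕ → ℕ) (he : Monotone e) (ρ m R : ℕ) (hρ : 0 < ρ) (hT : Tame occ e P)
    (hs : ∑ i, occ i ≤ ρ * m) (hR : 2 * ρ + e (2 * ρ) ≤ R) (h0 : P ≠ 0) :
    ∃ (p c : Fin m → ℕ) (z : Fin (m + 1) → ℕ), (∀ a, p a ≤ n) ∧ (∀ a, c a ≤ n) ∧
      (∀ a a', p a = p a' → p a < n → a = a') ∧ aeval (hpt F (R := R) p c z) P ≠ 0 := by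
  classical
  obtain ⟨p, c, hpn, hcn, hinj, hpart⟩ := partition n ρ m hρ occ hs
  have key : ∀ j : ℕ, j ≤ m + 1 → ∃ z : Fin (m + 1) → ℕ,
      aeval (HybA_vv F (R := R) p c z j) P ≠ 0 := by
    intro j
    induction j with
    | zero =>
      intro _
      exact ⟨fun _ => 0, HybA_zero P p c _ hinj h0⟩
    | succ j ih =>
      intro hj
      obtain ⟨z, hne⟩ := ih (by omega)
      exact HybA_step P occ e he ρ m R hT hR p c ⟨j, by omega⟩ (hpart ⟨j, by omega⟩) z hne
  obtain ⟨z, hne⟩ := key (m + 1) le_rfl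
  refine ⟨p, c, z, hpn, hcn, hinj, ?_⟩
  intro h
  apply hne
  have hv : HybA_vv F (R := R) p c z (m + 1) = fun i : Fin n =>
      rename (Sum.inl : Fin m ⊕ Fin R → (Fin m ⊕ Fin R) ⊕ Fin n) (hpt F (R := R) p c z i) := by
    funext i
    have h3 : ((blk c i : Fin (m + 1)) : ℕ) < m + 1 := (blk c i).2
    by_cases h1 : ∃ a, p a = (i : ℕ)
    · simp only [HybA_vv, hpt, h1, if_true, map_sum]
      refine Finset.sum_congr rfl fun a _ => ?_
      split_ifs <;> simp
    · simp only [HybA_vv, hpt, h1, if_false, h3, if_true, map_sum, map_mul, rename_X, map_natCast]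
  rw [hv, ← MvPolynomial.comp_aeval_apply (R := F) (hpt F (R := R) p c z) (rename Sum.inl), h, map_zero]

theorem kap_mono (b w k t : ℕ) : Monotone fun l => kap b w (l + t) + k := by
  intro l l' h
  show kap b w (l + t) + k ≤ kap b w (l' + t) + k
  unfold kap
  have h1 : l + t ≤ l' + t := Nat.add_le_add_right h t
  refine Nat.add_le_add_right (Nat.add_le_add_right (Nat.mul_le_mul h1 (Nat.add_le_add_right ?_ 5)) 1) k
  exact max_le_max (min_le_min le_rfl h1) le_rfl

end Pool.Agent.KAL
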