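import Mathlib
import Pool.Agent.KAL.GenV
import Pool.Agent.KAL.HybA

/-! # KAL-GenS.  The points `hpt` of the hybrid argument are specializations of the generator. -/

set_option autoImplicit false

namespace Pool.Agent.KAL

open MvPolynomial

private noncomputable def GenS_S (K : Type*) [Field K] {m R : ℕ} (c : Fin m → ℕ)
    (z : Fin (m + 1) → ℕ) (i : ℕ) : MvPolynomial (Fin m ⊕ Fin R) K :=
  ∑ t : Fin R, X (Sum.inr t) * ((z (blk c i) ^ ((i + 1) * t) : ℕ) : MvPolynomial _ K)

private noncomputable def GenS_q (K : Type*) [Field K] {m R : ℕ} (n : ℕ) (p c : Fin m → ℕ)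
    (z : Fin (m + 1) → ℕ) (l r : Fin (m + 1) → ℕ) : Par m R → MvPolynomial (Fin m ⊕ Fin R) K
  | .inl a => ((p a : ℕ) : MvPolynomial _ K)
  | .inr (.inl a) => if p a < n then C ((pos n (p a) ((p a : ℕ) : K))⁻¹) *
      (X (Sum.inl a) - GenS_S K c z (p a)) else 0
  | .inr (.inr (.inl j)) => ((l j : ℕ) : MvPolynomial _ K)
  | .inr (.inr (.inr (.inl j))) => ((r j : ℕ) : MvPolynomial _ K)
  | .inr (.inr (.inr (.inr (.inl j)))) => ((z j : ℕ) : MvPolynomial _ K)
  | .inr (.inr (.inr (.inr (.inr t)))) => C (((n.factorial : K) * (n.factorial : K))⁻¹) * X (Sum.inr t)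

theorem gen_spec {K : Type*} [Field K] [CharZero K] {n m R : ℕ} (p c : Fin m → ℕ)
    (z : Fin (m + 1) → ℕ) (hinj : ∀ a a', p a = p a' → p a < n → a = a') :
    ∃ q : Par m R → MvPolynomial (Fin m ⊕ Fin R) K, ∀ i : Fin n, gen n m R q i = hpt K p c z i := by
  classical
  obtain ⟨l, r, hlr, hblk⟩ := blk_cut n c
  refine ⟨GenS_q K n p c z l r, fun i => ?_⟩
  have hf : ((n.factorial : K) * (n.factorial : K)) ≠ 0 := by
    have : (n.factorial : K) ≠ 0 := Nat.cast_ne_zero.2 (Nat.factorial_ne_zero n)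
    exact mul_ne_zero this this
  -- the second sum
  have h2 : ∑ j, ind n (Finset.range (i + 1)) (((l j : ℕ) : MvPolynomial (Fin m ⊕ Fin R) K)) *
      ind n (Finset.Ioc (i : ℕ) n) (((r j : ℕ) : MvPolynomial (Fin m ⊕ Fin R) K)) *
      ∑ t : Fin R, (C (((n.factorial : K) * (n.factorial : K))⁻¹) * X (Sum.inr t)) *
        (((z j : ℕ) : MvPolynomial (Fin m ⊕ Fin R) K)) ^ (((i : ℕ) + 1) * t) =
      GenS_S K c z i := by
    rw [Finset.sum_eq_single (blk c i)]
    · have h3 := (hblk i (blk c i)).2 rfl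
      have h4 := hlr (blk c i)
      rw [ind_val _ (by intro k hk; rw [Finset.mem_range] at hk ⊢; have := i.2; omega) h4.1,
        ind_val _ (by intro k hk; rw [Finset.mem_Ioc] at hk; rw [Finset.mem_range]; omega) h4.2,
        if_pos (by rw [Finset.mem_range]; omega), if_pos (by rw [Finset.mem_Ioc]; omega)]
      unfold GenS_S
      rw [Finset.mul_sum]
      refine Finset.sum_congr rfl fun t _ => ?_
      have h5 : ((n.factorial : MvPolynomial (Fin m ⊕ Fin R) K) * (n.factorial : MvPolynomial _ K)) *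
          C (((n.factorial : K) * (n.factorial : K))⁻¹) = 1 := by
        rw [← map_natCast (C : K →+* MvPolynomial (Fin m ⊕ Fin R) K), ← C_mul, ← C_mul,
          mul_inv_cancel₀ hf, C_1]
      rw [Nat.cast_pow, ← mul_assoc, ← mul_assoc, h5, one_mul]
    · intro j _ hj
      have h3 : ¬ (l j ≤ i ∧ (i : ℕ) < r j) := fun h => hj ((hblk i j).1 h).symm
      have h4 := hlr j
      rw [ind_val _ (by intro k hk; rw [Finset.mem_range] at hk ⊢; have := i.2; omega) h4.1,
        ind_val _ (by intro k hk; rw [Finset.mem_Ioc] at hk; rw [Finset.mem_range]; omega) h4.2]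
      by_cases h5 : l j ≤ i
      · rw [if_neg (show ¬ r j ∈ Finset.Ioc (i : ℕ) n by
          rw [Finset.mem_Ioc]; intro h6; exact h3 ⟨h5, h6.1⟩), mul_zero, zero_mul]
      · rw [if_neg (show ¬ l j ∈ Finset.range (i + 1) by rw [Finset.mem_range]; omega), zero_mul,
          zero_mul]
    · intro h; exact absurd (Finset.mem_univ _) h
  -- the first sum
  have h1 : ∀ a : Fin m, (if p a < n then C ((pos n (p a) ((p a : ℕ) : K))⁻¹) *
      (X (Sum.inl a) - GenS_S K c z (p a)) else 0) *
      pos n i (((p a : ℕ) : MvPolynomial (Fin m ⊕ Fin R) K)) =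
      if p a = i then (X (Sum.inl a) - GenS_S K c z i) else 0 := by
    intro a
    by_cases h3 : p a < n
    · rw [if_pos h3]
      by_cases h4 : p a = i
      · rw [if_pos h4]
        have h5 : pos n i (((p a : ℕ) : MvPolynomial (Fin m ⊕ Fin R) K)) =
            C (pos n (p a) ((p a : ℕ) : K)) := by
          rw [pos_map, map_natCast, h4]
        rw [h5, mul_right_comm, ← C_mul, inv_mul_cancel₀ (pos_ne n (p a)), C_1, one_mul, h4]
      · rw [if_neg h4, pos_zero h3 h4, mul_zero]
    · rw [if_neg h3, zero_mul, if_neg]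
      have := i.2
      omega
  have h3 : gen n m R (GenS_q K n p c z l r) i =
      (∑ a : Fin m, if p a = i then (X (Sum.inl a) - GenS_S K c z i) else 0) +
        (GenS_S K c z i : MvPolynomial (Fin m ⊕ Fin R) K) := by
    have h4 : gen n m R (GenS_q K n p c z l r) i =
      (∑ a : Fin m, (if p a < n then C ((pos n (p a) ((p a : ℕ) : K))⁻¹) *
      (X (Sum.inl a) - GenS_S K c z (p a)) else 0) *
      pos n i (((p a : ℕ) : MvPolynomial (Fin m ⊕ Fin R) K))) +
      ∑ j, ind n (Finset.range (i + 1)) (((l j : ℕ) : MvPolynomial (Fin m ⊕ Fin R) K)) *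
      ind n (Finset.Ioc (i : ℕ) n) (((r j : ℕ) : MvPolynomial (Fin m ⊕ Fin R) K)) *
      ∑ t : Fin R, (C (((n.factorial : K) * (n.factorial : K))⁻¹) * X (Sum.inr t)) *
        (((z j : ℕ) : MvPolynomial (Fin m ⊕ Fin R) K)) ^ (((i : ℕ) + 1) * t) := rfl
    rw [h4, h2]
    congr 1
    exact Finset.sum_congr rfl fun a _ => h1 a
  rw [h3]
  unfold hpt
  split_ifs with h4
  · obtain ⟨a, ha⟩ := h4
    have h5 : ∀ (g : Fin m → MvPolynomial (Fin m ⊕ Fin R) K),
        (∑ a', if p a' = (i : ℕ) then g a' else 0) = g a := by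
      intro g
      rw [Finset.sum_eq_single a]
      · rw [if_pos ha]
      · intro a' _ h6
        rw [if_neg]
        intro h7
        exact h6 (hinj a' a (h7.trans ha.symm) (by rw [h7]; exact i.2))
      · intro h; exact absurd (Finset.mem_univ _) h
    rw [h5, h5, sub_add_cancel]
  · have h5 : (∑ a : Fin m, if p a = (i : ℕ) then (X (Sum.inl a) - GenS_S K c z i) else 0) =
        (0 : MvPolynomial (Fin m ⊕ Fin R) K) := by
      refine Finset.sum_eq_zero fun a _ => ?_
      rw [if_neg]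
      intro h6
      exact h4 ⟨a, h6⟩
    rw [h5, zero_add]
    rfl

end Pool.Agent.KAL
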