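import Mathlib
import Pool.Agent.KAL.Tame
import Pool.Agent.KAL.HybA
import Pool.Agent.KAL.GenS
import Pool.Agent.KAL.GenD
import Pool.Agent.ROQ.Base

/-! # KAL-FinA.  The generator hits all limits, read-once compositions of them and all divisors of
products. -/

set_option autoImplicit false

namespace Pool.Agent.KAL

open MvPolynomial
open Pool.Agent.ROL (pw)

/-- the polynomials computed by small circuits are limits (trivial valuation) -/
theorem limit_self.{x} {F : Type x} [Field F] {n s k t b w : ℕ} (Φ : Fin (k + 1) → Circ F (n + k))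
    (hs : nx Φ Finset.univ ≤ s) (ht : ny Φ ≤ t) (hW : ∀ j, (Φ j).Wd b w) :
    Limit.{x, x, x} n s k t b w (run Φ (X : Fin n → MvPolynomial (Fin n) F)) :=
  ⟨F, inferInstance, inferInstance, inferInstance, F, inferInstance, inferInstance, inferInstance,
    RingHom.id F, inferInstance, Φ, run Φ X, hs, ht, hW, by
      rw [show algebraMap F F = RingHom.id F from rfl, map_id], by rw [map_id]⟩

theorem gen_hits.{u, v, x} {F : Type x} [Field F] [CharZero F] {n s k t b w m ρ R : ℕ} (hρ : 0 < ρ)
    (hs : s ≤ ρ * m) (hR : 2 * ρ + (kap b w (2 * ρ + t) + k) ≤ R) {P : MvPolynomial (Fin n) F}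
    (hP : Limit.{u, v, x} n s k t b w P) (h0 : P ≠ 0) :
    aeval (gen n m R (X : Par m R → MvPolynomial (Par m R) F)) P ≠ 0 := by
  obtain ⟨occ, hocc, hT⟩ := tame_limit hP
  obtain ⟨p, c, z, -, -, hinj, hne⟩ := hybA P occ _ (kap_mono b w k t) ρ m R hρ hT
    (hocc.trans hs) hR h0
  obtain ⟨q, hq⟩ := gen_spec (K := F) (n := n) (R := R) p c z hinj
  intro h
  apply hne
  have h1 := MvPolynomial.comp_aeval_apply (R := F)
    (gen n m R (X : Par m R → MvPolynomial (Par m R) F)) (aeval q) P
  rw [h, map_zero] at h1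
  have h2 : (fun i => aeval q (gen n m R (X : Par m R → MvPolynomial (Par m R) F) i)) =
      hpt F (R := R) p c z := by
    funext i
    rw [← hq i]
    have h3 := gen_map (aeval q : MvPolynomial (Par m R) F →ₐ[F] _).toRingHom n m R
      (X : Par m R → MvPolynomial (Par m R) F) i
    simp only [AlgHom.toRingHom_eq_coe, RingHom.coe_coe, aeval_X] at h3
    exact h3
  rw [← h2]
  exact h1.symm

private theorem FinA_vals {K B : Type*} [Field K] [CommRing B] [Algebra K B] {n k : ℕ}
    (Φ Φ' : Fin (k + 1) → Circ K (n + k)) (h : ∀ j : Fin k, Φ j.castSucc = Φ' j.castSucc)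
    (x : Fin n → B) (j : ℕ) : vals Φ x j = vals Φ' x j := by
  induction j with
  | zero => rfl
  | succ j ih =>
    funext i
    simp only [vals]
    rw [ih, h i]

private theorem FinA_sub.{u, v, x} {F : Type x} [Field F] {n s k t b w : ℕ}
    {P : MvPolynomial (Fin n) F} (hP : Limit.{u, v, x} n s k t b w P) (a : Fin n → ℤ) :
    Limit.{u, v, x} n s k t b w (P - C (MvPolynomial.eval (fun i => ((a i : ℤ) : F)) P)) := by
  classical
  obtain ⟨O, _, _, _, K, _, _, _, res, _, Φ, h, hs, ht, hW, hval, rfl⟩ := hP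
  set e : K := algebraMap O K (-(MvPolynomial.eval (fun i => ((a i : ℤ) : O)) h)) with he
  set Φ' : Fin (k + 1) → Circ K (n + k) := fun j =>
    if j = Fin.last k then .add (Φ j) (.const e) else Φ j with hΦ'
  have hocc : ∀ j Y, (Φ' j).occ Y = (Φ j).occ Y := by
    intro j Y
    by_cases hj : j = Fin.last k
    · simp [hΦ', hj, Circ.occ]
    · simp [hΦ', hj]
  refine ⟨O, inferInstance, inferInstance, inferInstance, K, inferInstance, inferInstance,
    inferInstance, res, inferInstance, Φ',
    h - C (MvPolynomial.eval (fun i => ((a i : ℤ) : O)) h), ?_, ?_, ?_, ?_, ?_⟩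
  · unfold nx
    simp only [hocc]
    exact hs
  · unfold ny
    simp only [hocc]
    exact ht
  · intro j
    by_cases hj : j = Fin.last k
    · simp only [hΦ', hj, if_true]
      exact ⟨hW _, trivial⟩
    · simp only [hΦ', hj, if_false]
      exact hW j
  · have h1 : run Φ' (X : Fin n → MvPolynomial (Fin n) K) = run Φ X + C e := by
      have h2 : vals Φ' (X : Fin n → MvPolynomial (Fin n) K) k = vals Φ X k := by
        refine (FinA_vals Φ Φ' (fun j => ?_) X k).symm
        have h3 : j.castSucc ≠ Fin.last k := (Fin.castSucc_lt_last j).ne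
        simp only [hΦ', h3, if_false]
      unfold run
      rw [h2]
      simp only [hΦ', if_true]
      rfl
    rw [h1, map_sub, hval, map_C, he, map_neg, C_neg, sub_eq_add_neg]
  · rw [map_sub, map_C]
    congr 2
    have h1 := MvPolynomial.map_eval res (fun i => ((a i : ℤ) : O)) h
    rw [h1]
    congr 2
    funext i
    exact (map_intCast res (a i)).symm

theorem gen_nonconst.{u, v, x} {F : Type x} [Field F] [CharZero F] {n s k t b w m ρ R : ℕ}
    (hρ : 0 < ρ) (hs : s ≤ ρ * m) (hR : 2 * ρ + (kap b w (2 * ρ + t) + k) ≤ R)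
    (P : MvPolynomial (Fin n) F) (hP : Limit.{u, v, x} n s k t b w P) (hc : ∀ c, P ≠ C c) (c : F) :
    aeval (gen n m R (X : Par m R → MvPolynomial (Par m R) F)) P ≠ C c := by
  intro h
  have h1 := congrArg (MvPolynomial.eval (fun _ : Par m R => (0 : F))) h
  rw [Pool.Agent.ROQ.eval_aeval', eval_C] at h1
  have h2 : (fun i => MvPolynomial.eval (fun _ : Par m R => (0 : F))
      (gen n m R (X : Par m R → MvPolynomial (Par m R) F) i)) =
      fun i => ((gen n m R (fun _ : Par m R => (0 : ℤ)) i : ℤ) : F) := by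
    funext i
    rw [gen_map]
    simp only [eval_X]
    have h3 := gen_map (Int.castRingHom F) n m R (fun _ : Par m R => (0 : ℤ)) i
    simp only [map_zero] at h3
    exact h3.symm
  rw [h2] at h1
  refine gen_hits hρ hs hR (FinA_sub hP (gen n m R (fun _ : Par m R => (0 : ℤ)))) ?_ ?_
  · rw [h1]
    intro h3
    exact hc c (sub_eq_zero.1 h3)
  · rw [map_sub, h, h1]
    simp

end Pool.Agent.KAL
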