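import Mathlib
import Pool.Agent.KAL.FinA

/-! # KAL-FinB.  The final theorem. -/

set_option autoImplicit false

namespace Pool.Agent.KAL

open MvPolynomial
open Pool.Agent.ROL (pw map_pw)
open Pool.Agent.ROQ (RO pq map_pq)

/-- the generator plus `y ∏_(s < p) ∏_(j ≠ i) (z_s + j)` (for read-once compositions) -/
def pt {A : Type*} [CommRing A] (n m R p : ℕ) (q : Par m R ⊕ Fin (p + 1) → A) (i : Fin n) : A :=
  gen n m R (fun k => q (.inl k)) i + q (.inr 0) * pq (fun s : Fin p => q (.inr s.succ)) i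

/-- degree of the generator -/
def dg (n R p : ℕ) : ℕ := n * (R + p + 1) + 1

/-- the hitting set for total degree `D`: the values of the generator at `{0..D dg}^(5m+R+p+4)` -/
def hits (n m R p D : ℕ) : Finset (Fin n → ℤ) :=
  (Fintype.piFinset fun _ : Par m R ⊕ Fin (p + 1) => Finset.range (D * dg n R p + 1)).image
    fun q => pt n m R p fun k => (q k : ℤ)

theorem hits_card (n m R p D : ℕ) :
    (hits n m R p D).card ≤ (D * dg n R p + 1) ^ (5 * m + R + p + 4) := by
  classical
  unfold hits
  refine le_trans Finset.card_image_le ?_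
  rw [Fintype.card_piFinset]
  simp only [Finset.card_range, Finset.prod_const, Finset.card_univ, Fintype.card_sum,
    Fintype.card_fin]
  refine le_of_eq ?_
  congr 1
  ring

private theorem FinB_pq (n p N : ℕ) (z : Fin p → ℕ) (hz : ∀ s, z s ≤ N) (i : Fin n) :
    pq z i ≤ (2 * (N + n + 1)) ^ (p * n) := by
  unfold pq
  rw [mul_comm p n, pow_mul]
  refine (Finset.prod_le_pow_card _ _ ((2 * (N + n + 1)) ^ n) ?_).trans ?_
  · intro s _
    unfold pw
    refine (Finset.prod_le_pow_card _ _ (2 * (N + n + 1)) ?_).trans ?_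
    · intro j _
      have := hz s
      have := j.2
      simp only [Nat.cast_id]
      omega
    · refine Nat.pow_le_pow_right (by omega) ?_
      refine (Finset.card_erase_le).trans ?_
      simp
  · refine Nat.pow_le_pow_right (Nat.pos_of_ne_zero (by positivity)) ?_
    simp

theorem hits_bound (n m R p D : ℕ) (x : Fin n → ℤ) (hx : x ∈ hits n m R p D) (i : Fin n) :
    |x i| ≤ ((m + 2) * (R + 1) * (2 * (D * dg n R p + n + 1)) ^ dg n R p : ℕ) := by
  classical
  unfold hits at hx
  rw [Finset.mem_image] at hx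
  obtain ⟨q, hq, rfl⟩ := hx
  rw [Fintype.mem_piFinset] at hq
  set N := D * dg n R p with hN
  have hq' : ∀ k, q k ≤ N := fun k => by
    have := hq k
    rw [Finset.mem_range] at this
    omega
  unfold pt
  have h1 := hset_bound n m R N (gen n m R fun k => ((q (.inl k) : ℕ) : ℤ)) (by
    unfold hset
    rw [Finset.mem_image]
    refine ⟨fun k => q (.inl k), ?_, rfl⟩
    rw [Fintype.mem_piFinset]
    exact fun k => hq (.inl k)) i
  have hpow : (2 * (N + n + 1)) ^ (n * (R + 1) + 1) ≤ (2 * (N + n + 1)) ^ dg n R p := by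
    refine Nat.pow_le_pow_right (by omega) ?_
    unfold dg
    have : n * (R + 1) ≤ n * (R + p + 1) := Nat.mul_le_mul_left _ (by omega)
    omega
  have h2 : |((q (.inr 0) : ℕ) : ℤ) * pq (fun s : Fin p => ((q (.inr s.succ) : ℕ) : ℤ)) i| ≤
      (((2 * (N + n + 1)) ^ dg n R p : ℕ) : ℤ) := by
    have h3 : ((q (.inr 0) : ℕ) : ℤ) * pq (fun s : Fin p => ((q (.inr s.succ) : ℕ) : ℤ)) i =
        ((q (.inr 0) * pq (fun s : Fin p => q (.inr s.succ)) i : ℕ) : ℤ) := by
      have h4 := map_pq (Nat.castRingHom ℤ) (fun s : Fin p => q (.inr s.succ)) i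
      simp only [Nat.coe_castRingHom] at h4
      rw [Nat.cast_mul, h4]
    rw [h3, abs_of_nonneg (Int.natCast_nonneg _)]
    apply Nat.cast_le.2
    have h5 := FinB_pq n p N (fun s : Fin p => q (.inr s.succ)) (fun s => hq' _) i
    calc q (.inr 0) * pq (fun s : Fin p => q (.inr s.succ)) i ≤
          (2 * (N + n + 1)) * (2 * (N + n + 1)) ^ (p * n) :=
          Nat.mul_le_mul (by have := hq' (.inr 0); omega) h5
      _ = (2 * (N + n + 1)) ^ (p * n + 1) := by rw [pow_succ]; ring
      _ ≤ _ := Nat.pow_le_pow_right (by omega) (by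
          unfold dg
          have : n * p ≤ n * (R + p + 1) := Nat.mul_le_mul_left _ (by omega)
          rw [mul_comm p n]
          omega)
  refine (abs_add_le _ _).trans ((add_le_add h1 h2).trans ?_)
  rw [← Nat.cast_add]
  apply Nat.cast_le.2
  have h6 : (2 * (N + n + 1)) ^ dg n R p ≤
      (R + 1) * (2 * (N + n + 1)) ^ dg n R p := Nat.le_mul_of_pos_left _ (by omega)
  calc _ ≤ (m + 1) * (R + 1) * (2 * (N + n + 1)) ^ dg n R p +
        (R + 1) * (2 * (N + n + 1)) ^ dg n R p :=
        Nat.add_le_add (Nat.mul_le_mul_left _ hpow) h6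
    _ = _ := by ring

theorem ext_gen {F : Type*} [Field F] (n m R p : ℕ) :
    Pool.Agent.ROQ.ext p (fun i => gen n m R (X : Par m R → MvPolynomial (Par m R) F) i) =
      pt n m R p (X : Par m R ⊕ Fin (p + 1) → MvPolynomial (Par m R ⊕ Fin (p + 1)) F) := by
  funext i
  unfold Pool.Agent.ROQ.ext pt
  congr 1
  have h := gen_map (rename (Sum.inl : Par m R → Par m R ⊕ Fin (p + 1)) :
    MvPolynomial (Par m R) F →ₐ[F] _).toRingHom n m R X i
  simp only [AlgHom.toRingHom_eq_coe, RingHom.coe_coe, rename_X] at h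
  exact h

theorem pt_degree {F : Type*} [Field F] (n m R p : ℕ) (i : Fin n) :
    (pt n m R p (X : Par m R ⊕ Fin (p + 1) →
      MvPolynomial (Par m R ⊕ Fin (p + 1)) F) i).totalDegree ≤ dg n R p := by
  rw [← ext_gen]
  unfold Pool.Agent.ROQ.ext dg
  refine (totalDegree_add _ _).trans (max_le ?_ ?_)
  · refine ((totalDegree_rename_le _ _).trans (gen_degree n m R i)).trans ?_
    have : n * (R + 1) ≤ n * (R + p + 1) := Nat.mul_le_mul_left _ (by omega)
    omega
  · refine (totalDegree_mul _ _).trans ?_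
    rw [totalDegree_X]
    have h1 : (pq (fun s : Fin p => (X (Sum.inr s.succ) :
        MvPolynomial (Par m R ⊕ Fin (p + 1)) F)) i).totalDegree ≤ p * n := by
      unfold pq
      refine (totalDegree_finset_prod _ _).trans ?_
      refine (Finset.sum_le_card_nsmul _ _ n ?_).trans ?_
      · intro s _
        unfold pw
        refine (totalDegree_finset_prod _ _).trans ?_
        refine (Finset.sum_le_card_nsmul _ _ 1 ?_).trans ?_
        · intro j _
          refine (totalDegree_add _ _).trans (max_le (totalDegree_X _).le ?_)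
          rw [← map_natCast (C : F →+* MvPolynomial (Par m R ⊕ Fin (p + 1)) F), totalDegree_C]
          omega
        · rw [smul_eq_mul, mul_one]
          refine (Finset.card_erase_le).trans ?_
          simp
      · simp
    have : n * p ≤ n * (R + p + 1) := Nat.mul_le_mul_left _ (by omega)
    rw [mul_comm p n] at h1
    omega

private theorem FinB_deg {K σ τ : Type*} [Field K] [Fintype σ] (g : σ → MvPolynomial τ K) (e : ℕ)
    (hg : ∀ i, (g i).totalDegree ≤ e) (f : MvPolynomial σ K) :
    (aeval g f).totalDegree ≤ f.totalDegree * e := by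
  rw [aeval_def, eval₂_eq']
  refine (totalDegree_finsetSum_le fun d hd => ?_)
  have h1 : ∑ i, d i ≤ f.totalDegree := by
    have := le_totalDegree hd
    rwa [Finsupp.sum_fintype _ _ (fun _ => rfl)] at this
  calc (algebraMap K (MvPolynomial τ K) (f.coeff d) * ∏ i, g i ^ d i).totalDegree
      ≤ (algebraMap K (MvPolynomial τ K) (f.coeff d)).totalDegree + (∏ i, g i ^ d i).totalDegree :=
        totalDegree_mul _ _
    _ = (∏ i, g i ^ d i).totalDegree := by rw [algebraMap_eq, totalDegree_C, zero_add]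
    _ ≤ ∑ i, (g i ^ d i).totalDegree := totalDegree_finset_prod _ _
    _ ≤ ∑ i, d i * e := Finset.sum_le_sum fun i _ =>
        (totalDegree_pow _ _).trans (Nat.mul_le_mul_left _ (hg i))
    _ = (∑ i, d i) * e := by rw [Finset.sum_mul]
    _ ≤ f.totalDegree * e := Nat.mul_le_mul_right _ h1

theorem grid {F : Type*} [Field F] [CharZero F] (n m R p D : ℕ) (g : MvPolynomial (Fin n) F)
    (hg : aeval (pt n m R p (X : Par m R ⊕ Fin (p + 1) →
      MvPolynomial (Par m R ⊕ Fin (p + 1)) F)) g ≠ 0)
    (hD : g.totalDegree ≤ D) :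
    ∃ x ∈ hits n m R p D, MvPolynomial.eval (fun i => ((x i : ℤ) : F)) g ≠ 0 := by
  classical
  by_contra hcon
  push Not at hcon
  apply hg
  refine eq_zero_of_eval_zero_at_prod_finset _
    (fun _ => (Finset.range (D * dg n R p + 1)).image (fun k : ℕ => (k : F))) ?_ ?_
  · intro k
    rw [Finset.card_image_of_injective _ Nat.cast_injective, Finset.card_range]
    refine Nat.lt_succ_of_le ((degreeOf_le_totalDegree _ _).trans ?_)
    exact (FinB_deg _ _ (fun i => pt_degree n m R p i) g).trans (Nat.mul_le_mul_right _ hD)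
  · intro y hy
    have hy' : ∀ k, ∃ t ∈ Finset.range (D * dg n R p + 1), ((t : ℕ) : F) = y k := fun k => by
      have := hy k
      rwa [Finset.mem_image] at this
    choose t ht hty using hy'
    rw [Pool.Agent.ROQ.eval_aeval']
    have h1 := hcon (pt n m R p fun k => ((t k : ℕ) : ℤ)) (by
      unfold hits
      rw [Finset.mem_image]
      exact ⟨t, by rw [Fintype.mem_piFinset]; exact ht, rfl⟩)
    rw [← h1]
    congr 2
    funext i
    unfold pt
    rw [map_add, map_mul, gen_map, eval_X, map_pq]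
    rw [Int.cast_add, Int.cast_mul]
    have h2 := gen_map (Int.castRingHom F) n m R (fun k : Par m R => ((t (.inl k) : ℕ) : ℤ)) i
    have h3 := map_pq (Int.castRingHom F) (fun s : Fin p => ((t (.inr s.succ) : ℕ) : ℤ)) i
    simp only [Int.coe_castRingHom, Int.cast_natCast] at h2 h3
    rw [h2, h3, ← hty, Int.cast_natCast]
    simp only [eval_X, ← hty]

/-- number of parameters of the shared source -/
def rk (r k t b w : ℕ) : ℕ := 2 * r + (kap b w (2 * r + t) + k)

theorem main.{u, v, x} {F : Type x} [Field F] [CharZero F] {n s k t b w m r p : ℕ} (hr : 0 < r)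
    (hp : 0 < p) (hs : s ≤ r * m) {N : ℕ}
    (P : Fin N → MvPolynomial (Fin n) F)
    (hP : ∀ j, P j ≠ 0 ∧ RO p (Limit.{u, v, x} n s k t b w) (P j)) (g : MvPolynomial (Fin n) F)
    (hg : g ∣ ∏ j, P j) :
    aeval (pt n m (rk r k t b w) p (X : Par m (rk r k t b w) ⊕ Fin (p + 1) →
      MvPolynomial (Par m (rk r k t b w) ⊕ Fin (p + 1)) F)) g ≠ 0 ∧
    ∀ D, g.totalDegree ≤ D → ∃ x ∈ hits n m (rk r k t b w) p D,
      MvPolynomial.eval (fun i => ((x i : ℤ) : F)) g ≠ 0 := by
  have h1 : aeval (pt n m (rk r k t b w) p (X : Par m (rk r k t b w) ⊕ Fin (p + 1) →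
      MvPolynomial (Par m (rk r k t b w) ⊕ Fin (p + 1)) F)) g ≠ 0 := by
    rw [← ext_gen]
    exact Pool.Agent.ROQ.ro_prod_hit hp _ (Limit.{u, v, x} n s k t b w)
      (fun f hf hc c => gen_nonconst hr hs le_rfl f hf hc c) P hP g hg
  exact ⟨h1, fun D hD => grid n m (rk r k t b w) p D g h1 hD⟩

end Pool.Agent.KAL
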