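import Pool.Agent.KAL.FinB

/-!
MP_e2be99_lc: black-box identity testing for all arithmetic circuits with few reused gates: circuits
with `s` leaves which are variables and `t` wires leaving reused gates have explicit hitting sets of
size `(n D)^O(sqrt s + t)`; determinants and branching programs of size `s` of size
`(n D)^O(s^(2/3))`; oblivious programs of width `w` and length `s`, read in any order, of size
`(n D)^O(w sqrt s)`; all limits of such polynomials, read-once compositions of any depth of these
limits, and divisors of products.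
-/

set_option autoImplicit false

namespace Pool.Agent.KAL

open MvPolynomial
open Pool.Agent.ROQ (RO)

theorem rk_formula (r k t : ℕ) (hr : 0 < r) : rk r k t 1 0 = 14 * r + 6 * t + k + 1 := by
  unfold rk kap
  rw [min_eq_left (by omega : 1 ≤ 2 * r + t)]
  simp only [ne_eq, OfNat.ofNat_ne_zero, not_false_eq_true, zero_pow, mul_zero]
  rw [max_eq_left (by omega)]
  omega

theorem rk_det (r b : ℕ) : rk r 0 0 b 0 ≤ 4 * r ^ 2 + 12 * r + 1 := by
  unfold rk kap
  simp only [ne_eq, OfNat.ofNat_ne_zero, not_false_eq_true, zero_pow, mul_zero, add_zero]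
  have h1 : max (min b (2 * r)) 0 ≤ 2 * r := max_le (min_le_right _ _) (Nat.zero_le _)
  have h2 : 2 * r * (max (min b (2 * r)) 0 + 5) ≤ 2 * r * (2 * r + 5) :=
    Nat.mul_le_mul_left _ (by omega)
  have h3 : 2 * r * (2 * r + 5) = 4 * r ^ 2 + 10 * r := by ring
  omega

theorem rk_prog (r w : ℕ) : rk r 0 0 0 w = 4 * r * (w ^ 2 + 3) + 1 := by
  unfold rk kap
  simp only [add_zero, Nat.zero_min]
  rw [max_eq_right (Nat.zero_le _)]
  ring

end Pool.Agent.KAL
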